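import Pool.Agent.GHT.Defs

/-!
# MP_b75a39_al: definitions for the final statements

The Leavitt path algebra as a type, canonical homomorphisms, homotopies of algebra homomorphisms.
-/

namespace Pool.Agent.GHT

open scoped unitInterval

/-- The Leavitt path algebra `L_ℂ(G)` as a type (a non-unital `ℂ`-algebra). -/
def LPA (G : DGraph) : Type := Leavitt G

noncomputable instance LPA.ring (G : DGraph) : NonUnitalRing (LPA G) :=
  inferInstanceAs (NonUnitalRing (Leavitt G))

noncomputable instance LPA.module (G : DGraph) : Module ℂ (LPA G) :=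
  inferInstanceAs (Module ℂ (Leavitt G))

/-- A generator (vertex, edge or ghost edge) as an element of the Leavitt path algebra. -/
noncomputable def LPA.of {G : DGraph} (x : Gen G) : LPA G := lgen G x

/-- The algebra homomorphism `f` agrees with the ring isomorphism `φ` on the generators. -/
def AgreeOnGen {E F : DGraph} (f : LPA E →ₙₐ[ℂ] LPA F) (φ : LPA E ≃+* LPA F) : Prop :=
  ∀ x : Gen E, f (LPA.of x) = φ (LPA.of x)

/-- `α` and `β` are mutually inverse homotopy equivalences: `β ∘ α` and `α ∘ β` are homotopic to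
the identity maps, through `*`-homomorphisms. -/
def HomotopyInverse {A B : Type} [NonUnitalCStarAlgebra A] [NonUnitalCStarAlgebra B]
    (α : A →⋆ₙₐ[ℂ] B) (β : B →⋆ₙₐ[ℂ] A) : Prop :=
  Homotopic (β.comp α) (NonUnitalStarAlgHom.id ℂ A) ∧
    Homotopic (α.comp β) (NonUnitalStarAlgHom.id ℂ B)

/-- `ι` is the canonical homomorphism from the Leavitt path algebra to the C*-algebra with the
Cuntz-Krieger family `Φ`: it maps `v`, `e`, `e*` to `p v`, `s e`, `(s e)*`. -/
def CKFam.IsCanonical {G : DGraph} {A : Type} [NonUnitalCStarAlgebra A] (Φ : CKFam G A)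
    (ι : LPA G →ₙₐ[ℂ] A) : Prop :=
  (∀ v, ι (LPA.of (Gen.vert v)) = Φ.p v) ∧ (∀ e, ι (LPA.of (Gen.edge e)) = Φ.s e) ∧
    ∀ e, ι (LPA.of (Gen.ghost e)) = star (Φ.s e)

/-- The composition of `f : L_ℂ(E) → L_ℂ(F)` and `ι : L_ℂ(F) → B`. -/
noncomputable def compL {E F : DGraph} {B : Type} [NonUnitalCStarAlgebra B]
    (ι : LPA F →ₙₐ[ℂ] B) (f : LPA E →ₙₐ[ℂ] LPA F) : LPA E →ₙₐ[ℂ] B := ι.comp f

/-- The composition of `ι : L_ℂ(E) → A` and the `*`-homomorphism `α : A → B`. -/
noncomputable def compR {E : DGraph} {A B : Type} [NonUnitalCStarAlgebra A]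
    [NonUnitalCStarAlgebra B] (α : A →⋆ₙₐ[ℂ] B) (ι : LPA E →ₙₐ[ℂ] A) : LPA E →ₙₐ[ℂ] B :=
  (α : A →ₙₐ[ℂ] B).comp ι

/-- Homotopy of algebra homomorphisms from a Leavitt path algebra to a C*-algebra: a pointwise
norm continuous path of algebra homomorphisms. -/
def HomotopicL {G : DGraph} {B : Type} [NonUnitalCStarAlgebra B]
    (f g : LPA G →ₙₐ[ℂ] B) : Prop :=
  ∃ H : I → (LPA G →ₙₐ[ℂ] B), H 0 = f ∧ H 1 = g ∧ ∀ a, Continuous fun t => H t a

/-- For each idempotent `x` the elements `f x` and `g x` generate the same closed ideal of `B`: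
they are annihilated by the same `*`-homomorphisms from `B` to C*-algebras. -/
def SameIdem {G : DGraph} {B : Type} [NonUnitalCStarAlgebra B]
    (f g : LPA G →ₙₐ[ℂ] B) : Prop :=
  ∀ (D : Type) [NonUnitalCStarAlgebra D] (π : B →⋆ₙₐ[ℂ] D) (x : LPA G), x * x = x →
    (π (f x) = 0 ↔ π (g x) = 0)

end Pool.Agent.GHT
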