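import Pool.Agent.GHT.MainB
import Pool.Agent.GHT.Def2

/-! # The final theorems for the type of the Leavitt path algebra -/

namespace Pool.Agent.GHT

theorem main_homotopy {E F : DGraph} [Countable E.V] [Countable E.E] [Countable F.V]
    [Countable F.E] (φ : LPA E ≃+* LPA F) {A B : Type} [NonUnitalCStarAlgebra A]
    [NonUnitalCStarAlgebra B] (Φ : CKFam E A) (hΦ : Φ.IsUniversal) (Ψ : CKFam F B)
    (hΨ : Ψ.IsUniversal) :
    ∃ (α : A →⋆ₙₐ[ℂ] B) (β : B →⋆ₙₐ[ℂ] A), HomotopyInverse α β ∧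
      ∃ (ιE : LPA E →ₙₐ[ℂ] A) (ιF : LPA F →ₙₐ[ℂ] B) (f : LPA E →ₙₐ[ℂ] LPA F),
        Φ.IsCanonical ιE ∧ Ψ.IsCanonical ιF ∧ AgreeOnGen f φ ∧
        HomotopicL (compL ιF f) (compR α ιE) ∧ SameIdem (compL ιF f) (compR α ιE) := by
  let φ' : Leavitt E ≃+* Leavitt F := φ
  obtain ⟨α, β, h1, h2, ιE, ιF, f, h3, h4, h5, h6, h7⟩ := main_theorem φ' Φ hΦ Ψ hΨ
  refine ⟨α, β, ⟨h1, h2⟩, ιE, ιF, f, h3, h4, h5, h6, ?_⟩
  intro D _ π x hx
  exact (h7 D π x hx).symm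

theorem main_linear {E F : DGraph} [Countable E.V] [Countable E.E] [Countable F.V]
    [Countable F.E] (φ : LPA E ≃+* LPA F) :
    ∃ f : LPA E →ₙₐ[ℂ] LPA F, Function.Bijective f ∧ AgreeOnGen f φ := by
  let φ' : Leavitt E ≃+* Leavitt F := φ
  exact ⟨gHom φ'.symm, gHom_bijective φ'.symm, fun x => gHom_gen φ'.symm x⟩

end Pool.Agent.GHT
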