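import Mathlib

/-!
# MP_b75a39_al: homotopy form of the isomorphism conjecture for graph algebras

Definitions: directed graphs, Leavitt path algebras over `ℂ`, Cuntz-Krieger families in
C*-algebras, universal families (graph C*-algebras), homotopy of `*`-homomorphisms.
-/

namespace Pool.Agent.GHT

open scoped unitInterval

/-- A directed graph: vertices `V`, edges `E`, source `s` and range `r`. -/
structure DGraph where
  V : Type
  E : Type
  s : E → V
  r : E → V

/-- The set of edges emitted by the vertex `v`. -/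
def DGraph.out (G : DGraph) (v : G.V) : Set G.E := {e | G.s e = v}

/-- `v` is regular: it emits at least one and only finitely many edges. -/
def DGraph.Regular (G : DGraph) (v : G.V) : Prop := (G.out v).Nonempty ∧ (G.out v).Finite

/-- The generators of the Leavitt path algebra: vertices, edges, ghost edges. -/
inductive Gen (G : DGraph) : Type
  | vert : G.V → Gen G
  | edge : G.E → Gen G
  | ghost : G.E → Gen G

/-- The free unital algebra on the generators. -/
abbrev FA (G : DGraph) : Type := FreeAlgebra ℂ (Gen G)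

/-- The defining relations of the Leavitt path algebra. -/
inductive Rel (G : DGraph) : FA G → FA G → Prop
  | vv (v : G.V) : Rel G (FreeAlgebra.ι ℂ (Gen.vert v) * FreeAlgebra.ι ℂ (Gen.vert v))
      (FreeAlgebra.ι ℂ (Gen.vert v))
  | vw (v w : G.V) (h : v ≠ w) :
      Rel G (FreeAlgebra.ι ℂ (Gen.vert v) * FreeAlgebra.ι ℂ (Gen.vert w)) 0
  | se (e : G.E) : Rel G (FreeAlgebra.ι ℂ (Gen.vert (G.s e)) * FreeAlgebra.ι ℂ (Gen.edge e))
      (FreeAlgebra.ι ℂ (Gen.edge e))
  | er (e : G.E) : Rel G (FreeAlgebra.ι ℂ (Gen.edge e) * FreeAlgebra.ι ℂ (Gen.vert (G.r e)))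
      (FreeAlgebra.ι ℂ (Gen.edge e))
  | rg (e : G.E) : Rel G (FreeAlgebra.ι ℂ (Gen.vert (G.r e)) * FreeAlgebra.ι ℂ (Gen.ghost e))
      (FreeAlgebra.ι ℂ (Gen.ghost e))
  | gs (e : G.E) : Rel G (FreeAlgebra.ι ℂ (Gen.ghost e) * FreeAlgebra.ι ℂ (Gen.vert (G.s e)))
      (FreeAlgebra.ι ℂ (Gen.ghost e))
  | ge (e : G.E) : Rel G (FreeAlgebra.ι ℂ (Gen.ghost e) * FreeAlgebra.ι ℂ (Gen.edge e))
      (FreeAlgebra.ι ℂ (Gen.vert (G.r e)))
  | gf (e f : G.E) (h : e ≠ f) :
      Rel G (FreeAlgebra.ι ℂ (Gen.ghost e) * FreeAlgebra.ι ℂ (Gen.edge f)) 0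
  | ck (v : G.V) (h : G.Regular v) : Rel G (FreeAlgebra.ι ℂ (Gen.vert v))
      (∑ e ∈ h.2.toFinset, FreeAlgebra.ι ℂ (Gen.edge e) * FreeAlgebra.ι ℂ (Gen.ghost e))

/-- The unital algebra with the generators and relations of the Leavitt path algebra (the
unitization of the Leavitt path algebra). -/
abbrev LU (G : DGraph) : Type := RingQuot (Rel G)

/-- The class of a generator. -/
noncomputable def gen (G : DGraph) (x : Gen G) : LU G :=
  RingQuot.mkAlgHom ℂ (Rel G) (FreeAlgebra.ι ℂ x)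

/-- The Leavitt path algebra `L_ℂ(G)`: the (non-unital) subalgebra generated by the vertices,
the edges and the ghost edges. -/
noncomputable def Leavitt (G : DGraph) : NonUnitalSubalgebra ℂ (LU G) :=
  NonUnitalAlgebra.adjoin ℂ (Set.range (gen G))

/-- A generator as an element of the Leavitt path algebra. -/
noncomputable def lgen (G : DGraph) (x : Gen G) : Leavitt G :=
  ⟨gen G x, NonUnitalAlgebra.subset_adjoin ℂ ⟨x, rfl⟩⟩

/-- A Leavitt family of the graph `G` in a (non-unital) ring. -/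
@[ext] structure LFam (G : DGraph) (B : Type) [NonUnitalRing B] where
  P : G.V → B
  S : G.E → B
  T : G.E → B
  PP : ∀ v, P v * P v = P v
  PPo : ∀ v w, v ≠ w → P v * P w = 0
  PS : ∀ e, P (G.s e) * S e = S e
  SP : ∀ e, S e * P (G.r e) = S e
  PT : ∀ e, P (G.r e) * T e = T e
  TP : ∀ e, T e * P (G.s e) = T e
  TS : ∀ e, T e * S e = P (G.r e)
  TSo : ∀ e f, e ≠ f → T e * S f = 0
  CK : ∀ v (h : G.Regular v), P v = ∑ e ∈ h.2.toFinset, S e * T e

/-- A Cuntz-Krieger family of the graph `G` in a C*-algebra: mutually orthogonal projections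
`p v`, partial isometries `s e` with mutually orthogonal ranges such that
`(s e)* (s e) = p (r e)`, `(s e) (s e)* ≤ p (s e)`, and `p v = ∑ (s e) (s e)*` for `v` regular. -/
structure CKFam (G : DGraph) (B : Type) [NonUnitalCStarAlgebra B] where
  p : G.V → B
  s : G.E → B
  p_star : ∀ v, star (p v) = p v
  p_mul : ∀ v, p v * p v = p v
  p_orth : ∀ v w, v ≠ w → p v * p w = 0
  s_star_s : ∀ e, star (s e) * s e = p (G.r e)
  s_orth : ∀ e f, e ≠ f → star (s e) * s f = 0
  p_s : ∀ e, p (G.s e) * s e = s e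
  ck : ∀ v (h : G.Regular v), p v = ∑ e ∈ h.2.toFinset, s e * star (s e)

/-- The family `Φ` in `A` is universal, i.e. `A` is the graph C*-algebra `C*(G)` with its
canonical generators: for each C*-algebra `B` and each Cuntz-Krieger family `Ψ` of `G` in `B` there is
exactly one `*`-homomorphism `A → B` that maps `Φ` to `Ψ`. -/
def CKFam.IsUniversal {G : DGraph} {A : Type} [NonUnitalCStarAlgebra A] (Φ : CKFam G A) : Prop :=
  ∀ (B : Type) [NonUnitalCStarAlgebra B] (Ψ : CKFam G B),
    ∃! π : A →⋆ₙₐ[ℂ] B, (∀ v, π (Φ.p v) = Ψ.p v) ∧ ∀ e, π (Φ.s e) = Ψ.s e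

/-- Homotopy of `*`-homomorphisms: a pointwise norm continuous path of `*`-homomorphisms. -/
def Homotopic {A B : Type} [NonUnitalCStarAlgebra A] [NonUnitalCStarAlgebra B]
    (f g : A →⋆ₙₐ[ℂ] B) : Prop :=
  ∃ H : I → (A →⋆ₙₐ[ℂ] B), H 0 = f ∧ H 1 = g ∧ ∀ a, Continuous fun t => H t a

end Pool.Agent.GHT
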