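import Pool.Agent.GHT.Lift

/-! # Isomorphic Leavitt path algebras have homotopy equivalent graph C*-algebras -/

set_option linter.unusedSectionVars false

namespace Pool.Agent.GHT

open scoped unitInterval

/-! ## Homotopy -/

theorem Homotopic.refl {A B : Type} [NonUnitalCStarAlgebra A] [NonUnitalCStarAlgebra B]
    (f : A →⋆ₙₐ[ℂ] B) : Homotopic f f :=
  ⟨fun _ => f, rfl, rfl, fun _ => continuous_const⟩

/-- first half of the interval -/
noncomputable def hA (t : I) : I :=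
  ⟨max 0 (min 1 (2 * (t : ℝ))), le_max_left _ _, max_le zero_le_one (min_le_left _ _)⟩

/-- second half of the interval -/
noncomputable def hB (t : I) : I :=
  ⟨max 0 (min 1 (2 * (t : ℝ) - 1)), le_max_left _ _, max_le zero_le_one (min_le_left _ _)⟩

theorem hA_cont : Continuous hA := by
  unfold hA; fun_prop

theorem hB_cont : Continuous hB := by
  unfold hB; fun_prop

theorem Homotopic.trans {A B : Type} [NonUnitalCStarAlgebra A] [NonUnitalCStarAlgebra B]
    {f g h : A →⋆ₙₐ[ℂ] B} (h1 : Homotopic f g) (h2 : Homotopic g h) : Homotopic f h := by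
  obtain ⟨H, H0, H1, Hc⟩ := h1
  obtain ⟨K, K0, K1, Kc⟩ := h2
  classical
  refine ⟨fun t => if (t : ℝ) ≤ 1 / 2 then H (hA t) else K (hB t), ?_, ?_, ?_⟩
  · have e : hA 0 = 0 := by
      apply Subtype.ext
      show max 0 (min 1 (2 * ((0 : I) : ℝ))) = ((0 : I) : ℝ)
      norm_num
    show (if ((0 : I) : ℝ) ≤ 1 / 2 then H (hA 0) else K (hB 0)) = f
    rw [if_pos (by norm_num), e, H0]
  · have e : hB 1 = 1 := by
      apply Subtype.ext
      show max 0 (min 1 (2 * ((1 : I) : ℝ) - 1)) = ((1 : I) : ℝ)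
      norm_num
    show (if ((1 : I) : ℝ) ≤ 1 / 2 then H (hA 1) else K (hB 1)) = h
    rw [if_neg (by norm_num), e, K1]
  · intro a
    have e : (fun t : I => (if (t : ℝ) ≤ 1 / 2 then H (hA t) else K (hB t)) a) =
        fun t : I => if (t : ℝ) ≤ 1 / 2 then H (hA t) a else K (hB t) a := by
      funext t
      split_ifs <;> rfl
    rw [e]
    apply Continuous.if_le ((Hc a).comp hA_cont) ((Kc a).comp hB_cont)
      continuous_subtype_val continuous_const
    intro t ht
    have e1 : hA t = 1 := by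
      apply Subtype.ext
      show max 0 (min 1 (2 * (t : ℝ))) = ((1 : I) : ℝ)
      rw [ht]; norm_num
    have e2 : hB t = 0 := by
      apply Subtype.ext
      show max 0 (min 1 (2 * (t : ℝ) - 1)) = ((0 : I) : ℝ)
      rw [ht]; norm_num
    show H (hA t) a = K (hB t) a
    rw [e1, e2, H1, K0]

theorem Homotopic.symm {A B : Type} [NonUnitalCStarAlgebra A] [NonUnitalCStarAlgebra B]
    {f g : A →⋆ₙₐ[ℂ] B} (h1 : Homotopic f g) : Homotopic g f := by
  obtain ⟨H, H0, H1, Hc⟩ := h1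
  refine ⟨fun t => H (unitInterval.symm t), ?_, ?_, ?_⟩
  · show H (unitInterval.symm 0) = g
    rw [unitInterval.symm_zero, H1]
  · show H (unitInterval.symm 1) = f
    rw [unitInterval.symm_one, H0]
  · intro a
    exact (Hc a).comp unitInterval.continuous_symm

/-! ## The universal homomorphism -/

section univ

variable {G : DGraph} {A : Type} [NonUnitalCStarAlgebra A] {Φ : CKFam G A}
  (hΦ : Φ.IsUniversal)

/-- The homomorphism given by a family. -/
noncomputable def homOf {B : Type} [NonUnitalCStarAlgebra B] (Ψ : CKFam G B) : A →⋆ₙₐ[ℂ] B :=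
  (hΦ B Ψ).choose

theorem homOf_map {B : Type} [NonUnitalCStarAlgebra B] (Ψ : CKFam G B) :
    Φ.map (homOf hΦ Ψ) = Ψ :=
  CKFam.ext' (hΦ B Ψ).choose_spec.1.1 (hΦ B Ψ).choose_spec.1.2

theorem homOf_eq {B : Type} [NonUnitalCStarAlgebra B] (π : A →⋆ₙₐ[ℂ] B) :
    homOf hΦ (Φ.map π) = π :=
  ((hΦ B (Φ.map π)).choose_spec.2 π ⟨fun _ => rfl, fun _ => rfl⟩).symm

include hΦ in
theorem homOf_unique {B : Type} [NonUnitalCStarAlgebra B] {π π' : A →⋆ₙₐ[ℂ] B}
    (h : Φ.map π = Φ.map π') : π = π' := by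
  rw [← homOf_eq hΦ π, h, homOf_eq hΦ π']

theorem CKFam.map_comp {B D : Type} [NonUnitalCStarAlgebra B] [NonUnitalCStarAlgebra D]
    (Φ : CKFam G A) (π : A →⋆ₙₐ[ℂ] B) (π' : B →⋆ₙₐ[ℂ] D) :
    Φ.map (π'.comp π) = (Φ.map π).map π' := rfl

theorem homotopic_of_pathL [Encodable G.V] [Encodable G.E] {B : Type} [NonUnitalCStarAlgebra B]
    {Θ Θ' : LFam G B} (h : PathL Θ Θ') : Homotopic (homOf hΦ Θ.str) (homOf hΦ Θ'.str) := by
  obtain ⟨Ω, h0, h1⟩ := h
  refine ⟨fun t => (ev t).comp (homOf hΦ Ω.str), ?_, ?_, ?_⟩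
  · apply homOf_unique hΦ
    rw [homOf_map, CKFam.map_comp, homOf_map, ← LFam.map_str, h0]
  · apply homOf_unique hΦ
    rw [homOf_map, CKFam.map_comp, homOf_map, ← LFam.map_str, h1]
  · intro a
    exact (homOf hΦ Ω.str a).continuous

theorem homotopic_of_paths [Encodable G.V] [Encodable G.E] {B : Type} [NonUnitalCStarAlgebra B]
    {Θ Θ' : LFam G B} (h : Relation.ReflTransGen PathL Θ Θ') :
    Homotopic (homOf hΦ Θ.str) (homOf hΦ Θ'.str) := by
  induction h with
  | refl => exact Homotopic.refl _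
  | tail _ h ih => exact ih.trans (homotopic_of_pathL hΦ h)

end univ

/-! ## Pulling back families -/

theorem lift_map {G : DGraph} {B D : Type} [NonUnitalCStarAlgebra B] [NonUnitalCStarAlgebra D]
    (Θ : LFam G B) (π : B →⋆ₙₐ[ℂ] D) (x : Leavitt G) :
    (Θ.map π).lift x = π (Θ.lift x) := by
  have h : (Θ.map π).lift = (π : B →ₙₐ[ℂ] D).comp Θ.lift := by
    apply leavitt_hom_ext
    intro x
    cases x with
    | vert v =>
      rw [LFam.lift_vert, NonUnitalAlgHom.comp_apply, LFam.lift_vert]; rfl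
    | edge e =>
      rw [LFam.lift_edge, NonUnitalAlgHom.comp_apply, LFam.lift_edge]; rfl
    | ghost e =>
      rw [LFam.lift_ghost, NonUnitalAlgHom.comp_apply, LFam.lift_ghost]; rfl
  rw [h]; rfl

section pull

variable {G F : DGraph} (f : Leavitt G →ₙₐ[ℂ] Leavitt F) {B : Type} [NonUnitalCStarAlgebra B]

/-- The `G`-family obtained from an `F`-family and a homomorphism `L(G) → L(F)`. -/
noncomputable def pull (Θ : LFam F B) : LFam G B :=
  LFam.map (B := Leavitt F) (LFam.map (B := Leavitt G) (D := Leavitt F) (canL G)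
    (f : Leavitt G →ₙ+* Leavitt F)) (Θ.lift : Leavitt F →ₙ+* B)

theorem pull_map {D : Type} [NonUnitalCStarAlgebra D] (Θ : LFam F B) (π : B →⋆ₙₐ[ℂ] D) :
    pull f (Θ.map π) = (pull f Θ).map π := by
  ext x
  · exact lift_map Θ π _
  · exact lift_map Θ π _
  · exact lift_map Θ π _

theorem pull_pathL {Θ Θ' : LFam F B} (h : PathL Θ Θ') : PathL (pull f Θ) (pull f Θ') := by
  obtain ⟨Ω, h0, h1⟩ := h
  refine ⟨pull f Ω, ?_, ?_⟩
  · rw [← pull_map, h0]
  · rw [← pull_map, h1]

theorem pull_paths {Θ Θ' : LFam F B} (h : Relation.ReflTransGen PathL Θ Θ') :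
    Relation.ReflTransGen PathL (pull f Θ) (pull f Θ') :=
  Relation.ReflTransGen.lift (pull f) (fun _ _ h => pull_pathL f h) _ _ h

end pull

theorem map_pathL {G : DGraph} {B D : Type} [NonUnitalCStarAlgebra B] [NonUnitalCStarAlgebra D]
    (π : B →⋆ₙₐ[ℂ] D) {Θ Θ' : LFam G B} (h : PathL Θ Θ') : PathL (Θ.map π) (Θ'.map π) := by
  obtain ⟨Ω, h0, h1⟩ := h
  have hπ : Continuous π := by
    exact AddMonoidHomClass.continuous_of_bound π 1
      (fun x => by simpa only [one_mul] using NonUnitalStarAlgHom.norm_apply_le π x)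
  have h := PathL.of (fun t => (Ω.map (ev t)).map π) (fun v => hπ.comp (Ω.P v).continuous)
    (fun e => hπ.comp (Ω.S e).continuous) (fun e => hπ.comp (Ω.T e).continuous)
  rw [h0, h1] at h
  exact h

theorem map_paths {G : DGraph} {B D : Type} [NonUnitalCStarAlgebra B] [NonUnitalCStarAlgebra D]
    (π : B →⋆ₙₐ[ℂ] D) {Θ Θ' : LFam G B} (h : Relation.ReflTransGen PathL Θ Θ') :
    Relation.ReflTransGen PathL (Θ.map π) (Θ'.map π) :=
  Relation.ReflTransGen.lift (fun Θ'' : LFam G B => Θ''.map π) (fun _ _ h => map_pathL π h) _ _ h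

/-! ## The main argument -/

section main

variable {E F : DGraph} [Encodable E.V] [Encodable E.E] [Encodable F.V] [Encodable F.E]
  {A B : Type} [NonUnitalCStarAlgebra A] [NonUnitalCStarAlgebra B]
  {Φ : CKFam E A} (hΦ : Φ.IsUniversal) {Ψ : CKFam F B} (hΨ : Ψ.IsUniversal)

/-- The `*`-homomorphism `C*(E) → C*(F)` given by `f : L(E) → L(F)`. -/
noncomputable def starOf (f : Leavitt E →ₙₐ[ℂ] Leavitt F) : A →⋆ₙₐ[ℂ] B :=
  homOf hΦ (pull f Ψ.toL).str

theorem starOf_map (f : Leavitt E →ₙₐ[ℂ] Leavitt F) :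
    Φ.map (starOf hΦ (Ψ := Ψ) f) = (pull f Ψ.toL).str := homOf_map hΦ _

theorem homotopic_comp (f : Leavitt E →ₙₐ[ℂ] Leavitt F) (g : Leavitt F →ₙₐ[ℂ] Leavitt E)
    (hgf : ∀ x, g (f x) = x) :
    Homotopic (NonUnitalStarAlgHom.id ℂ A)
      ((starOf hΨ (Ψ := Φ) g).comp (starOf hΦ (Ψ := Ψ) f)) := by
  set α := starOf hΦ (Ψ := Ψ) f with hα
  set β := starOf hΨ (Ψ := Φ) g with hβ
  have hβm : Ψ.map β = (pull g Φ.toL).str := starOf_map hΨ g
  have hαm : Φ.map α = (pull f Ψ.toL).str := starOf_map hΦ f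
  -- the start of the chain
  have h0 : pull f (pull g Φ.toL) = Φ.toL := by
    have hl : ∀ y, (pull g Φ.toL).lift y = Φ.toL.lift (g y) := by
      intro y
      have h : (pull g Φ.toL).lift = Φ.toL.lift.comp g := by
        apply leavitt_hom_ext
        intro x
        cases x with
        | vert v => rw [LFam.lift_vert]; rfl
        | edge e => rw [LFam.lift_edge]; rfl
        | ghost e => rw [LFam.lift_ghost]; rfl
      rw [h]; rfl
    ext x
    · show (pull g Φ.toL).lift (f (lgen E (Gen.vert x))) = Φ.toL.P x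
      rw [hl, hgf, LFam.lift_vert]
    · show (pull g Φ.toL).lift (f (lgen E (Gen.edge x))) = Φ.toL.S x
      rw [hl, hgf, LFam.lift_edge]
    · show (pull g Φ.toL).lift (f (lgen E (Gen.ghost x))) = Φ.toL.T x
      rw [hl, hgf, LFam.lift_ghost]
  have c1 : Relation.ReflTransGen PathL (pull f (pull g Φ.toL))
      (pull f (pull g Φ.toL).str.toL) := pull_paths f (pull g Φ.toL).path_str
  rw [h0, ← hβm, CKFam.toL_map, pull_map] at c1
  have c2 : Relation.ReflTransGen PathL ((pull f Ψ.toL).map β)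
      ((pull f Ψ.toL).str.toL.map β) := map_paths β (pull f Ψ.toL).path_str
  have c3 := c1.trans c2
  rw [← hαm, ← CKFam.toL_map, ← CKFam.map_comp] at c3
  have c4 := homotopic_of_paths hΦ c3
  rw [LFam.str_fix, LFam.str_fix, homOf_eq] at c4
  have c5 : homOf hΦ Φ = NonUnitalStarAlgHom.id ℂ A := homOf_eq hΦ (NonUnitalStarAlgHom.id ℂ A)
  rwa [c5] at c4

end main

/-! ## Ideals -/

theorem LFam.str_P_zero {G : DGraph} [Encodable G.V] [Encodable G.E] {B : Type}
    [NonUnitalCStarAlgebra B] (Θ : LFam G B) (v : G.V) : Θ.str.p v = 0 ↔ Θ.P v = 0 := by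
  set u := Θ.vF.GU (fun _ => 1) (Encodable.encode v) with hu
  set w := Θ.vF.GW (fun _ => 1) (Encodable.encode v) with hw
  have h1 : Θ.str.p v = u * w := rfl
  have h2 : w * u = Θ.P v := by
    have := Θ.vF.GW_GU_self (fun _ => 1) (Encodable.encode v)
    rw [← hu, ← hw] at this
    rw [this]
    exact extN_encode Θ.P v
  have h3 : u * Θ.P v = u := by
    have := Θ.vF.GU_Q (fun _ => 1) (Encodable.encode v)
    have h4 : Θ.vF.Q (Encodable.encode v) = Θ.P v := extN_encode Θ.P v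
    rwa [h4, ← hu] at this
  rw [h1]
  constructor
  · intro h
    calc Θ.P v = Θ.P v * Θ.P v := (Θ.PP v).symm
      _ = w * (u * w) * u := by rw [← h2]; noncomm_ring
      _ = 0 := by rw [h]; simp
  · intro h
    rw [← h3, h, mul_zero, zero_mul]

theorem starOf_zero_iff {E F : DGraph} [Encodable E.V] [Encodable E.E] [Encodable F.V]
    [Encodable F.E]
    {A B : Type} [NonUnitalCStarAlgebra A] [NonUnitalCStarAlgebra B]
    {Φ : CKFam E A} (hΦ : Φ.IsUniversal) {Ψ : CKFam F B}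
    (f : Leavitt E →ₙₐ[ℂ] Leavitt F) {D : Type} [NonUnitalCStarAlgebra D] (π : B →⋆ₙₐ[ℂ] D)
    (v : E.V) :
    π (starOf hΦ (Ψ := Ψ) f (Φ.p v)) = 0 ↔ π (Ψ.toL.lift (f (lgen E (Gen.vert v)))) = 0 := by
  have h1 : starOf hΦ (Ψ := Ψ) f (Φ.p v) = (pull f Ψ.toL).str.p v :=
    congrFun (congrArg CKFam.p (starOf_map hΦ f)) v
  have h2 : π ((pull f Ψ.toL).str.p v) = ((pull f Ψ.toL).map π).str.p v := by
    rw [LFam.map_str]; rfl
  rw [h1, h2, LFam.str_P_zero]
  rfl

end Pool.Agent.GHT
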