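import Pool.Agent.GHT.RH
import Pool.Agent.GHT.MainA

/-! # Ring isomorphic Leavitt path algebras are isomorphic as algebras -/

set_option linter.unusedSectionVars false

namespace Pool.Agent.GHT

theorem LZ_le_L {G : DGraph} {x : LU G} (hx : x ∈ LZ G) : x ∈ Leavitt G := by
  unfold LZ at hx
  induction hx using NonUnitalSubring.closure_induction with
  | mem x hx => exact NonUnitalAlgebra.subset_adjoin ℂ hx
  | zero => exact zero_mem _
  | add x y _ _ hx hy => exact add_mem hx hy
  | neg x _ hx => exact neg_mem hx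
  | mul x y _ _ hx hy => exact mul_mem hx hy

section

variable {E F : DGraph} (φ : Leavitt E ≃+* Leavitt F)

/-- The transported scalar multiplication. -/
noncomputable def th (c : ℂ) (y : Leavitt F) : Leavitt F := φ (c • φ.symm y)

theorem th_add (c : ℂ) (x y : Leavitt F) : th φ c (x + y) = th φ c x + th φ c y := by
  unfold th; rw [map_add, smul_add, map_add]

theorem th_zero (c : ℂ) : th φ c (0 : Leavitt F) = 0 := by
  unfold th; rw [map_zero, smul_zero, map_zero]

theorem th_sum (c : ℂ) {ι : Type} (s : Finset ι) (f : ι → Leavitt F) :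
    th φ c (∑ i ∈ s, f i) = ∑ i ∈ s, th φ c (f i) := by
  unfold th; rw [map_sum, Finset.smul_sum, map_sum]

theorem th_mul_left (c : ℂ) (x y : Leavitt F) : th φ c (x * y) = th φ c x * y := by
  unfold th
  rw [map_mul, ← smul_mul_assoc, map_mul, RingEquiv.apply_symm_apply]

theorem th_mul_right (c : ℂ) (x y : Leavitt F) : th φ c (x * y) = x * th φ c y := by
  unfold th
  rw [map_mul, ← mul_smul_comm, map_mul, RingEquiv.apply_symm_apply]

theorem th_mul (c d : ℂ) (x : Leavitt F) : th φ (c * d) x = th φ c (th φ d x) := by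
  unfold th
  rw [RingEquiv.symm_apply_apply, smul_smul]

theorem th_add_scalar (c d : ℂ) (x : Leavitt F) : th φ (c + d) x = th φ c x + th φ d x := by
  unfold th
  have h : (c + d) • φ.symm x = c • φ.symm x + d • φ.symm x := Subtype.ext (add_smul c d _)
  rw [h, map_add]

theorem th_sub_scalar (c d : ℂ) (x : Leavitt F) : th φ (c - d) x = th φ c x - th φ d x := by
  have h := th_add_scalar φ (c - d) d x
  rw [sub_add_cancel] at h
  have h' : (th φ c x : LU F) = (th φ (c - d) x : LU F) + (th φ d x : LU F) :=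
    congrArg Subtype.val h
  apply Subtype.ext
  exact eq_sub_of_add_eq h'.symm

theorem th_one (x : Leavitt F) : th φ 1 x = x := by
  unfold th; rw [one_smul, RingEquiv.apply_symm_apply]

theorem th_eq_zero {c : ℂ} (hc : c ≠ 0) {x : Leavitt F} (h : th φ c x = 0) : x = 0 := by
  rw [← th_one φ x, ← inv_mul_cancel₀ hc, th_mul, h, th_zero]

/-- `th` commutes with the scalars. -/
theorem th_smul (c k : ℂ) (x : Leavitt F) : th φ c (k • x) = k • th φ c x := by
  -- use a local unit
  obtain ⟨W, hW⟩ := local_unit x.2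
  have hmem : ∑ w ∈ W, gP F w ∈ Leavitt F := sum_mem fun w _ => gP_mem w
  set u : Leavitt F := ⟨∑ w ∈ W, gP F w, hmem⟩ with hu
  have hux : u * x = x := Subtype.ext (hW W (Finset.Subset.refl _)).1
  calc th φ c (k • x) = th φ c ((k • u) * x) := by rw [smul_mul_assoc, hux]
    _ = (k • u) * th φ c x := th_mul_right φ c _ _
    _ = k • th φ c (u * x) := by rw [smul_mul_assoc, th_mul_right]
    _ = k • th φ c x := by rw [hux]

/-- vertices as elements of the Leavitt path algebra -/
noncomputable def lP {G : DGraph} (v : G.V) : Leavitt G := lgen G (Gen.vert v)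

theorem lP_mul {G : DGraph} (v : G.V) : (lP v : Leavitt G) * lP v = lP v := (canL G).PP v

/-- The central family of `th φ c`. -/
noncomputable def thCen (c : ℂ) : Cen F where
  z v := (th φ c (lP v) : LU F)
  mem v := (th φ c (lP v)).2
  Pz v := by
    show ((lP v * th φ c (lP v) : Leavitt F) : LU F) = _
    rw [← th_mul_right, lP_mul]
  zP v := by
    show ((th φ c (lP v) * lP v : Leavitt F) : LU F) = _
    rw [← th_mul_left, lP_mul]
  comm x hx v w := by
    show ((th φ c (lP v) * ⟨x, hx⟩ * lP w : Leavitt F) : LU F) =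
      ((lP v * ⟨x, hx⟩ * th φ c (lP w) : Leavitt F) : LU F)
    rw [← th_mul_left, ← th_mul_left, th_mul_right]

theorem thCen_pow (c : ℂ) (v : F.V) (n : ℕ) :
    ((thCen φ c).z v) ^ (n + 1) = (thCen φ (c ^ (n + 1))).z v := by
  induction n with
  | zero => simp
  | succ n ih =>
    rw [pow_succ, ih]
    show ((th φ (c ^ (n + 1)) (lP v) * th φ c (lP v) : Leavitt F) : LU F) =
      (th φ (c ^ (n + 1 + 1)) (lP v) : LU F)
    rw [pow_succ c (n + 1), th_mul, ← th_mul_left]
    have h : lP v * th φ c (lP v) = th φ c (lP v) := by rw [← th_mul_right, lP_mul]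
    rw [h]

theorem thCen_div (c : ℂ) : Div (thCen φ c) := by
  intro n
  obtain ⟨d, hd⟩ := IsAlgClosed.exists_pow_nat_eq c (Nat.succ_pos n)
  refine ⟨thCen φ d, fun v => ?_⟩
  rw [thCen_pow, hd]

theorem th_Dec [Countable F.E] (c : ℂ) (v : F.V) : Dec v (th φ c (lP v) : LU F) := by
  obtain ⟨n, hn⟩ := UU_MM (leavitt_le_UU (th φ c (lP v)).2)
  exact SL (thCen φ c) (thCen_div φ c) n v hn

/-- Decomposition in the Leavitt path algebra. -/
theorem th_Dec' [Countable F.E] (c : ℂ) (v : F.V) :
    ∃ (ι : Type) (_ : Fintype ι) (k : ι → ℂ) (ε : ι → Leavitt F), (∀ i, (ε i : LU F) ∈ LZ F) ∧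
      (∀ i j, i ≠ j → ε i * ε j = 0) ∧ (∀ i, ε i * ε i = ε i) ∧ ∑ i, ε i = lP v ∧
      ∀ i, th φ c (ε i) = k i • ε i := by
  obtain ⟨ι, hι, k, ε, hZ, hg, ho, hi, hs, hk⟩ := th_Dec φ c v
  have hs' : ∑ i, (⟨ε i, LZ_le_L (hZ i)⟩ : Leavitt F) = lP v := by
    apply Subtype.ext
    rw [AddSubmonoidClass.coe_finsetSum]
    exact hs
  refine ⟨ι, hι, k, fun i => ⟨ε i, LZ_le_L (hZ i)⟩, hZ, fun i j hij => Subtype.ext (ho i j hij),
    fun i => Subtype.ext (hi i), hs', fun i => ?_⟩
  have h1 : (lP v : Leavitt F) * ⟨ε i, LZ_le_L (hZ i)⟩ = ⟨ε i, LZ_le_L (hZ i)⟩ := by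
    rw [← hs', Finset.sum_mul, Finset.sum_eq_single i]
    · exact Subtype.ext (hi i)
    · intro j _ hj; exact Subtype.ext (ho j i hj)
    · intro h; exact absurd (Finset.mem_univ i) h
  show th φ c (⟨ε i, LZ_le_L (hZ i)⟩ : Leavitt F) = k i • (⟨ε i, LZ_le_L (hZ i)⟩ : Leavitt F)
  conv_lhs => rw [← h1]
  rw [th_mul_left]
  apply Subtype.ext
  show (th φ c (lP v) : LU F) * ε i = k i • ε i
  rw [← hk, Finset.sum_mul, Finset.sum_eq_single i]
  · rw [smul_mul_assoc, hi]
  · intro j _ hj; rw [smul_mul_assoc, ho j i hj, smul_zero]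
  · intro h; exact absurd (Finset.mem_univ i) h

end

section pieces

variable {E F : DGraph} [Countable E.E] [Countable F.E] (φ : Leavitt E ≃+* Leavitt F)

/-- Finite decomposition of `x` into eigenvectors of the transported scalar `k`. -/
theorem exists_pieces (k : ℂ) (x : Leavitt F) : ∃ (J : Type) (_ : Fintype J) (d : J → ℂ)
    (x' : J → Leavitt F), ∑ j, x' j = x ∧ ∀ j, th φ (d j) (x' j) = k • x' j := by
  classical
  set y := φ.symm x with hy
  obtain ⟨U, hU⟩ := local_unit y.2
  have hU' : ∑ u ∈ U, (lP u : Leavitt E) * y = y := by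
    apply Subtype.ext
    rw [AddSubmonoidClass.coe_finsetSum]
    have := (hU U (Finset.Subset.refl _)).1
    rw [Finset.sum_mul] at this
    exact this
  choose ι hι κ ε hZ ho hi hs hk using fun u => th_Dec' φ.symm k u
  refine ⟨Σ u : {u // u ∈ U}, ι u, inferInstance, fun j => κ j.1 j.2,
    fun j => φ (ε j.1 j.2 * y), ?_, ?_⟩
  · rw [Fintype.sum_sigma]
    have h0 : ∑ u : {u // u ∈ U}, ∑ i : ι u, φ (ε u i * y) =
        φ (∑ u : {u // u ∈ U}, ∑ i : ι u, ε u i * y) := by
      rw [map_sum]
      apply Finset.sum_congr rfl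
      intro u _
      rw [map_sum]
    refine h0.trans ?_
    have h1 : ∀ u : {u // u ∈ U}, ∑ i, ε u i * y = lP (u : E.V) * y := by
      intro u; rw [← Finset.sum_mul, hs]
    rw [Finset.sum_congr rfl (fun u _ => h1 u), Finset.sum_coe_sort U (fun u => lP u * y), hU', hy,
      RingEquiv.apply_symm_apply]
  · rintro ⟨u, i⟩
    show th φ (κ u i) (φ (ε u i * y)) = k • φ (ε u i * y)
    unfold th
    rw [RingEquiv.symm_apply_apply]
    have h1 : κ (u : E.V) i • (ε u i * y) = th φ.symm k (ε u i * y) := by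
      rw [th_mul_left, hk, smul_mul_assoc]
    rw [h1]
    unfold th
    rw [RingEquiv.apply_symm_apply, RingEquiv.symm_symm]

end pieces

section vertex

variable {E F : DGraph} [Countable E.E] [Countable F.E] (φ : Leavitt E ≃+* Leavitt F)

/-- The vertex `w` is a finite sum of integral pieces on which `k` acts as a transported
scalar. -/
theorem exists_vertex_pieces (k : ℂ) (w : F.V) : ∃ (D : Finset ℂ) (x' : ℂ → Leavitt F),
    (∀ d ∈ D, (x' d : LU F) ∈ LZ F) ∧ ∑ d ∈ D, x' d = lP w ∧
      ∀ d ∈ D, th φ d (x' d) = k • x' d := by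
  classical
  obtain ⟨J, hJ, d, y, hy, hyd⟩ := exists_pieces φ k (lP w)
  choose ι hι κ ε hZ ho hi hs hk using fun c => th_Dec' φ c w
  -- the integral idempotents
  let e : ℂ → Leavitt F := fun c => ∑ i ∈ Finset.univ.filter (fun i => κ c i = k), ε c i
  have hPε : ∀ c i, lP w * ε c i = ε c i := by
    intro c i
    rw [← hs c, Finset.sum_mul, Finset.sum_eq_single i]
    · exact hi c i
    · intro j _ hj; exact ho c j i hj
    · intro h; exact absurd (Finset.mem_univ i) h
  have hεP : ∀ c i, ε c i * lP w = ε c i := by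
    intro c i
    rw [← hs c, Finset.mul_sum, Finset.sum_eq_single i]
    · exact hi c i
    · intro j _ hj; exact ho c i j (Ne.symm hj)
    · intro h; exact absurd (Finset.mem_univ i) h
  have ha : ∀ c x, lP w * x = x → th φ c x = k • x → e c * x = x := by
    intro c x hx hcx
    have h1 : ∀ i, κ c i ≠ k → ε c i * x = 0 := by
      intro i hik
      have h2 : th φ c (ε c i * x) = k • (ε c i * x) := by
        rw [th_mul_right, hcx, mul_smul_comm]
      have h3 : th φ c (ε c i * x) = κ c i • (ε c i * x) := by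
        rw [th_mul_left, hk, smul_mul_assoc]
      rw [h2] at h3
      have h4 : (k - κ c i) • ((ε c i * x : Leavitt F) : LU F) = 0 := by
        have h5 := congrArg (Subtype.val) h3
        exact (sub_smul k (κ c i) ((ε c i * x : Leavitt F) : LU F)).trans (sub_eq_zero.2 h5)
      rcases smul_eq_zero.1 h4 with h | h
      · exact absurd (sub_eq_zero.1 h).symm hik
      · exact Subtype.ext h
    calc e c * x = ∑ i ∈ Finset.univ.filter (fun i => κ c i = k), ε c i * x := Finset.sum_mul _ _ _
      _ = ∑ i, ε c i * x := by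
          rw [Finset.sum_filter]
          apply Finset.sum_congr rfl
          intro i _
          split_ifs with h
          · rfl
          · exact (h1 i h).symm
      _ = x := by rw [← Finset.sum_mul, hs, hx]
  have hb : ∀ c, th φ c (e c) = k • e c := by
    intro c
    show th φ c (∑ i ∈ Finset.univ.filter (fun i => κ c i = k), ε c i) = _
    rw [th_sum, Finset.smul_sum]
    apply Finset.sum_congr rfl
    intro i hi'
    rw [hk, (Finset.mem_filter.1 hi').2]
  have hc : ∀ c c' x, c ≠ c' → th φ c' x = k • x → e c * x = 0 := by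
    intro c c' x hcc hx
    apply th_eq_zero φ (sub_ne_zero.2 hcc)
    have h1 : th φ c (e c * x) = k • (e c * x) := by rw [th_mul_left, hb, smul_mul_assoc]
    have h2 : th φ c' (e c * x) = k • (e c * x) := by rw [th_mul_right, hx, mul_smul_comm]
    rw [th_sub_scalar, h1, h2]
    apply Subtype.ext
    exact sub_self _
  let y' : J → Leavitt F := fun j => lP w * y j * lP w
  have hy' : ∑ j, y' j = lP w := by
    show ∑ j, lP w * y j * lP w = lP w
    rw [← Finset.sum_mul, ← Finset.mul_sum, hy, lP_mul, lP_mul]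
  have hPy' : ∀ j, lP w * y' j = y' j := by
    intro j
    show lP w * (lP w * y j * lP w) = _
    rw [← mul_assoc, ← mul_assoc, lP_mul]
  have hyd' : ∀ j, th φ (d j) (y' j) = k • y' j := by
    intro j
    show th φ (d j) (lP w * y j * lP w) = k • (lP w * y j * lP w)
    rw [th_mul_left, th_mul_right, hyd, mul_smul_comm, smul_mul_assoc]
  have he : ∀ c, e c = ∑ j ∈ Finset.univ.filter (fun j => d j = c), y' j := by
    intro c
    have h1 : e c * lP w = e c := by
      show (∑ i ∈ Finset.univ.filter (fun i => κ c i = k), ε c i) * lP w = _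
      rw [Finset.sum_mul]
      exact Finset.sum_congr rfl fun i _ => hεP c i
    rw [← h1, ← hy', Finset.mul_sum, Finset.sum_filter]
    apply Finset.sum_congr rfl
    intro j _
    split_ifs with h
    · exact ha c (y' j) (hPy' j) (by rw [← h]; exact hyd' j)
    · exact hc c (d j) (y' j) (Ne.symm h) (hyd' j)
  refine ⟨Finset.univ.image d, e, ?_, ?_, fun c _ => hb c⟩
  · intro c _
    show ((∑ i ∈ Finset.univ.filter (fun i => κ c i = k), ε c i : Leavitt F) : LU F) ∈ LZ F
    rw [AddSubmonoidClass.coe_finsetSum]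
    exact sum_mem fun i _ => hZ c i
  · rw [Finset.sum_congr rfl (fun c _ => he c)]
    rw [Finset.sum_fiberwise_of_maps_to (fun j _ => Finset.mem_image_of_mem d (Finset.mem_univ j))]
    exact hy'

end vertex

section bij

variable {E F : DGraph} (φ : Leavitt E ≃+* Leavitt F)

/-- The family of the images of the generators under the inverse ring isomorphism. -/
noncomputable def gFam : LFam F (Leavitt E) :=
  LFam.map (B := Leavitt F) (D := Leavitt E) (canL F) (φ.symm : Leavitt F →ₙ+* Leavitt E)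

/-- The linear extension of the inverse ring isomorphism. -/
noncomputable def gHom : Leavitt F →ₙₐ[ℂ] Leavitt E := (gFam φ).lift

theorem gHom_gen (x : Gen F) : gHom φ (lgen F x) = φ.symm (lgen F x) := by
  cases x with
  | vert v => exact (gFam φ).lift_vert v
  | edge e => exact (gFam φ).lift_edge e
  | ghost e => exact (gFam φ).lift_ghost e

theorem gHom_LZ {x : LU F} (hx : x ∈ LZ F) : ∀ h : x ∈ Leavitt F,
    gHom φ ⟨x, h⟩ = φ.symm ⟨x, h⟩ := by
  unfold LZ at hx
  induction hx using NonUnitalSubring.closure_induction with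
  | mem x hx =>
    obtain ⟨y, rfl⟩ := hx
    intro h
    exact gHom_gen φ y
  | zero =>
    intro h
    have : (⟨0, h⟩ : Leavitt F) = 0 := rfl
    rw [this, map_zero, map_zero]
  | add x y hx hy ihx ihy =>
    intro h
    have h1 := LZ_le_L hx
    have h2 := LZ_le_L hy
    have : (⟨x + y, h⟩ : Leavitt F) = ⟨x, h1⟩ + ⟨y, h2⟩ := rfl
    rw [this, map_add, map_add, ihx h1, ihy h2]
  | neg x hx ih =>
    intro h
    have h1 := LZ_le_L hx
    have e1 : (⟨-x, h⟩ : Leavitt F) + ⟨x, h1⟩ = 0 := Subtype.ext (neg_add_cancel x)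
    have e2 : gHom φ ⟨-x, h⟩ + gHom φ ⟨x, h1⟩ = 0 := by rw [← map_add, e1, map_zero]
    have e3 : φ.symm ⟨-x, h⟩ + φ.symm ⟨x, h1⟩ = 0 := by rw [← map_add, e1, map_zero]
    rw [ih h1, ← e3] at e2
    exact add_right_cancel e2
  | mul x y hx hy ihx ihy =>
    intro h
    have h1 := LZ_le_L hx
    have h2 := LZ_le_L hy
    have : (⟨x * y, h⟩ : Leavitt F) = ⟨x, h1⟩ * ⟨y, h2⟩ := rfl
    rw [this, map_mul, map_mul, ihx h1, ihy h2]

theorem gHom_vertex [Countable E.E] [Countable F.E] (k : ℂ) (w : F.V) :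
    ∃ z, gHom φ z = φ.symm (k • lP w) := by
  obtain ⟨D, x', hZ, hs, hk⟩ := exists_vertex_pieces φ k w
  refine ⟨∑ d ∈ D, d • x' d, ?_⟩
  rw [map_sum, ← hs, Finset.smul_sum, map_sum]
  apply Finset.sum_congr rfl
  intro d hd
  rw [map_smul, ← hk d hd]
  unfold th
  rw [RingEquiv.symm_apply_apply]
  congr 1
  exact gHom_LZ φ (hZ d hd) (x' d).2

theorem gHom_surj [Countable E.E] [Countable F.E] (y : Leavitt E) : ∃ z, gHom φ z = y := by
  have key : ∀ x ∈ Leavitt F, ∀ h : x ∈ Leavitt F, ∃ z, gHom φ z = φ.symm ⟨x, h⟩ := by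
    intro x hx
    unfold Leavitt at hx
    induction hx using NonUnitalAlgebra.adjoin_induction with
    | mem x hx =>
      obtain ⟨y, rfl⟩ := hx
      intro h
      exact ⟨lgen F y, gHom_gen φ y⟩
    | add x y hx hy ihx ihy =>
      intro h
      obtain ⟨a, ha⟩ := ihx hx
      obtain ⟨b, hb⟩ := ihy hy
      refine ⟨a + b, ?_⟩
      have : (⟨x + y, h⟩ : Leavitt F) = ⟨x, hx⟩ + ⟨y, hy⟩ := rfl
      rw [this, map_add, map_add, ha, hb]
    | zero =>
      intro h
      have : (⟨0, h⟩ : Leavitt F) = 0 := rfl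
      exact ⟨0, by rw [this, map_zero, map_zero]⟩
    | mul x y hx hy ihx ihy =>
      intro h
      obtain ⟨a, ha⟩ := ihx hx
      obtain ⟨b, hb⟩ := ihy hy
      refine ⟨a * b, ?_⟩
      have : (⟨x * y, h⟩ : Leavitt F) = ⟨x, hx⟩ * ⟨y, hy⟩ := rfl
      rw [this, map_mul, map_mul, ha, hb]
    | smul c x hx ih =>
      intro h
      obtain ⟨a, ha⟩ := ih hx
      obtain ⟨W, hW⟩ := local_unit (x := x) hx
      choose z hz using fun w => gHom_vertex φ c w
      refine ⟨(∑ w ∈ W, z w) * a, ?_⟩
      have e1 : (⟨c • x, h⟩ : Leavitt F) = (∑ w ∈ W, c • (lP w : Leavitt F)) * ⟨x, hx⟩ := by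
        apply Subtype.ext
        show c • x = ((∑ w ∈ W, c • (lP w : Leavitt F) : Leavitt F) : LU F) * x
        rw [AddSubmonoidClass.coe_finsetSum]
        have := (hW W (Finset.Subset.refl _)).1
        conv_lhs => rw [← this, ← smul_mul_assoc, Finset.smul_sum]
        rfl
      rw [e1, map_mul, map_mul, map_sum, map_sum, ha]
      congr 1
      exact Finset.sum_congr rfl fun w _ => hz w
  obtain ⟨z, hz⟩ := key (φ y : LU F) (φ y).2 (φ y).2
  refine ⟨z, ?_⟩
  rw [hz]
  exact φ.symm_apply_apply y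

end bij

end Pool.Agent.GHT
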