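import Pool.Agent.GHT.Sub

/-! # Central families with roots are locally constant: the Laurent case -/

set_option linter.unusedSectionVars false

namespace Pool.Agent.GHT

variable {G : DGraph}

theorem VV_gP {w : LU G} (hw : w ∈ VV G) (v : G.V) : ∃ κ : ℂ, w * gP G v = κ • gP G v := by
  unfold VV at hw
  induction hw using Submodule.span_induction with
  | mem x hx =>
    obtain ⟨u, rfl⟩ := hx
    by_cases h : u = v
    · subst h; exact ⟨1, by rw [gPP, one_smul]⟩
    · exact ⟨0, by rw [gPPo G h, zero_smul]⟩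
  | zero => exact ⟨0, by rw [zero_mul, zero_smul]⟩
  | add x y _ _ hx hy =>
    obtain ⟨a, ha⟩ := hx
    obtain ⟨b, hb⟩ := hy
    exact ⟨a + b, by rw [add_mul, ha, hb, add_smul]⟩
  | smul c x _ hx =>
    obtain ⟨a, ha⟩ := hx
    exact ⟨c * a, by rw [smul_mul_assoc, ha, smul_smul]⟩

theorem SS_expand {N : Submodule ℂ (LU G)} {x : LU G} (hx : x ∈ SS G * N) :
    ∃ A : Finset G.E, ∀ B, A ⊆ B → x = ∑ e ∈ B, gS G e * (gT G e * x) := by
  classical
  induction hx using Submodule.mul_induction_on' with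
  | mem_mul_mem m hm n hn =>
    unfold SS at hm
    induction hm using Submodule.span_induction with
    | mem x hx =>
      obtain ⟨f, rfl⟩ := hx
      refine ⟨{f}, fun B hB => ?_⟩
      rw [Finset.sum_eq_single f]
      · rw [← mul_assoc (gT G f), gTS, ← mul_assoc, gSP]
      · intro e _ hef
        rw [← mul_assoc (gT G e), gTSo G hef, zero_mul, mul_zero]
      · intro h; exact absurd (hB (Finset.mem_singleton_self f)) h
    | zero => exact ⟨∅, fun B _ => by simp⟩
    | add x y _ _ hx hy =>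
      obtain ⟨A, hA⟩ := hx
      obtain ⟨A', hA'⟩ := hy
      refine ⟨A ∪ A', fun B hB => ?_⟩
      have h1 := hA B (Finset.union_subset_left hB)
      have h2 := hA' B (Finset.union_subset_right hB)
      conv_lhs => rw [add_mul, h1, h2, ← Finset.sum_add_distrib]
      apply Finset.sum_congr rfl
      intro e _
      noncomm_ring
    | smul c x _ hx =>
      obtain ⟨A, hA⟩ := hx
      refine ⟨A, fun B hB => ?_⟩
      conv_lhs => rw [smul_mul_assoc, hA B hB, Finset.smul_sum]
      apply Finset.sum_congr rfl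
      intro e _
      rw [smul_mul_assoc, mul_smul_comm, mul_smul_comm]
  | add x _ y _ hx hy =>
    obtain ⟨A, hA⟩ := hx
    obtain ⟨A', hA'⟩ := hy
    refine ⟨A ∪ A', fun B hB => ?_⟩
    have h1 := hA B (Finset.union_subset_left hB)
    have h2 := hA' B (Finset.union_subset_right hB)
    conv_lhs => rw [h1, h2, ← Finset.sum_add_distrib]
    apply Finset.sum_congr rfl
    intro e _
    noncomm_ring

theorem TT_expand {N : Submodule ℂ (LU G)} {x : LU G} (hx : x ∈ N * TT G) :
    ∃ A : Finset G.E, ∀ B, A ⊆ B → x = ∑ e ∈ B, (x * gS G e) * gT G e := by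
  classical
  induction hx using Submodule.mul_induction_on' with
  | mem_mul_mem n hn m hm =>
    unfold TT at hm
    induction hm using Submodule.span_induction with
    | mem x hx =>
      obtain ⟨f, rfl⟩ := hx
      refine ⟨{f}, fun B hB => ?_⟩
      rw [Finset.sum_eq_single f]
      · rw [mul_assoc n, gTS, mul_assoc, gPT]
      · intro e _ hef
        rw [mul_assoc n, gTSo G (Ne.symm hef), mul_zero, zero_mul]
      · intro h; exact absurd (hB (Finset.mem_singleton_self f)) h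
    | zero => exact ⟨∅, fun B _ => by simp⟩
    | add x y _ _ hx hy =>
      obtain ⟨A, hA⟩ := hx
      obtain ⟨A', hA'⟩ := hy
      refine ⟨A ∪ A', fun B hB => ?_⟩
      have h1 := hA B (Finset.union_subset_left hB)
      have h2 := hA' B (Finset.union_subset_right hB)
      conv_lhs => rw [mul_add, h1, h2, ← Finset.sum_add_distrib]
      apply Finset.sum_congr rfl
      intro e _
      noncomm_ring
    | smul c x _ hx =>
      obtain ⟨A, hA⟩ := hx
      refine ⟨A, fun B hB => ?_⟩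
      conv_lhs => rw [mul_smul_comm, hA B hB, Finset.smul_sum]
      apply Finset.sum_congr rfl
      intro e _
      rw [mul_smul_comm, smul_mul_assoc, smul_mul_assoc]
  | add x _ y _ hx hy =>
    obtain ⟨A, hA⟩ := hx
    obtain ⟨A', hA'⟩ := hy
    refine ⟨A ∪ A', fun B hB => ?_⟩
    have h1 := hA B (Finset.union_subset_left hB)
    have h2 := hA' B (Finset.union_subset_right hB)
    conv_lhs => rw [h1, h2, ← Finset.sum_add_distrib]
    apply Finset.sum_congr rfl
    intro e _
    noncomm_ring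

/-- A nonzero combination of real paths of length `a` ending in `v` has a left dual. -/
theorem top_dual (a : ℕ) : ∀ {x : LU G}, x ∈ QQ G a 0 → ∀ {v : G.V}, x * gP G v = x → x ≠ 0 →
    ∃ b ∈ TT G ^ a, ∃ κ : ℂ, κ ≠ 0 ∧ b * x = κ • gP G v := by
  induction a with
  | zero =>
    intro x hx v hxv hx0
    unfold QQ at hx
    rw [pow_zero, pow_zero, one_mul, mul_one] at hx
    obtain ⟨κ, hκ⟩ := VV_gP hx v
    rw [hxv] at hκ
    refine ⟨1, by rw [pow_zero]; exact Submodule.one_le.1 le_rfl, κ, ?_, by rw [one_mul, hκ]⟩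
    rintro rfl
    exact hx0 (by rw [hκ, zero_smul])
  | succ a ih =>
    intro x hx v hxv hx0
    rw [← SS_QQ] at hx
    obtain ⟨A, hA⟩ := SS_expand hx
    have h1 := hA A (Finset.Subset.refl _)
    obtain ⟨e, he⟩ : ∃ e, gT G e * x ≠ 0 := by
      by_contra hcon
      push Not at hcon
      apply hx0
      rw [h1]
      exact Finset.sum_eq_zero fun e _ => by rw [hcon e, mul_zero]
    have h2 : gT G e * x ∈ QQ G a 0 := by
      apply TT_QQ_succ a 0
      rw [← SS_QQ]
      exact Submodule.mul_mem_mul (mem_TT e) hx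
    obtain ⟨b, hb, κ, hκ, hbx⟩ := ih h2 (by rw [mul_assoc, hxv]) he
    refine ⟨b * gT G e, ?_, κ, hκ, by rw [mul_assoc, hbx]⟩
    rw [pow_succ]
    exact Submodule.mul_mem_mul hb (mem_TT e)

/-- Central families (elements of the centroid). -/
structure Cen (G : DGraph) where
  z : G.V → LU G
  mem : ∀ v, z v ∈ Leavitt G
  Pz : ∀ v, gP G v * z v = z v
  zP : ∀ v, z v * gP G v = z v
  comm : ∀ x ∈ Leavitt G, ∀ v w, z v * x * gP G w = gP G v * x * z w

theorem gP_mem (v : G.V) : gP G v ∈ Leavitt G :=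
  NonUnitalAlgebra.subset_adjoin ℂ ⟨Gen.vert v, rfl⟩
theorem gS_mem (e : G.E) : gS G e ∈ Leavitt G :=
  NonUnitalAlgebra.subset_adjoin ℂ ⟨Gen.edge e, rfl⟩
theorem gT_mem (e : G.E) : gT G e ∈ Leavitt G :=
  NonUnitalAlgebra.subset_adjoin ℂ ⟨Gen.ghost e, rfl⟩

theorem span_le_L {ι : Type} {a : ι → LU G} (h : ∀ i, a i ∈ Leavitt G) {x : LU G}
    (hx : x ∈ Submodule.span ℂ (Set.range a)) : x ∈ Leavitt G := by
  induction hx using Submodule.span_induction with
  | mem x hx => obtain ⟨i, rfl⟩ := hx; exact h i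
  | zero => exact zero_mem _
  | add x y _ _ hx hy => exact add_mem hx hy
  | smul c x _ hx => exact SMulMemClass.smul_mem c hx

theorem mul_le_L {M N : Submodule ℂ (LU G)} (hM : ∀ x ∈ M, x ∈ Leavitt G)
    (hN : ∀ x ∈ N, x ∈ Leavitt G) : ∀ x ∈ M * N, x ∈ Leavitt G := by
  intro x hx
  induction hx using Submodule.mul_induction_on' with
  | mem_mul_mem m hm n hn => exact mul_mem (hM m hm) (hN n hn)
  | add x _ y _ hx hy => exact add_mem hx hy

theorem TT_le_L : ∀ x ∈ TT G, x ∈ Leavitt G := fun _ hx => span_le_L (fun e => gT_mem e) hx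
theorem SS_le_L : ∀ x ∈ SS G, x ∈ Leavitt G := fun _ hx => span_le_L (fun e => gS_mem e) hx
theorem VV_le_L : ∀ x ∈ VV G, x ∈ Leavitt G := fun _ hx => span_le_L (fun e => gP_mem e) hx

theorem TTpow_le_L (n : ℕ) : ∀ x ∈ TT G ^ (n + 1), x ∈ Leavitt G := by
  induction n with
  | zero => rw [zero_add, pow_one]; exact TT_le_L
  | succ n ih => rw [pow_succ]; exact mul_le_L ih TT_le_L

theorem QQ0_le_L (n : ℕ) : ∀ x ∈ QQ G n 0, x ∈ Leavitt G := by
  induction n with
  | zero => unfold QQ; rw [pow_zero, pow_zero, one_mul, mul_one]; exact VV_le_L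
  | succ n ih => rw [← SS_QQ]; exact mul_le_L SS_le_L ih

namespace Cen

variable (ζ : Cen G)

theorem comm' {v : G.V} {x : LU G} (hx : x ∈ Leavitt G) (h1 : gP G v * x = x)
    (h2 : x * gP G v = x) : ζ.z v * x = x * ζ.z v := by
  have := ζ.comm x hx v v
  rw [mul_assoc, h2, h1] at this
  exact this

theorem zS (e : G.E) : ζ.z (G.s e) * gS G e = gS G e * ζ.z (G.r e) := by
  have := ζ.comm _ (gS_mem e) (G.s e) (G.r e)
  rwa [mul_assoc, gSP, gPS] at this

theorem Tz (e : G.E) : gT G e * ζ.z (G.s e) = ζ.z (G.r e) * gT G e := by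
  have := ζ.comm _ (gT_mem e) (G.r e) (G.s e)
  rw [mul_assoc, gTP, gPT] at this
  exact this.symm

theorem TzS (e : G.E) : gT G e * ζ.z (G.s e) * gS G e = ζ.z (G.r e) := by
  rw [mul_assoc, ζ.zS, ← mul_assoc, gTS, ζ.Pz]

end Cen

/-- The top coefficient of a central family is invertible. -/
theorem top_inv (ζ : Cen G) (v : G.V) (n : ℕ) {f g : LU G} (hf : f ∈ QQ G (n + 1) 0)
    (hg : g ∈ Fil G n) (hfg : ζ.z v = f + g) (hPf : gP G v * f = f) (hfP : f * gP G v = f)
    (hf0 : f ≠ 0) :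
    ∃ a ∈ TT G ^ (n + 1), ∃ κ : ℂ, κ ≠ 0 ∧ a * f = κ • gP G v ∧ f * a = κ • gP G v ∧
      gP G v * a = a ∧ a * gP G v = a := by
  obtain ⟨b, hb, κ, hκ, hbf⟩ := top_dual (n + 1) hf hfP hf0
  set a := gP G v * b * gP G v with ha
  have haT : a ∈ TT G ^ (n + 1) := by
    have h1 : gP G v * b ∈ TT G ^ (n + 1) := by
      rw [pow_succ'] at hb ⊢
      have : gP G v * b ∈ VV G * (TT G * TT G ^ n) := Submodule.mul_mem_mul (mem_VV v) hb
      rw [← mul_assoc] at this
      exact mml VV_TT this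
    rw [pow_succ] at h1 ⊢
    have : a ∈ TT G ^ n * TT G * VV G := Submodule.mul_mem_mul h1 (mem_VV v)
    rw [mul_assoc] at this
    exact mmr TT_VV this
  have haL : a ∈ Leavitt G := TTpow_le_L n a haT
  have hPa : gP G v * a = a := by rw [ha, ← mul_assoc, ← mul_assoc, gPP]
  have haP : a * gP G v = a := by rw [ha, mul_assoc, gPP]
  have haf : a * f = κ • gP G v := by
    rw [ha, mul_assoc, hPf, mul_assoc, hbf, mul_smul_comm, gPP]
  refine ⟨a, haT, κ, hκ, haf, ?_, hPa, haP⟩
  have hc := ζ.comm' haL hPa haP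
  rw [hfg, add_mul, mul_add] at hc
  have hfE : f ∈ Eg G ((n : ℤ) + 1) := by
    have := QQ_le_Eg (n + 1) 0 hf
    simpa using this
  have haE : a ∈ Eg G (-((n : ℤ) + 1)) := by
    have := TTpow_le_Eg (n + 1) haT
    simpa using this
  have h1 : f * a - a * f ∈ Eg G 0 := by
    apply sub_mem
    · have := Eg_mul hfE haE
      rwa [add_neg_cancel] at this
    · have := Eg_mul haE hfE
      rwa [neg_add_cancel] at this
  have h2 : f * a - a * f ∈ Fil G (-1) := by
    have e : f * a - a * f = a * g - g * a := by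
      have := hc
      rw [sub_eq_sub_iff_add_eq_add, add_comm (a * g)]
      rw [this]
    rw [e]
    have haF : a ∈ Fil G (-((n : ℤ) + 1)) := Eg_le_Fil le_rfl haE
    apply sub_mem
    · have := Fil_mul haF hg
      have e2 : -((n : ℤ) + 1) + n = -1 := by ring
      rwa [e2] at this
    · have := Fil_mul hg haF
      have e2 : (n : ℤ) + -((n : ℤ) + 1) = -1 := by ring
      rwa [e2] at this
  have h3 := Eg_Fil (by norm_num) h1 h2
  rw [sub_eq_zero.1 h3, haf]

/-- powers of mutually inverse corner elements -/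
theorem pow_inv_corner {p a f : LU G} {κ : ℂ} (hp : p * p = p) (haf : a * f = κ • p)
    (hfp : f * p = f) (hpf : p * f = f) (n : ℕ) :
    a ^ (n + 1) * f ^ (n + 1) = κ ^ (n + 1) • p := by
  induction n with
  | zero => simpa using haf
  | succ n ih =>
    calc a ^ (n + 1 + 1) * f ^ (n + 1 + 1) = a ^ (n + 1) * (a * f) * f ^ (n + 1) := by
          rw [pow_succ a, pow_succ' f]; noncomm_ring
      _ = κ • (a ^ (n + 1) * (p * f ^ (n + 1))) := by
          rw [haf, mul_smul_comm, smul_mul_assoc, mul_assoc]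
      _ = κ • (a ^ (n + 1) * f ^ (n + 1)) := by
          rw [pow_succ' f, ← mul_assoc p, hpf]
      _ = κ ^ (n + 1 + 1) • p := by rw [ih, smul_smul, ← pow_succ']

variable (G) in
/-- monomials with `min a b ≤ n` -/
noncomputable def MM (n : ℕ) : Submodule ℂ (LU G) :=
  ⨆ a, ⨆ b, ⨆ _ : min a b ≤ n, QQ G a b

theorem QQ_le_MM {a b n : ℕ} (h : min a b ≤ n) : QQ G a b ≤ MM G n :=
  le_iSup_of_le a (le_iSup₂_of_le b h le_rfl)

theorem MM_mono {m n : ℕ} (h : m ≤ n) : MM G m ≤ MM G n :=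
  iSup_le fun _ => iSup₂_le fun _ hd => QQ_le_MM (hd.trans h)

/-- Every element of `UU` lies in some `MM n`. -/
theorem UU_MM {x : LU G} (hx : x ∈ UU G) : ∃ n, x ∈ MM G n := by
  have h : UU G = ⨆ n, MM G n := by
    apply le_antisymm
    · exact iSup_le fun a => iSup_le fun b => (QQ_le_MM le_rfl).trans (le_iSup _ (min a b))
    · exact iSup_le fun n => iSup_le fun a => iSup₂_le fun b _ => QQ_le_UU a b
  rw [h] at hx
  have hd : Directed (· ≤ ·) (MM G) := fun m n =>
    ⟨max m n, MM_mono (le_max_left _ _), MM_mono (le_max_right _ _)⟩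
  exact (Submodule.mem_iSup_of_directed _ hd).1 hx

theorem TT_MM_SS (n : ℕ) : TT G * MM G n * SS G ≤ MM G (n - 1) := by
  unfold MM
  rw [Submodule.mul_iSup, Submodule.iSup_mul]
  apply iSup_le; intro a
  rw [Submodule.mul_iSup, Submodule.iSup_mul]
  apply iSup_le; intro b
  rw [Submodule.mul_iSup, Submodule.iSup_mul]
  apply iSup_le; intro hab
  rw [← MM]
  cases a with
  | zero =>
    cases b with
    | zero =>
      -- TT * VV * SS ≤ VV
      have h1 : TT G * QQ G 0 0 ≤ QQ G 0 1 := TT_QQ_zero 0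
      exact (mml h1).trans ((QQ_SS_succ 0 0).trans (QQ_le_MM (by simp)))
    | succ b =>
      have h1 : TT G * QQ G 0 (b + 1) ≤ QQ G 0 (b + 2) := TT_QQ_zero (b + 1)
      exact (mml h1).trans ((QQ_SS_succ 0 (b + 1)).trans (QQ_le_MM (by simp)))
  | succ a =>
    refine (mml (TT_QQ_succ a b)).trans ?_
    cases b with
    | zero => exact (QQ_SS_zero a).trans (QQ_le_MM (by simp))
    | succ b =>
      refine (QQ_SS_succ a b).trans (QQ_le_MM ?_)
      omega

theorem TT_MM_SS_pow (j : ℕ) : ∀ n, TT G ^ j * MM G n * SS G ^ j ≤ MM G (n - j) := by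
  induction j with
  | zero => intro n; rw [pow_zero, pow_zero, one_mul, mul_one]; exact le_rfl
  | succ j ih =>
    intro n
    have e : TT G ^ (j + 1) * MM G n * SS G ^ (j + 1) =
        TT G ^ j * (TT G * MM G n * SS G) * SS G ^ j := by
      rw [pow_succ, pow_succ']
      simp only [mul_assoc]
    rw [e]
    refine (mml (mmr (TT_MM_SS n))).trans ((ih (n - 1)).trans (MM_mono ?_))
    omega

/-- Laurent type with real degree at most `n`. -/
noncomputable def LL (G : DGraph) (n : ℕ) : Submodule ℂ (LU G) :=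
  (⨆ a, ⨆ _ : a ≤ n, QQ G a 0) ⊔ ⨆ b, QQ G 0 b

theorem QQ_le_LL {a n : ℕ} (h : a ≤ n) : QQ G a 0 ≤ LL G n := by
  have h1 : QQ G a 0 ≤ ⨆ a, ⨆ _ : a ≤ n, QQ G a 0 := le_iSup₂_of_le a h le_rfl
  exact le_sup_of_le_left h1

theorem QQ_le_LL' {b n : ℕ} : QQ G 0 b ≤ LL G n := by
  have h1 : QQ G 0 b ≤ ⨆ b, QQ G 0 b := le_iSup (fun b => QQ G 0 b) b
  exact le_sup_of_le_right h1

theorem LL_le {n : ℕ} {N : Submodule ℂ (LU G)} (h1 : ∀ a, a ≤ n → QQ G a 0 ≤ N)
    (h2 : ∀ b, QQ G 0 b ≤ N) : LL G n ≤ N := by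
  unfold LL
  exact sup_le (iSup₂_le h1) (iSup_le h2)

theorem LL_mono {m n : ℕ} (h : m ≤ n) : LL G m ≤ LL G n :=
  LL_le (fun _ ha => QQ_le_LL (ha.trans h)) (fun _ => QQ_le_LL')

theorem MM_zero_le : MM G 0 ≤ ⨆ n, LL G n := by
  refine iSup_le fun a => iSup₂_le fun b hab => ?_
  rcases Nat.eq_zero_or_pos b with hb | hb
  · subst hb
    have h0 : QQ G a 0 ≤ LL G a := QQ_le_LL le_rfl
    have h1 : LL G a ≤ ⨆ n, LL G n := le_iSup (LL G) a
    exact h0.trans h1
  · have ha : a = 0 := by omega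
    subst ha
    have h0 : QQ G 0 b ≤ LL G 0 := QQ_le_LL'
    have h1 : LL G 0 ≤ ⨆ n, LL G n := le_iSup (LL G) 0
    exact h0.trans h1

theorem MM_zero_LL {x : LU G} (hx : x ∈ MM G 0) : ∃ n, x ∈ LL G n := by
  have hx' := MM_zero_le hx
  have hd : Directed (· ≤ ·) (LL G) := fun m n =>
    ⟨max m n, LL_mono (le_max_left _ _), LL_mono (le_max_right _ _)⟩
  exact (Submodule.mem_iSup_of_directed _ hd).1 hx'

theorem LL_le_Fil (n : ℕ) : LL G n ≤ Fil G n := by
  refine LL_le (fun a ha => ?_) (fun b => ?_)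
  · exact (QQ_le_Eg a 0).trans (Eg_le_Fil (by push_cast; omega))
  · exact (QQ_le_Eg 0 b).trans (Eg_le_Fil (by push_cast; omega))

theorem LL_succ (n : ℕ) : LL G (n + 1) ≤ QQ G (n + 1) 0 ⊔ LL G n := by
  refine LL_le (fun a ha => ?_) (fun b => ?_)
  · rcases Nat.lt_or_ge n a with h | h
    · have : a = n + 1 := by omega
      subst this
      exact le_sup_left
    · have h1 : QQ G a 0 ≤ LL G n := QQ_le_LL h
      exact h1.trans le_sup_right
  · have h1 : QQ G 0 b ≤ LL G n := QQ_le_LL'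
    exact h1.trans le_sup_right

theorem corner_LL (v : G.V) (n : ℕ) {x : LU G} (hx : x ∈ LL G n) :
    gP G v * x * gP G v ∈ LL G n := by
  -- the submodule of all `x` with `p x p ∈ LL n`
  let N : Submodule ℂ (LU G) := (LL G n).comap
    ((LinearMap.mulRight ℂ (gP G v)).comp (LinearMap.mulLeft ℂ (gP G v)))
  have h : LL G n ≤ N := by
    refine LL_le (fun a ha y hy => ?_) (fun b y hy => ?_)
    · show gP G v * y * gP G v ∈ LL G n
      have h1 : gP G v * y * gP G v ∈ QQ G a 0 :=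
        ((mml (VV_QQ a 0)).trans (QQ_VV a 0))
          (Submodule.mul_mem_mul (Submodule.mul_mem_mul (mem_VV v) hy) (mem_VV v))
      exact QQ_le_LL ha h1
    · show gP G v * y * gP G v ∈ LL G n
      have h1 : gP G v * y * gP G v ∈ QQ G 0 b :=
        ((mml (VV_QQ 0 b)).trans (QQ_VV 0 b))
          (Submodule.mul_mem_mul (Submodule.mul_mem_mul (mem_VV v) hy) (mem_VV v))
      exact QQ_le_LL' h1
  exact h hx

theorem corner_QQ (v : G.V) (a b : ℕ) {x : LU G} (hx : x ∈ QQ G a b) :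
    gP G v * x * gP G v ∈ QQ G a b :=
  ((mml (VV_QQ a b)).trans (QQ_VV a b))
    (Submodule.mul_mem_mul (Submodule.mul_mem_mul (mem_VV v) hx) (mem_VV v))

/-- Splitting off the top part in the corner. -/
theorem LL_split (v : G.V) (n : ℕ) {x : LU G} (hx : x ∈ LL G (n + 1)) (h1 : gP G v * x = x)
    (h2 : x * gP G v = x) : ∃ f g, f ∈ QQ G (n + 1) 0 ∧ g ∈ LL G n ∧ x = f + g ∧
      gP G v * f = f ∧ f * gP G v = f := by
  obtain ⟨f, hf, g, hg, hfg⟩ := Submodule.mem_sup.1 (LL_succ n hx)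
  refine ⟨gP G v * f * gP G v, gP G v * g * gP G v, corner_QQ v _ _ hf, corner_LL v n hg, ?_,
    ?_, ?_⟩
  · rw [← add_mul, ← mul_add, hfg, h1, h2]
  · rw [← mul_assoc, ← mul_assoc, gPP]
  · rw [mul_assoc, gPP]

/-- Key step: the top real part vanishes for central families with roots. -/
theorem top_zero [Countable G.E] (ζ : Cen G) (v : G.V) (n : ℕ)
    (hdiv : ∃ ζ' : Cen G, (ζ'.z v) ^ (n + 2) = ζ.z v) {f g : LU G}
    (hf : f ∈ QQ G (n + 1) 0) (hg : g ∈ LL G n) (hfg : ζ.z v = f + g)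
    (hPf : gP G v * f = f) (hfP : f * gP G v = f) : f = 0 := by
  by_contra hf0
  obtain ⟨ζ', hζ'⟩ := hdiv
  have hgF : g ∈ Fil G n := LL_le_Fil n hg
  obtain ⟨a, haT, κ, hκ, haf, hfa, hPa, haP⟩ := top_inv ζ v n hf hgF hfg hPf hfP hf0
  have hPv : gP G v ≠ 0 := vert_ne_zero G v
  have hfE : f ∈ Eg G ((n : ℤ) + 1) := by
    have := QQ_le_Eg (n + 1) 0 hf
    simpa using this
  -- `y = ζ'.z v` is of Laurent type
  set y := ζ'.z v with hy
  obtain ⟨m, hm⟩ := UU_MM (leavitt_le_UU (ζ'.mem v))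
  have hfL : f ∈ Leavitt G := QQ0_le_L (n + 1) f hf
  have hyf : y * f = f * y := ζ'.comm' hfL hPf hfP
  have hypow : ∀ j : ℕ, y * f ^ j = f ^ j * y := by
    intro j
    induction j with
    | zero => simp
    | succ j ih => rw [pow_succ, ← mul_assoc, ih, mul_assoc, hyf, mul_assoc]
  have hyM : y ∈ MM G 0 := by
    have h1 : a ^ (m + 1) * y * f ^ (m + 1) = κ ^ (m + 1) • y := by
      rw [mul_assoc, hypow, ← mul_assoc, pow_inv_corner (gPP G v) haf hfP hPf, smul_mul_assoc,
        ζ'.Pz]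
    have hfS : f ∈ SS G ^ (n + 1) := by
      have : QQ G (n + 1) 0 ≤ SS G ^ (n + 1) := by
        unfold QQ
        rw [pow_zero, mul_one, pow_succ, mul_assoc]
        exact mmr SS_VV
      exact this hf
    have h2 : a ^ (m + 1) * y * f ^ (m + 1) ∈ MM G 0 := by
      have h3 : a ^ (m + 1) ∈ TT G ^ ((n + 1) * (m + 1)) := by
        rw [pow_mul]; exact Submodule.pow_mem_pow _ haT _
      have h4 : f ^ (m + 1) ∈ SS G ^ ((n + 1) * (m + 1)) := by
        rw [pow_mul]; exact Submodule.pow_mem_pow _ hfS _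
      have h5 := TT_MM_SS_pow ((n + 1) * (m + 1)) m
        (Submodule.mul_mem_mul (Submodule.mul_mem_mul h3 hm) h4)
      have e : m - (n + 1) * (m + 1) = 0 := by
        have : m ≤ (n + 1) * (m + 1) := by nlinarith
        omega
      rwa [e] at h5
    rw [h1] at h2
    have h3 := Submodule.smul_mem (MM G 0) (κ ^ (m + 1))⁻¹ h2
    rwa [smul_smul, inv_mul_cancel₀ (pow_ne_zero _ hκ), one_smul] at h3
  obtain ⟨N, hN⟩ := MM_zero_LL hyM
  -- minimal real degree
  classical
  have hex : ∃ N, y ∈ LL G N := ⟨N, hN⟩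
  set N0 := Nat.find hex with hN0
  have hN0mem : y ∈ LL G N0 := Nat.find_spec hex
  have hpowFil : ∀ (t : ℤ) (x : LU G), x ∈ Fil G t → ∀ k : ℕ, x ^ (k + 1) ∈ Fil G ((k + 1) * t) := by
    intro t x hx k
    induction k with
    | zero => simpa using hx
    | succ k ih =>
      rw [pow_succ]
      have := Fil_mul ih hx
      convert this using 2
      push_cast; ring
  have hzFil : ζ.z v ∈ Fil G ((n : ℤ) + 1) := by
    rw [hfg]
    exact add_mem (Eg_le_Fil le_rfl hfE) (Fil_mono (by omega) hgF)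
  rcases Nat.eq_zero_or_pos N0 with h0 | h0
  · -- `y ∈ Fil 0`
    have h1 : y ∈ Fil G 0 := by
      rw [h0] at hN0mem
      exact_mod_cast LL_le_Fil 0 hN0mem
    have h2 : ζ.z v ∈ Fil G 0 := by
      rw [← hζ']
      have := hpowFil 0 y h1 (n + 1)
      simpa using this
    have h3 : f ∈ Fil G n := by
      have : f = ζ.z v - g := by rw [hfg]; abel
      rw [this]
      exact sub_mem (Fil_mono (by omega) h2) hgF
    exact hf0 (Eg_Fil (by omega) hfE h3)
  · obtain ⟨N1, hN1⟩ : ∃ N1, N0 = N1 + 1 := ⟨N0 - 1, by omega⟩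
    rw [hN1] at hN0mem
    obtain ⟨f', g', hf', hg', hfg', hPf', hfP'⟩ := LL_split v N1 hN0mem (ζ'.Pz v) (ζ'.zP v)
    have hf'0 : f' ≠ 0 := by
      intro h
      rw [h, zero_add] at hfg'
      have : y ∈ LL G N1 := by rw [hfg']; exact hg'
      exact Nat.find_min hex (by omega) this
    have hg'F : g' ∈ Fil G N1 := LL_le_Fil N1 hg'
    obtain ⟨a', ha'T, κ', hκ', haf', -, -, -⟩ := top_inv ζ' v N1 hf' hg'F hfg' hPf' hfP' hf'0
    have hf'E : f' ∈ Eg G ((N1 : ℤ) + 1) := by
      have := QQ_le_Eg (N1 + 1) 0 hf'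
      simpa using this
    -- powers: `y ^ k - f' ^ k ∈ Fil (k * (N1 + 1) - 1)`
    have hp : ∀ k : ℕ, y ^ (k + 1) - f' ^ (k + 1) ∈ Fil G ((k + 1) * ((N1 : ℤ) + 1) - 1) := by
      intro k
      induction k with
      | zero =>
        have e : y ^ (0 + 1) - f' ^ (0 + 1) = g' := by
          rw [zero_add, pow_one, pow_one, hfg']; abel
        rw [e]
        exact Fil_mono (by push_cast; omega) hg'F
      | succ k ih =>
        have e : y ^ (k + 1 + 1) - f' ^ (k + 1 + 1) =
            (y ^ (k + 1) - f' ^ (k + 1)) * y + f' ^ (k + 1) * g' := by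
          rw [pow_succ y, pow_succ f']
          conv_rhs => rw [sub_mul, add_comm]
          have : f' ^ (k + 1) * g' = f' ^ (k + 1) * y - f' ^ (k + 1) * f' := by
            rw [← mul_sub]
            congr 1
            rw [hfg']; abel
          rw [this]
          abel
        rw [e]
        have hyF : y ∈ Fil G ((N1 : ℤ) + 1) := by
          have := LL_le_Fil _ hN0mem
          exact_mod_cast this
        apply add_mem
        · have := Fil_mul ih hyF
          refine Fil_mono ?_ this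
          push_cast; ring_nf; omega
        · have h1 : f' ^ (k + 1) ∈ Fil G ((k + 1) * ((N1 : ℤ) + 1)) :=
            hpowFil _ _ (Eg_le_Fil le_rfl hf'E) k
          have := Fil_mul h1 hg'F
          refine Fil_mono ?_ this
          push_cast; ring_nf; omega
    have h1 := hp (n + 1)
    rw [hζ'] at h1
    have h2 : f' ^ (n + 1 + 1) ∈ Fil G (((n : ℤ) + 2) * ((N1 : ℤ) + 1) - 1) := by
      have e : f' ^ (n + 1 + 1) = ζ.z v - (ζ.z v - f' ^ (n + 1 + 1)) := by abel
      rw [e]
      apply sub_mem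
      · refine Fil_mono ?_ hzFil
        nlinarith [Int.natCast_nonneg N1, Int.natCast_nonneg n]
      · refine Fil_mono ?_ h1
        push_cast; ring_nf; omega
    have h3 : f' ^ (n + 1 + 1) ∈ Eg G (((n : ℤ) + 2) * ((N1 : ℤ) + 1)) := by
      have := Eg_pow hf'E (n + 1 + 1)
      convert this using 2
      push_cast; ring
    have h4 := Eg_Fil (by omega) h3 h2
    have h5 := pow_inv_corner (gPP G v) haf' hfP' hPf' (n + 1)
    rw [h4, mul_zero] at h5
    have h6 : κ' ^ (n + 1 + 1) ≠ 0 := pow_ne_zero _ hκ'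
    rcases smul_eq_zero.1 h5.symm with h | h
    · exact h6 h
    · exact hPv h

end Pool.Agent.GHT
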