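import Pool.Agent.GHT.GS

/-! # Leavitt families: basic constructions -/

namespace Pool.Agent.GHT

namespace LFam

variable {G : DGraph} {B D : Type} [NonUnitalRing B] [NonUnitalRing D]

/-- The image of a Leavitt family under a ring homomorphism. -/
def map {F : Type} [FunLike F B D] [NonUnitalRingHomClass F B D] (Φ : LFam G B) (π : F) :
    LFam G D where
  P v := π (Φ.P v)
  S e := π (Φ.S e)
  T e := π (Φ.T e)
  PP v := by rw [← map_mul, Φ.PP]
  PPo v w h := by rw [← map_mul, Φ.PPo v w h, map_zero]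
  PS e := by rw [← map_mul, Φ.PS]
  SP e := by rw [← map_mul, Φ.SP]
  PT e := by rw [← map_mul, Φ.PT]
  TP e := by rw [← map_mul, Φ.TP]
  TS e := by rw [← map_mul, Φ.TS]
  TSo e f h := by rw [← map_mul, Φ.TSo e f h, map_zero]
  CK v h := by
    rw [Φ.CK v h, map_sum]
    exact Finset.sum_congr rfl (fun e _ => map_mul π _ _)

theorem TS_all (Φ : LFam G B) {e f : G.E} (h : G.s e ≠ G.s f) : Φ.T e * Φ.S f = 0 := by
  apply Φ.TSo
  rintro rfl
  exact h rfl

/-- Moving the vertices of a Leavitt family: `u v` and `w v` are mutually inverse equivalences of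
`P v` with the new idempotent `u v * w v`. -/
def move (Φ : LFam G B) (u w : G.V → B) (hwu : ∀ v, w v * u v = Φ.P v)
    (hwo : ∀ v v', v ≠ v' → w v * u v' = 0) (huP : ∀ v, u v * Φ.P v = u v)
    (hPw : ∀ v, Φ.P v * w v = w v) : LFam G B where
  P v := u v * w v
  S e := u (G.s e) * Φ.S e * w (G.r e)
  T e := u (G.r e) * Φ.T e * w (G.s e)
  PP v := by
    calc u v * w v * (u v * w v) = u v * (w v * u v) * w v := by noncomm_ring
      _ = u v * w v := by rw [hwu, huP]
  PPo v v' h := by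
    calc u v * w v * (u v' * w v') = u v * (w v * u v') * w v' := by noncomm_ring
      _ = 0 := by rw [hwo v v' h]; simp
  PS e := by
    calc u (G.s e) * w (G.s e) * (u (G.s e) * Φ.S e * w (G.r e))
        = u (G.s e) * (w (G.s e) * u (G.s e)) * Φ.S e * w (G.r e) := by noncomm_ring
      _ = _ := by rw [hwu, huP]
  SP e := by
    calc u (G.s e) * Φ.S e * w (G.r e) * (u (G.r e) * w (G.r e))
        = u (G.s e) * (Φ.S e * (w (G.r e) * u (G.r e))) * w (G.r e) := by noncomm_ring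
      _ = _ := by rw [hwu, Φ.SP]
  PT e := by
    calc u (G.r e) * w (G.r e) * (u (G.r e) * Φ.T e * w (G.s e))
        = u (G.r e) * (w (G.r e) * u (G.r e)) * Φ.T e * w (G.s e) := by noncomm_ring
      _ = _ := by rw [hwu, huP]
  TP e := by
    calc u (G.r e) * Φ.T e * w (G.s e) * (u (G.s e) * w (G.s e))
        = u (G.r e) * (Φ.T e * (w (G.s e) * u (G.s e))) * w (G.s e) := by noncomm_ring
      _ = _ := by rw [hwu, Φ.TP]
  TS e := by
    calc u (G.r e) * Φ.T e * w (G.s e) * (u (G.s e) * Φ.S e * w (G.r e))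
        = u (G.r e) * (Φ.T e * (w (G.s e) * u (G.s e)) * Φ.S e) * w (G.r e) := by noncomm_ring
      _ = _ := by rw [hwu, Φ.TP, Φ.TS, huP]
  TSo e f h := by
    by_cases hs : G.s e = G.s f
    · calc u (G.r e) * Φ.T e * w (G.s e) * (u (G.s f) * Φ.S f * w (G.r f))
          = u (G.r e) * (Φ.T e * (w (G.s e) * u (G.s f)) * Φ.S f) * w (G.r f) := by noncomm_ring
        _ = 0 := by rw [← hs, hwu, Φ.TP, Φ.TSo e f h]; simp
    · calc u (G.r e) * Φ.T e * w (G.s e) * (u (G.s f) * Φ.S f * w (G.r f))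
          = u (G.r e) * (Φ.T e * (w (G.s e) * u (G.s f)) * Φ.S f) * w (G.r f) := by noncomm_ring
        _ = 0 := by rw [hwo _ _ hs]; simp
  CK v h := by
    have h1 : ∑ e ∈ h.2.toFinset, u (G.s e) * Φ.S e * w (G.r e) *
        (u (G.r e) * Φ.T e * w (G.s e)) = ∑ e ∈ h.2.toFinset, u v * (Φ.S e * Φ.T e) * w v := by
      apply Finset.sum_congr rfl
      intro e he
      have hse : G.s e = v := by simpa [DGraph.out] using he
      rw [hse]
      calc u v * Φ.S e * w (G.r e) * (u (G.r e) * Φ.T e * w v)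
          = u v * (Φ.S e * (w (G.r e) * u (G.r e))) * Φ.T e * w v := by noncomm_ring
        _ = u v * (Φ.S e * Φ.T e) * w v := by rw [hwu, Φ.SP, mul_assoc (u v)]
    rw [h1, ← Finset.sum_mul, ← Finset.mul_sum, ← Φ.CK v h, huP]

end LFam

/-- Scaling the edges of a Leavitt family by invertible elements of the corners. -/
def LFam.scale {G : DGraph} {B : Type} [NonUnitalRing B] (Φ : LFam G B) (m n : G.E → B)
    (hnm : ∀ e, n e * m e = Φ.P (G.r e)) (hmn : ∀ e, m e * n e = Φ.P (G.r e))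
    (hmP : ∀ e, m e * Φ.P (G.r e) = m e) (hPn : ∀ e, Φ.P (G.r e) * n e = n e) : LFam G B where
  P := Φ.P
  S e := Φ.S e * m e
  T e := n e * Φ.T e
  PP := Φ.PP
  PPo := Φ.PPo
  PS e := by rw [← mul_assoc, Φ.PS]
  SP e := by rw [mul_assoc, hmP]
  PT e := by rw [← mul_assoc, hPn]
  TP e := by rw [mul_assoc, Φ.TP]
  TS e := by
    calc n e * Φ.T e * (Φ.S e * m e) = n e * (Φ.T e * Φ.S e) * m e := by noncomm_ring
      _ = n e * (m e * n e) * m e := by rw [Φ.TS, hmn]
      _ = (n e * m e) * (n e * m e) := by noncomm_ring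
      _ = _ := by rw [hnm, Φ.PP]
  TSo e f h := by
    calc n e * Φ.T e * (Φ.S f * m f) = n e * (Φ.T e * Φ.S f) * m f := by noncomm_ring
      _ = 0 := by rw [Φ.TSo e f h]; simp
  CK v h := by
    rw [Φ.CK v h]
    apply Finset.sum_congr rfl
    intro e _
    calc Φ.S e * Φ.T e = (Φ.S e * (m e * n e)) * Φ.T e := by rw [hmn, Φ.SP]
      _ = Φ.S e * m e * (n e * Φ.T e) := by noncomm_ring

/-- A Cuntz-Krieger family as a Leavitt family. -/
def CKFam.toL {G : DGraph} {B : Type} [NonUnitalCStarAlgebra B] (Ψ : CKFam G B) : LFam G B where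
  P := Ψ.p
  S := Ψ.s
  T e := star (Ψ.s e)
  PP := Ψ.p_mul
  PPo := Ψ.p_orth
  PS := Ψ.p_s
  SP e := by
    -- `(s p - s)* (s p - s) = 0`
    have h : star (Ψ.s e * Ψ.p (G.r e) - Ψ.s e) * (Ψ.s e * Ψ.p (G.r e) - Ψ.s e) = 0 := by
      rw [star_sub, star_mul, Ψ.p_star]
      have : (Ψ.p (G.r e) * star (Ψ.s e) - star (Ψ.s e)) * (Ψ.s e * Ψ.p (G.r e) - Ψ.s e) =
        Ψ.p (G.r e) * (star (Ψ.s e) * Ψ.s e) * Ψ.p (G.r e) - Ψ.p (G.r e) * (star (Ψ.s e) * Ψ.s e)
        - (star (Ψ.s e) * Ψ.s e) * Ψ.p (G.r e) + star (Ψ.s e) * Ψ.s e := by noncomm_ring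
      rw [this, Ψ.s_star_s, Ψ.p_mul, Ψ.p_mul]
      abel
    rw [CStarRing.star_mul_self_eq_zero_iff] at h
    exact sub_eq_zero.1 h
  PT e := by
    have h : star (Ψ.s e * Ψ.p (G.r e) - Ψ.s e) * (Ψ.s e * Ψ.p (G.r e) - Ψ.s e) = 0 := by
      rw [star_sub, star_mul, Ψ.p_star]
      have : (Ψ.p (G.r e) * star (Ψ.s e) - star (Ψ.s e)) * (Ψ.s e * Ψ.p (G.r e) - Ψ.s e) =
        Ψ.p (G.r e) * (star (Ψ.s e) * Ψ.s e) * Ψ.p (G.r e) - Ψ.p (G.r e) * (star (Ψ.s e) * Ψ.s e)
        - (star (Ψ.s e) * Ψ.s e) * Ψ.p (G.r e) + star (Ψ.s e) * Ψ.s e := by noncomm_ring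
      rw [this, Ψ.s_star_s, Ψ.p_mul, Ψ.p_mul]
      abel
    rw [CStarRing.star_mul_self_eq_zero_iff] at h
    have h' := sub_eq_zero.1 h
    have := congrArg star h'
    rwa [star_mul, Ψ.p_star] at this
  TP e := by
    have := congrArg star (Ψ.p_s e)
    rwa [star_mul, Ψ.p_star] at this
  TS := Ψ.s_star_s
  TSo := Ψ.s_orth
  CK := Ψ.ck

/-- A Leavitt family with self-adjoint `P` and `T = S*` as a Cuntz-Krieger family. -/
def LFam.toCK {G : DGraph} {B : Type} [NonUnitalCStarAlgebra B] (Φ : LFam G B)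
    (hP : ∀ v, star (Φ.P v) = Φ.P v) (hT : ∀ e, star (Φ.S e) = Φ.T e) : CKFam G B where
  p := Φ.P
  s := Φ.S
  p_star := hP
  p_mul := Φ.PP
  p_orth := Φ.PPo
  s_star_s e := by rw [hT, Φ.TS]
  s_orth e f h := by rw [hT, Φ.TSo e f h]
  p_s := Φ.PS
  ck v h := by
    rw [Φ.CK v h]
    exact Finset.sum_congr rfl (fun e _ => by rw [hT])

/-! Extension of a function on a countable type to `ℕ`. -/

/-- Extension by zero along the encoding. -/
noncomputable def extN {α : Type} [Encodable α] {B : Type} [Zero B] (f : α → B) (k : ℕ) : B :=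
  (Encodable.decode₂ α k).elim 0 f

theorem extN_encode {α : Type} [Encodable α] {B : Type} [Zero B] (f : α → B) (a : α) :
    extN f (Encodable.encode a) = f a := by
  unfold extN
  rw [Encodable.encodek₂]
  rfl

theorem extN_cases {α : Type} [Encodable α] {B : Type} [Zero B] (k : ℕ) :
    (∃ a : α, Encodable.encode a = k) ∨ ∀ f : α → B, extN f k = 0 := by
  unfold extN
  rcases h : Encodable.decode₂ α k with _ | a
  · right; intro f; rfl
  · left
    exact ⟨a, Encodable.mem_decode₂.1 h⟩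

theorem sum_extN {α : Type} [Encodable α] {B : Type} [AddCommMonoid B] (f : α → B)
    (s : Finset α) (hf : ∀ a, a ∉ s → f a = 0) (N : ℕ) (hN : ∀ a ∈ s, Encodable.encode a < N) :
    ∑ k ∈ Finset.range N, extN f k = ∑ a ∈ s, f a := by
  symm
  rw [← Finset.sum_map s ⟨Encodable.encode, Encodable.encode_injective⟩ (extN f) |>.trans
    (Finset.sum_congr rfl (fun a _ => extN_encode f a))]
  apply Finset.sum_subset
  · intro k hk
    rw [Finset.mem_map] at hk
    obtain ⟨a, ha, rfl⟩ := hk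
    exact Finset.mem_range.2 (hN a ha)
  · intro k _ hk
    rcases extN_cases (α := α) (B := B) k with ⟨a, rfl⟩ | h
    · rw [extN_encode]
      apply hf
      intro ha
      exact hk (Finset.mem_map.2 ⟨a, ha, rfl⟩)
    · exact h f

end Pool.Agent.GHT
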