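import Pool.Agent.GHT.RP

/-! # Gram-Schmidt for frames -/

namespace Pool.Agent.GHT

/-- A sequence of equivalences `U i : Q i → U i * W i` with orthogonal range idempotents. -/
structure Frame (B : Type) [NonUnitalCStarAlgebra B] where
  U : ℕ → B
  W : ℕ → B
  Q : ℕ → B
  WU : ∀ i, W i * U i = Q i
  WUo : ∀ i j, i ≠ j → W i * U j = 0
  UQ : ∀ i, U i * Q i = U i
  QW : ∀ i, Q i * W i = W i

namespace Frame

variable {B : Type} [NonUnitalCStarAlgebra B] (F : Frame B)

/-- Partial sums of the range idempotents. -/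
noncomputable def E (m : ℕ) : B := ∑ i ∈ Finset.range m, F.U i * F.W i

theorem E_U (m j : ℕ) (h : j < m) : F.E m * F.U j = F.U j := by
  unfold E
  rw [Finset.sum_mul, Finset.sum_eq_single j]
  · rw [mul_assoc, F.WU, F.UQ]
  · intro i _ hij
    rw [mul_assoc, F.WUo i j hij, mul_zero]
  · intro hj; exact absurd (Finset.mem_range.2 h) hj

theorem E_U' (m j : ℕ) (h : m ≤ j) : F.E m * F.U j = 0 := by
  unfold E
  rw [Finset.sum_mul]
  apply Finset.sum_eq_zero
  intro i hi
  rw [Finset.mem_range] at hi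
  rw [mul_assoc, F.WUo i j (by omega), mul_zero]

theorem W_E (m i : ℕ) (h : i < m) : F.W i * F.E m = F.W i := by
  unfold E
  rw [Finset.mul_sum, Finset.sum_eq_single i]
  · rw [← mul_assoc, F.WU, F.QW]
  · intro j _ hij
    rw [← mul_assoc, F.WUo i j (Ne.symm hij), zero_mul]
  · intro hj; exact absurd (Finset.mem_range.2 h) hj

theorem W_E' (m i : ℕ) (h : m ≤ i) : F.W i * F.E m = 0 := by
  unfold E
  rw [Finset.mul_sum]
  apply Finset.sum_eq_zero
  intro j hj
  rw [Finset.mem_range] at hj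
  rw [← mul_assoc, F.WUo i j (by omega), zero_mul]

theorem E_E (m n : ℕ) (h : m ≤ n) : F.E n * F.E m = F.E m := by
  conv_lhs => rw [E, E]
  rw [← E, Finset.mul_sum]
  unfold E
  apply Finset.sum_congr rfl
  intro i hi
  rw [Finset.mem_range] at hi
  rw [← mul_assoc]
  congr 1
  exact F.E_U n i (by omega)

theorem E_idem (m : ℕ) : F.E m * F.E m = F.E m := F.E_E m m le_rfl

/-- Range projections of the partial sums. -/
noncomputable def R (m : ℕ) : B := rp (F.E m)

theorem R_spec (m : ℕ) : IsRP (F.E m) (F.R m) := rp_spec (F.E_idem m)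

theorem R_U (m j : ℕ) (h : j < m) : F.R m * F.U j = F.U j := by
  rw [← F.E_U m j h, ← mul_assoc, (F.R_spec m).re]

theorem W_R' (m i : ℕ) (h : m ≤ i) : F.W i * F.R m = 0 := by
  rw [← (F.R_spec m).er, ← mul_assoc, F.W_E' m i h, zero_mul]

theorem R_R (m n : ℕ) (h : m ≤ n) : F.R n * F.R m = F.R m := by
  have h1 : F.R n * F.E m = F.E m := by
    rw [← F.E_E m n h, ← mul_assoc, (F.R_spec n).re]
  rw [← (F.R_spec m).er, ← mul_assoc, h1]

theorem R_R' (m n : ℕ) (h : m ≤ n) : F.R m * F.R n = F.R m := by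
  have := congrArg star (F.R_R m n h)
  rwa [star_mul, (F.R_spec m).sa, (F.R_spec n).sa] at this

theorem R_idem (m : ℕ) : F.R m * F.R m = F.R m := (F.R_spec m).mul_self

/-- differences of the range projections -/
noncomputable def p (k : ℕ) : B := F.R (k + 1) - F.R k

theorem W_p_lt (i k : ℕ) (h : k < i) : F.W i * F.p k = 0 := by
  unfold p
  rw [mul_sub, F.W_R' _ _ (by omega), F.W_R' _ _ (by omega), sub_zero]

theorem W_p_eq (i : ℕ) : F.W i * F.p i = F.W i * F.R (i + 1) := by
  unfold p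
  rw [mul_sub, F.W_R' i i le_rfl, sub_zero]

theorem R_p_le (n k : ℕ) (h : k < n) : F.R n * F.p k = F.p k := by
  unfold p
  rw [mul_sub, F.R_R _ _ (by omega), F.R_R _ _ (by omega)]

theorem R_p_gt (n k : ℕ) (h : n ≤ k) : F.R n * F.p k = 0 := by
  unfold p
  rw [mul_sub, F.R_R' _ _ (by omega), F.R_R' _ _ (by omega), sub_self]

variable (τ : ℕ → ℂ)

/-- The moved `U`. -/
noncomputable def GU (i : ℕ) : B := F.U i - ∑ k ∈ Finset.range i, τ k • (F.p k * F.U i)

/-- The moved `W`. -/
noncomputable def GW (i : ℕ) : B := (1 - τ i) • F.W i + τ i • (F.W i * F.R (i + 1))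

theorem W_GU_le (i j : ℕ) (h : j ≤ i) : F.W i * F.GU τ j = F.W i * F.U j := by
  unfold GU
  rw [mul_sub, Finset.mul_sum, Finset.sum_eq_zero, sub_zero]
  intro k hk
  rw [Finset.mem_range] at hk
  rw [mul_smul_comm, ← mul_assoc, F.W_p_lt i k (by omega), zero_mul, smul_zero]

theorem WR_GU_le (i j : ℕ) (h : j ≤ i) : F.W i * F.R (i + 1) * F.GU τ j = F.W i * F.U j := by
  unfold GU
  rw [mul_sub, Finset.mul_sum, Finset.sum_eq_zero, sub_zero, mul_assoc, F.R_U _ _ (by omega)]
  intro k hk
  rw [Finset.mem_range] at hk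
  rw [mul_smul_comm, ← mul_assoc, mul_assoc (F.W i), F.R_p_le _ _ (by omega),
    F.W_p_lt i k (by omega), zero_mul, smul_zero]

theorem GW_GU_self (i : ℕ) : F.GW τ i * F.GU τ i = F.Q i := by
  unfold GW
  rw [add_mul, smul_mul_assoc, smul_mul_assoc, F.W_GU_le τ i i le_rfl, F.WR_GU_le τ i i le_rfl,
    F.WU, ← add_smul, sub_add_cancel, one_smul]

theorem GW_GU_ne (hτ : ∀ n k, n < k → (1 - τ n) * τ k = 0) (i j : ℕ) (hij : i ≠ j) :
    F.GW τ i * F.GU τ j = 0 := by
  unfold GW
  rw [add_mul, smul_mul_assoc, smul_mul_assoc]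
  rcases lt_or_gt_of_ne hij with h | h
  · -- i < j
    have h1 : (1 - τ i) • (F.W i * F.GU τ j) =
        -(((1 - τ i) * τ i) • (F.W i * F.R (i + 1) * F.U j)) := by
      unfold GU
      rw [mul_sub, F.WUo i j hij, zero_sub, smul_neg, Finset.mul_sum, Finset.smul_sum,
        Finset.sum_eq_single i]
      · rw [mul_smul_comm, smul_smul, ← mul_assoc, F.W_p_eq]
      · intro k _ hki
        rw [mul_smul_comm, smul_smul]
        rcases lt_or_gt_of_ne hki with h' | h'
        · rw [← mul_assoc, F.W_p_lt i k h', zero_mul, smul_zero]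
        · rw [hτ i k h', zero_smul]
      · intro hi; exact absurd (Finset.mem_range.2 h) hi
    have h2 : F.W i * F.R (i + 1) * F.GU τ j =
        (1 - τ i) • (F.W i * F.R (i + 1) * F.U j) := by
      unfold GU
      rw [mul_sub, Finset.mul_sum, Finset.sum_eq_single i]
      · rw [mul_smul_comm, ← mul_assoc (F.W i * F.R (i + 1)), mul_assoc (F.W i) (F.R (i + 1)) (F.p i),
          F.R_p_le _ _ (by omega), F.W_p_eq, sub_smul, one_smul]
      · intro k _ hki
        rw [mul_smul_comm, ← mul_assoc (F.W i * F.R (i + 1)),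
          mul_assoc (F.W i) (F.R (i + 1)) (F.p k)]
        rcases lt_or_gt_of_ne hki with h' | h'
        · rw [F.R_p_le _ _ (by omega), F.W_p_lt i k h', zero_mul, smul_zero]
        · rw [F.R_p_gt _ _ (by omega), mul_zero, zero_mul, smul_zero]
      · intro hi; exact absurd (Finset.mem_range.2 h) hi
    rw [h1, h2, smul_smul, mul_comm (τ i), neg_add_cancel]
  · -- j < i
    rw [F.W_GU_le τ i j h.le, F.WR_GU_le τ i j h.le, F.WUo i j hij, smul_zero, smul_zero,
      add_zero]

theorem GU_Q (i : ℕ) : F.GU τ i * F.Q i = F.GU τ i := by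
  unfold GU
  rw [sub_mul, F.UQ, Finset.sum_mul]
  congr 1
  apply Finset.sum_congr rfl
  intro k _
  rw [smul_mul_assoc, mul_assoc, F.UQ]

theorem Q_GW (i : ℕ) : F.Q i * F.GW τ i = F.GW τ i := by
  unfold GW
  rw [mul_add, mul_smul_comm, mul_smul_comm, F.QW, ← mul_assoc, F.QW]

/-! Left units. -/

theorem unit_R {q : B} (hU : ∀ i, q * F.U i = F.U i) (m : ℕ) : q * F.R m = F.R m := by
  have h1 : q * F.E m = F.E m := by
    unfold E
    rw [Finset.mul_sum]
    apply Finset.sum_congr rfl
    intro i _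
    rw [← mul_assoc, hU]
  rw [← (F.R_spec m).er, ← mul_assoc, h1]

theorem R_unit {q : B} (hq : star q = q) (hU : ∀ i, q * F.U i = F.U i) (m : ℕ) :
    F.R m * q = F.R m := by
  have := congrArg star (F.unit_R hU m)
  rwa [star_mul, (F.R_spec m).sa, hq] at this

theorem unit_GU {q : B} (hU : ∀ i, q * F.U i = F.U i) (i : ℕ) :
    q * F.GU τ i = F.GU τ i := by
  unfold GU
  rw [mul_sub, hU, Finset.mul_sum]
  congr 1
  apply Finset.sum_congr rfl
  intro k _
  rw [mul_smul_comm, ← mul_assoc]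
  congr 2
  unfold p
  rw [mul_sub, F.unit_R hU, F.unit_R hU]

theorem GW_unit {q : B} (hq : star q = q) (hU : ∀ i, q * F.U i = F.U i)
    (hW : ∀ i, F.W i * q = F.W i) (i : ℕ) : F.GW τ i * q = F.GW τ i := by
  unfold GW
  rw [add_mul, smul_mul_assoc, smul_mul_assoc, hW, mul_assoc, F.R_unit hq hU]

/-! Completeness. -/

theorem GU_one_of (i : ℕ) (h : ∀ k, k < i → τ k = 1) : F.GU τ i = F.U i - F.R i * F.U i := by
  unfold GU
  congr 1
  have : ∀ n, n ≤ i → ∑ k ∈ Finset.range n, τ k • (F.p k * F.U i) =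
      F.R n * F.U i := by
    intro n
    induction n with
    | zero =>
      intro _
      have h0 : F.R 0 = 0 := by
        unfold R
        have : F.E 0 = 0 := by unfold E; simp
        rw [this, rp_zero]
      simp [h0]
    | succ n ih =>
      intro hn
      rw [Finset.sum_range_succ, ih (by omega), h n (by omega), one_smul]
      unfold p
      rw [sub_mul]
      abel
  exact this i le_rfl

theorem sum_GU_GW (hτ : ∀ n k, n < k → (1 - τ n) * τ k = 0) (N : ℕ)
    (hs : star (F.E N) = F.E N) :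
    ∑ i ∈ Finset.range N, F.GU τ i * F.GW τ i = F.E N := by
  set PP := ∑ i ∈ Finset.range N, F.GU τ i * F.GW τ i with hPi
  have hRN : F.R N = F.E N := rp_self (F.E_idem N) hs
  have h1 : ∀ j, j < N → PP * F.GU τ j = F.GU τ j := by
    intro j hj
    rw [hPi, Finset.sum_mul, Finset.sum_eq_single j]
    · rw [mul_assoc, F.GW_GU_self, F.GU_Q]
    · intro i _ hij
      rw [mul_assoc, F.GW_GU_ne τ hτ i j hij, mul_zero]
    · intro h; exact absurd (Finset.mem_range.2 hj) h
  have h2 : ∀ k, k < N → PP * (τ k • F.p k) = τ k • F.p k := by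
    intro k hk
    by_cases h0 : τ k = 0
    · rw [h0, zero_smul, mul_zero]
    · have h3 : ∀ l, l < k → τ l = 1 := by
        intro l hl
        have := hτ l k hl
        rcases mul_eq_zero.1 this with h | h
        · exact (sub_eq_zero.1 h).symm
        · exact absurd h h0
      have h4 : F.p k = F.GU τ k * (F.W k * F.R (k + 1)) := by
        rw [F.GU_one_of τ k h3]
        have e1 : F.E (k + 1) = F.E k + F.U k * F.W k := by
          unfold E; rw [Finset.sum_range_succ]
        have e2 : F.U k * F.W k = F.E (k + 1) - F.E k := by rw [e1]; abel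
        have e3 : (F.U k - F.R k * F.U k) * (F.W k * F.R (k + 1)) =
            (F.U k * F.W k) * F.R (k + 1) - F.R k * ((F.U k * F.W k) * F.R (k + 1)) := by
          noncomm_ring
        rw [e3, e2, sub_mul, (F.R_spec (k + 1)).er]
        have e4 : F.E k * F.R (k + 1) = F.R k * (F.E k * F.R (k + 1)) := by
          rw [← mul_assoc, (F.R_spec k).re]
        rw [mul_sub, F.R_R' k (k + 1) (by omega), ← e4]
        unfold p
        abel
      rw [mul_smul_comm]
      congr 1
      rw [h4, ← mul_assoc, h1 k hk]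
  have h3 : ∀ j, j < N → PP * F.U j = F.U j := by
    intro j hj
    have h5 : F.U j = F.GU τ j + ∑ k ∈ Finset.range j, τ k • (F.p k * F.U j) := by
      unfold GU; abel
    have h6 : PP * ∑ k ∈ Finset.range j, τ k • (F.p k * F.U j) =
        ∑ k ∈ Finset.range j, τ k • (F.p k * F.U j) := by
      rw [Finset.mul_sum]
      apply Finset.sum_congr rfl
      intro k hk
      rw [Finset.mem_range] at hk
      rw [← smul_mul_assoc, ← mul_assoc, h2 k (by omega)]
    conv_lhs => rw [h5]
    rw [mul_add, h1 j hj, h6]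
    exact h5.symm
  have h4 : PP * F.E N = F.E N := by
    conv_lhs => rw [E]
    rw [Finset.mul_sum]
    unfold E
    apply Finset.sum_congr rfl
    intro i hi
    rw [Finset.mem_range] at hi
    rw [← mul_assoc, h3 i hi]
  have h5 : PP * F.E N = PP := by
    conv_rhs => rw [hPi]
    conv_lhs => rw [hPi]
    rw [Finset.sum_mul]
    apply Finset.sum_congr rfl
    intro i hi
    rw [Finset.mem_range] at hi
    rw [mul_assoc]
    congr 1
    unfold GW
    rw [add_mul, smul_mul_assoc, smul_mul_assoc, F.W_E N i hi, mul_assoc, ← hRN,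
      F.R_R' _ _ (by omega)]
  rw [← h5, h4]

/-! Special values of the parameters. -/

theorem GU_zero (i : ℕ) : F.GU (fun _ => 0) i = F.U i := by
  unfold GU; simp

theorem GW_zero (i : ℕ) : F.GW (fun _ => 0) i = F.W i := by
  unfold GW; simp

theorem GU_one (i : ℕ) : F.GU (fun _ => 1) i = F.U i - F.R i * F.U i :=
  F.GU_one_of _ i (fun _ _ => rfl)

theorem GW_one (i : ℕ) : F.GW (fun _ => 1) i = F.W i * F.R (i + 1) := by
  unfold GW; simp

theorem GU_GW_one (k : ℕ) : F.GU (fun _ => 1) k * F.GW (fun _ => 1) k = F.p k := by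
  rw [F.GU_one, F.GW_one]
  have e1 : F.E (k + 1) = F.E k + F.U k * F.W k := by
    unfold E; rw [Finset.sum_range_succ]
  have e2 : F.U k * F.W k = F.E (k + 1) - F.E k := by rw [e1]; abel
  have e3 : (F.U k - F.R k * F.U k) * (F.W k * F.R (k + 1)) =
      (F.U k * F.W k) * F.R (k + 1) - F.R k * ((F.U k * F.W k) * F.R (k + 1)) := by
    noncomm_ring
  rw [e3, e2, sub_mul, (F.R_spec (k + 1)).er]
  have e4 : F.E k * F.R (k + 1) = F.R k * (F.E k * F.R (k + 1)) := by
    rw [← mul_assoc, (F.R_spec k).re]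
  rw [mul_sub, F.R_R' k (k + 1) (by omega), ← e4]
  unfold p
  abel

theorem p_star (k : ℕ) : star (F.p k) = F.p k := by
  unfold p
  rw [star_sub, (F.R_spec _).sa, (F.R_spec _).sa]

theorem E_star_of (h : ∀ i, star (F.U i * F.W i) = F.U i * F.W i) (m : ℕ) :
    star (F.E m) = F.E m := by
  unfold E
  rw [star_sum]
  exact Finset.sum_congr rfl (fun i _ => h i)

theorem R_of (h : ∀ i, star (F.U i * F.W i) = F.U i * F.W i) (m : ℕ) : F.R m = F.E m :=
  rp_self (F.E_idem m) (F.E_star_of h m)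

theorem GU_fix (h : ∀ i, star (F.U i * F.W i) = F.U i * F.W i) (i : ℕ) :
    F.GU (fun _ => 1) i = F.U i := by
  rw [F.GU_one, F.R_of h, F.E_U' i i le_rfl, sub_zero]

theorem GW_fix (h : ∀ i, star (F.U i * F.W i) = F.U i * F.W i) (i : ℕ) :
    F.GW (fun _ => 1) i = F.W i := by
  rw [F.GW_one, F.R_of h, F.W_E _ _ (by omega)]

/-! Naturality. -/

/-- The image of a frame. -/
def map {D : Type} [NonUnitalCStarAlgebra D] (π : B →⋆ₙₐ[ℂ] D) : Frame D where
  U i := π (F.U i)
  W i := π (F.W i)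
  Q i := π (F.Q i)
  WU i := by rw [← map_mul, F.WU]
  WUo i j h := by rw [← map_mul, F.WUo i j h, map_zero]
  UQ i := by rw [← map_mul, F.UQ]
  QW i := by rw [← map_mul, F.QW]

theorem map_E {D : Type} [NonUnitalCStarAlgebra D] (π : B →⋆ₙₐ[ℂ] D) (m : ℕ) :
    (F.map π).E m = π (F.E m) := by
  unfold E
  rw [map_sum]
  exact Finset.sum_congr rfl (fun i _ => (map_mul π _ _).symm)

theorem map_R {D : Type} [NonUnitalCStarAlgebra D] (π : B →⋆ₙₐ[ℂ] D) (m : ℕ) :
    (F.map π).R m = π (F.R m) := by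
  unfold R
  rw [map_E, map_rp π (F.E_idem m)]

theorem map_p {D : Type} [NonUnitalCStarAlgebra D] (π : B →⋆ₙₐ[ℂ] D) (m : ℕ) :
    (F.map π).p m = π (F.p m) := by
  unfold p
  rw [map_R, map_R, map_sub]

theorem map_GU {D : Type} [NonUnitalCStarAlgebra D] (π : B →⋆ₙₐ[ℂ] D) (i : ℕ) :
    (F.map π).GU τ i = π (F.GU τ i) := by
  unfold GU
  rw [map_sub, map_sum]
  congr 1
  apply Finset.sum_congr rfl
  intro k _
  rw [map_smul, map_mul, map_p]
  rfl

theorem map_GW {D : Type} [NonUnitalCStarAlgebra D] (π : B →⋆ₙₐ[ℂ] D) (i : ℕ) :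
    (F.map π).GW τ i = π (F.GW τ i) := by
  unfold GW
  rw [map_add, map_smul, map_smul, map_mul, map_R]
  rfl

/-! Continuity in the parameters. -/

theorem continuous_GU {X : Type} [TopologicalSpace X] (σ : X → ℕ → ℂ)
    (hσ : ∀ k, Continuous fun x => σ x k) (i : ℕ) : Continuous fun x => F.GU (σ x) i := by
  unfold GU
  apply Continuous.sub continuous_const
  apply continuous_finsetSum
  intro k _
  exact (hσ k).smul continuous_const

theorem continuous_GW {X : Type} [TopologicalSpace X] (σ : X → ℕ → ℂ)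
    (hσ : ∀ k, Continuous fun x => σ x k) (i : ℕ) : Continuous fun x => F.GW (σ x) i := by
  unfold GW
  exact ((continuous_const.sub (hσ i)).smul continuous_const).add
    ((hσ i).smul continuous_const)

end Frame

end Pool.Agent.GHT
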