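import Pool.Agent.GHT.Alg

/-! # Injectivity of the linearised isomorphism -/

set_option linter.unusedSectionVars false

namespace Pool.Agent.GHT

section HZ

variable {G : DGraph}

variable (G) in
/-- complex span of the integral elements of degree `d` -/
noncomputable def HZ (d : ℤ) : Submodule ℂ (LU G) :=
  Submodule.span ℂ {m | m ∈ LZ G ∧ m ∈ Eg G d}

theorem HZ_le_Eg (d : ℤ) : HZ G d ≤ Eg G d := Submodule.span_le.2 fun _ hm => hm.2

theorem HZ_le_L {d : ℤ} {x : LU G} (hx : x ∈ HZ G d) : x ∈ Leavitt G := by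
  unfold HZ at hx
  induction hx using Submodule.span_induction with
  | mem x hx => exact LZ_le_L hx.1
  | zero => exact zero_mem _
  | add x y _ _ hx hy => exact add_mem hx hy
  | smul c x _ hx => exact SMulMemClass.smul_mem c hx

theorem HZ_mul (s t : ℤ) : HZ G s * HZ G t ≤ HZ G (s + t) := by
  unfold HZ
  rw [Submodule.span_mul_span, Submodule.span_le]
  rintro _ ⟨a, ha, b, hb, rfl⟩
  exact Submodule.subset_span ⟨mul_mem ha.1 hb.1, Eg_mul ha.2 hb.2⟩

theorem VV_HZ : VV G ≤ HZ G 0 := by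
  unfold VV
  rw [Submodule.span_le]
  rintro _ ⟨v, rfl⟩
  exact Submodule.subset_span ⟨gP_LZ v, VV_le_Eg (mem_VV v)⟩

theorem SS_HZ : SS G ≤ HZ G 1 := by
  conv_lhs => unfold SS
  rw [Submodule.span_le]
  rintro _ ⟨e, rfl⟩
  exact Submodule.subset_span ⟨gS_LZ e, SS_le_Eg (mem_SS e)⟩

theorem TT_HZ : TT G ≤ HZ G (-1) := by
  conv_lhs => unfold TT
  rw [Submodule.span_le]
  rintro _ ⟨e, rfl⟩
  exact Submodule.subset_span ⟨gT_LZ e, TT_le_Eg (mem_TT e)⟩

theorem SSVV_HZ (a : ℕ) : SS G ^ a * VV G ≤ HZ G a := by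
  induction a with
  | zero => rw [pow_zero, one_mul]; exact_mod_cast VV_HZ
  | succ a ih =>
    rw [pow_succ', mul_assoc]
    have := (mul_le_mul' SS_HZ ih).trans (HZ_mul _ _)
    convert this using 2
    push_cast; ring

theorem QQ_HZ (a b : ℕ) : QQ G a b ≤ HZ G ((a : ℤ) - b) := by
  unfold QQ
  induction b with
  | zero => rw [pow_zero, mul_one]; simpa using SSVV_HZ a
  | succ b ih =>
    rw [pow_succ, ← mul_assoc]
    have := (mul_le_mul' ih TT_HZ).trans (HZ_mul _ _)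
    convert this using 2
    push_cast; ring

theorem UU_HZ : UU G ≤ ⨆ d, HZ G d := by
  refine iSup_le fun a => iSup_le fun b => ?_
  exact (QQ_HZ a b).trans (le_iSup (HZ G) _)

theorem neg_aux (a : LU G) : (-1 : ℂ) • a + a = 0 := by
  have h : (-1 : ℂ) • a + (1 : ℂ) • a = ((-1 : ℂ) + 1) • a := (add_smul _ _ _).symm
  have h1 : (1 : ℂ) • a = a := one_smul _ _
  have h2 : ((-1 : ℂ) + 1) • a = 0 := by
    rw [show (-1 : ℂ) + 1 = 0 by norm_num]; exact zero_smul _ _
  rw [h1, h2] at h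
  exact h

theorem neg_aux' {a b : LU G} (h : (-1 : ℂ) • a + b = 0) : a = b :=
  add_left_cancel ((neg_aux a).trans h.symm)

end HZ

section inj

variable {E F : DGraph} (φ : Leavitt E ≃+* Leavitt F)

/-- `φ` composed with the linearised inverse. -/
noncomputable def phg (x : Leavitt F) : Leavitt F := φ (gHom φ x)

theorem phg_add (x y : Leavitt F) : phg φ (x + y) = phg φ x + phg φ y := by
  unfold phg; rw [map_add, map_add]

theorem phg_mul (x y : Leavitt F) : phg φ (x * y) = phg φ x * phg φ y := by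
  unfold phg; rw [map_mul, map_mul]

theorem phg_zero : phg φ (0 : Leavitt F) = 0 := by
  unfold phg; rw [map_zero, map_zero]

theorem phg_sum {ι : Type} (s : Finset ι) (f : ι → Leavitt F) :
    phg φ (∑ i ∈ s, f i) = ∑ i ∈ s, phg φ (f i) := by
  unfold phg; rw [map_sum, map_sum]

theorem phg_smul (c : ℂ) (x : Leavitt F) : phg φ (c • x) = th φ c (phg φ x) := by
  unfold phg th; rw [map_smul, RingEquiv.symm_apply_apply]

theorem phg_LZ {x : LU F} (hx : x ∈ LZ F) (h : x ∈ Leavitt F) :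
    phg φ ⟨x, h⟩ = ⟨x, h⟩ := by
  unfold phg; rw [gHom_LZ φ hx h]; exact φ.apply_symm_apply _

variable [Countable E.E] [Countable F.E]

theorem th_lP_Eg (c : ℂ) (w : F.V) : (th φ c (lP w) : LU F) ∈ Eg F 0 := by
  obtain ⟨ι, hι, k, ε, hZ, hg, ho, hi, hs, hk⟩ := th_Dec φ c w
  rw [← hk]
  refine Submodule.sum_mem _ fun i _ => Submodule.smul_mem _ _ ?_
  rw [mem_Eg, hg i]; simp

theorem th_Eg (c : ℂ) {d : ℤ} (x : Leavitt F) (hx : (x : LU F) ∈ Eg F d) :
    (th φ c x : LU F) ∈ Eg F d := by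
  obtain ⟨W, hW⟩ := local_unit x.2
  have e1 : x = ∑ w ∈ W, (lP w : Leavitt F) * x := by
    apply Subtype.ext
    rw [AddSubmonoidClass.coe_finsetSum]
    have := (hW W (Finset.Subset.refl _)).1
    rw [Finset.sum_mul] at this
    exact this.symm
  have e2 : th φ c x = ∑ w ∈ W, th φ c (lP w) * x := by
    conv_lhs => rw [e1]
    rw [th_sum]
    exact Finset.sum_congr rfl fun w _ => th_mul_left φ c _ _
  rw [e2, AddSubmonoidClass.coe_finsetSum]
  refine Submodule.sum_mem _ fun w _ => ?_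
  have := Eg_mul (th_lP_Eg φ c w) hx
  rwa [zero_add] at this

theorem phg_Eg {d : ℤ} {x : LU F} (hx : x ∈ HZ F d) : ∀ h : x ∈ Leavitt F,
    (phg φ ⟨x, h⟩ : LU F) ∈ Eg F d := by
  unfold HZ at hx
  induction hx using Submodule.span_induction with
  | mem x hx => intro h; rw [phg_LZ φ hx.1 h]; exact hx.2
  | zero =>
    intro h
    have : (⟨0, h⟩ : Leavitt F) = 0 := rfl
    rw [this, phg_zero]
    exact Submodule.zero_mem _
  | add x y hx hy ihx ihy =>
    intro h
    have h1 : x ∈ Leavitt F := HZ_le_L hx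
    have h2 : y ∈ Leavitt F := HZ_le_L hy
    have : (⟨x + y, h⟩ : Leavitt F) = ⟨x, h1⟩ + ⟨y, h2⟩ := rfl
    rw [this, phg_add]
    exact Submodule.add_mem _ (ihx h1) (ihy h2)
  | smul c x hx ih =>
    intro h
    have h1 : x ∈ Leavitt F := HZ_le_L hx
    have : (⟨c • x, h⟩ : Leavitt F) = c • ⟨x, h1⟩ := rfl
    rw [this, phg_smul]
    exact th_Eg φ c _ (ih h1)

theorem phg_ne_zero {d : ℤ} {x : LU F} (hx : x ∈ HZ F d) (h0 : x ≠ 0) (h : x ∈ Leavitt F) :
    phg φ ⟨x, h⟩ ≠ 0 := by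
  intro hcon
  obtain ⟨n, hn⟩ := UU_BB (leavitt_le_UU h)
  obtain ⟨μ, hμ, ν, hν, w, κ, hκ, hred⟩ := reduction n d h h0 (HZ_le_Eg d hx) hn
  have e1 : (⟨μ, hμ⟩ : Leavitt F) * ⟨x, h⟩ * ⟨ν, hν⟩ = κ • lP w := Subtype.ext hred
  have e2 := congrArg (phg φ) e1
  rw [phg_mul, phg_mul, hcon, mul_zero, zero_mul, phg_smul] at e2
  have e3 : phg φ (lP w) = lP w := phg_LZ φ (gP_LZ w) (lP w).2
  rw [e3] at e2
  have e4 := th_eq_zero φ hκ e2.symm
  exact vert_ne_zero F w (congrArg Subtype.val e4)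

theorem phg_inj (z : Leavitt F) (hz : phg φ z = 0) : z = 0 := by
  classical
  have h1 := UU_HZ (leavitt_le_UU z.2)
  obtain ⟨f, hf, hsum⟩ := (Submodule.mem_iSup_iff_exists_finsupp _ _).1 h1
  have hfL : ∀ d, f d ∈ Leavitt F := fun d => HZ_le_L (hf d)
  have e1 : z = ∑ d ∈ f.support, (⟨f d, hfL d⟩ : Leavitt F) := by
    apply Subtype.ext
    rw [AddSubmonoidClass.coe_finsetSum, ← hsum]
    rfl
  have e2 : ∑ d ∈ f.support, (phg φ ⟨f d, hfL d⟩ : LU F) = 0 := by
    rw [← AddSubmonoidClass.coe_finsetSum, ← phg_sum, ← e1, hz]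
    rfl
  have h3 := (iSupIndep_iff_finsetSum_eq_zero_imp_eq_zero (Eg F)).1 Eg_indep f.support
    (fun d => (phg φ ⟨f d, hfL d⟩ : LU F)) (fun d _ => phg_Eg φ (hf d) _) e2
  rw [e1]
  apply Finset.sum_eq_zero
  intro d hd
  by_contra hcon
  have h0 : f d ≠ 0 := Finsupp.mem_support_iff.1 hd
  exact phg_ne_zero φ (hf d) h0 (hfL d) (Subtype.ext (h3 d hd))

theorem gHom_injective : Function.Injective (gHom φ) := by
  intro x y hxy
  have h1 : gHom φ ((-1 : ℂ) • x + y) = 0 := by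
    rw [map_add, map_smul, hxy]
    apply Subtype.ext
    exact neg_aux _
  have h2 : (-1 : ℂ) • x + y = 0 := by
    apply phg_inj φ
    unfold phg
    rw [h1, map_zero]
  have h3 : (-1 : ℂ) • (x : LU F) + (y : LU F) = 0 := congrArg Subtype.val h2
  exact Subtype.ext (neg_aux' h3)

theorem gHom_bijective : Function.Bijective (gHom φ) :=
  ⟨gHom_injective φ, fun y => gHom_surj φ y⟩

/-- Ring isomorphic Leavitt path algebras are isomorphic as algebras. -/
theorem algIso : ∃ f : Leavitt E →ₙₐ[ℂ] Leavitt F,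
    (∀ x, gHom φ (f x) = x) ∧ ∀ y, f (gHom φ y) = y := by
  let e := Equiv.ofBijective (gHom φ) (gHom_bijective φ)
  have h1 : ∀ x, gHom φ (e.symm x) = x := e.apply_symm_apply
  have h2 : ∀ x, e.symm (gHom φ x) = x := e.symm_apply_apply
  refine ⟨{ toFun := e.symm, map_smul' := ?_, map_zero' := ?_, map_add' := ?_, map_mul' := ?_ },
    h1, h2⟩
  · intro c x
    apply gHom_injective φ
    rw [h1]
    show c • x = gHom φ (c • e.symm x)
    rw [map_smul, h1]
  · apply gHom_injective φ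
    rw [h1, map_zero]
  · intro x y
    apply gHom_injective φ
    rw [h1, map_add, h1, h1]
  · intro x y
    apply gHom_injective φ
    show gHom φ (e.symm (x * y)) = gHom φ (e.symm x * e.symm y)
    rw [h1, map_mul, h1, h1]

end inj

end Pool.Agent.GHT
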