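import Pool.Agent.GHT.Str

/-! # The universal property of the Leavitt path algebra -/

set_option linter.unusedSectionVars false

namespace Pool.Agent.GHT

section lift

variable {G : DGraph} {B : Type} [NonUnitalRing B] [Module ℂ B] [IsScalarTower ℂ B B]
  [SMulCommClass ℂ B B]

/-- Values of the generators in the unitization. -/
def LFam.genU (Φ : LFam G B) : Gen G → Unitization ℂ B
  | Gen.vert v => (Φ.P v : Unitization ℂ B)
  | Gen.edge e => (Φ.S e : Unitization ℂ B)
  | Gen.ghost e => (Φ.T e : Unitization ℂ B)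

theorem LFam.rel_genU (Φ : LFam G B) {x y : FA G} (h : Rel G x y) :
    FreeAlgebra.lift ℂ Φ.genU x = FreeAlgebra.lift ℂ Φ.genU y := by
  induction h with
  | vv v => simp only [map_mul, FreeAlgebra.lift_ι_apply, genU, ← Unitization.inr_mul, Φ.PP]
  | vw v w h => simp only [map_mul, FreeAlgebra.lift_ι_apply, genU, ← Unitization.inr_mul,
      Φ.PPo v w h, map_zero, Unitization.inr_zero]
  | se e => simp only [map_mul, FreeAlgebra.lift_ι_apply, genU, ← Unitization.inr_mul, Φ.PS]
  | er e => simp only [map_mul, FreeAlgebra.lift_ι_apply, genU, ← Unitization.inr_mul, Φ.SP]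
  | rg e => simp only [map_mul, FreeAlgebra.lift_ι_apply, genU, ← Unitization.inr_mul, Φ.PT]
  | gs e => simp only [map_mul, FreeAlgebra.lift_ι_apply, genU, ← Unitization.inr_mul, Φ.TP]
  | ge e => simp only [map_mul, FreeAlgebra.lift_ι_apply, genU, ← Unitization.inr_mul, Φ.TS]
  | gf e f h => simp only [map_mul, FreeAlgebra.lift_ι_apply, genU, ← Unitization.inr_mul,
      Φ.TSo e f h, map_zero, Unitization.inr_zero]
  | ck v h =>
    simp only [map_mul, map_sum, FreeAlgebra.lift_ι_apply, genU, ← Unitization.inr_mul]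
    rw [Φ.CK v h]
    exact map_sum (Unitization.inrNonUnitalAlgHom ℂ B) _ _

/-- The homomorphism from the unital algebra to the unitization. -/
noncomputable def LFam.liftU (Φ : LFam G B) : LU G →ₐ[ℂ] Unitization ℂ B :=
  RingQuot.liftAlgHom ℂ ⟨FreeAlgebra.lift ℂ Φ.genU, fun _ _ h => Φ.rel_genU h⟩

theorem LFam.liftU_gen (Φ : LFam G B) (x : Gen G) : Φ.liftU (gen G x) = Φ.genU x := by
  unfold liftU gen
  rw [RingQuot.liftAlgHom_mkAlgHom_apply, FreeAlgebra.lift_ι_apply]

theorem LFam.liftU_fst (Φ : LFam G B) {x : LU G} (hx : x ∈ Leavitt G) :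
    (Φ.liftU x).fst = 0 := by
  unfold Leavitt at hx
  induction hx using NonUnitalAlgebra.adjoin_induction with
  | mem x hx =>
    obtain ⟨y, rfl⟩ := hx
    rw [Φ.liftU_gen]
    cases y <;> exact Unitization.fst_inr ℂ _
  | add x y _ _ hx hy => rw [map_add, Unitization.fst_add, hx, hy, add_zero]
  | zero => rw [map_zero, Unitization.fst_zero]
  | mul x y _ _ hx hy => rw [map_mul, Unitization.fst_mul, hx, zero_mul]
  | smul r x _ hx => rw [map_smul, Unitization.fst_smul, hx, smul_zero]

/-- The homomorphism from the Leavitt path algebra given by a Leavitt family. -/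
noncomputable def LFam.lift (Φ : LFam G B) : Leavitt G →ₙₐ[ℂ] B where
  toFun x := (Φ.liftU (x : LU G)).snd
  map_smul' c x := by
    show (Φ.liftU (c • (x : LU G))).snd = _
    rw [map_smul, Unitization.snd_smul]; rfl
  map_zero' := by
    show (Φ.liftU (0 : LU G)).snd = _
    rw [map_zero, Unitization.snd_zero]
  map_add' x y := by
    show (Φ.liftU ((x : LU G) + (y : LU G))).snd = _
    rw [map_add, Unitization.snd_add]
  map_mul' x y := by
    show (Φ.liftU ((x : LU G) * (y : LU G))).snd = _
    rw [map_mul, Unitization.snd_mul, Φ.liftU_fst x.2, Φ.liftU_fst y.2, zero_smul, zero_smul,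
      zero_add, zero_add]

theorem LFam.lift_vert (Φ : LFam G B) (v : G.V) : Φ.lift (lgen G (Gen.vert v)) = Φ.P v := by
  show (Φ.liftU (gen G (Gen.vert v))).snd = _
  rw [Φ.liftU_gen]; rfl

theorem LFam.lift_edge (Φ : LFam G B) (e : G.E) : Φ.lift (lgen G (Gen.edge e)) = Φ.S e := by
  show (Φ.liftU (gen G (Gen.edge e))).snd = _
  rw [Φ.liftU_gen]; rfl

theorem LFam.lift_ghost (Φ : LFam G B) (e : G.E) : Φ.lift (lgen G (Gen.ghost e)) = Φ.T e := by
  show (Φ.liftU (gen G (Gen.ghost e))).snd = _
  rw [Φ.liftU_gen]; rfl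

/-- Homomorphisms from the Leavitt path algebra are determined by the generators. -/
theorem leavitt_hom_ext {f g : Leavitt G →ₙₐ[ℂ] B} (h : ∀ x, f (lgen G x) = g (lgen G x)) :
    f = g := by
  have key : ∀ (x : LU G) (hx : x ∈ Leavitt G), f ⟨x, hx⟩ = g ⟨x, hx⟩ := by
    intro x hx
    have hx' := hx
    unfold Leavitt at hx'
    induction hx' using NonUnitalAlgebra.adjoin_induction with
    | mem x hx1 =>
      obtain ⟨y, rfl⟩ := hx1
      exact h y
    | add x y hx1 hy1 ih1 ih2 =>
      have e1 := ih1 hx1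
      have e2 := ih2 hy1
      have : (⟨x + y, hx⟩ : Leavitt G) = ⟨x, hx1⟩ + ⟨y, hy1⟩ := rfl
      rw [this, map_add, map_add, e1, e2]
    | zero =>
      have : (⟨0, hx⟩ : Leavitt G) = 0 := rfl
      rw [this, map_zero, map_zero]
    | mul x y hx1 hy1 ih1 ih2 =>
      have e1 := ih1 hx1
      have e2 := ih2 hy1
      have : (⟨x * y, hx⟩ : Leavitt G) = ⟨x, hx1⟩ * ⟨y, hy1⟩ := rfl
      rw [this, map_mul, map_mul, e1, e2]
    | smul r x hx1 ih1 =>
      have e1 := ih1 hx1
      have : (⟨r • x, hx⟩ : Leavitt G) = r • (⟨x, hx1⟩ : Leavitt G) := rfl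
      rw [this, map_smul, map_smul, e1]
  ext x
  exact key x.1 x.2

end lift

/-- A relation holds in the quotient. -/
theorem rel_gen {G : DGraph} {x y : FA G} (h : Rel G x y) :
    RingQuot.mkAlgHom ℂ (Rel G) x = RingQuot.mkAlgHom ℂ (Rel G) y :=
  RingQuot.mkAlgHom_rel ℂ h

/-- The canonical Leavitt family in the Leavitt path algebra. -/
noncomputable def canL (G : DGraph) : LFam G (Leavitt G) where
  P v := lgen G (Gen.vert v)
  S e := lgen G (Gen.edge e)
  T e := lgen G (Gen.ghost e)
  PP v := Subtype.ext (by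
    have := rel_gen (Rel.vv (G := G) v)
    rw [map_mul] at this
    exact this)
  PPo v w h := Subtype.ext (by
    have := rel_gen (Rel.vw (G := G) v w h)
    rw [map_mul, map_zero] at this
    exact this)
  PS e := Subtype.ext (by
    have := rel_gen (Rel.se (G := G) e)
    rw [map_mul] at this
    exact this)
  SP e := Subtype.ext (by
    have := rel_gen (Rel.er (G := G) e)
    rw [map_mul] at this
    exact this)
  PT e := Subtype.ext (by
    have := rel_gen (Rel.rg (G := G) e)
    rw [map_mul] at this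
    exact this)
  TP e := Subtype.ext (by
    have := rel_gen (Rel.gs (G := G) e)
    rw [map_mul] at this
    exact this)
  TS e := Subtype.ext (by
    have := rel_gen (Rel.ge (G := G) e)
    rw [map_mul] at this
    exact this)
  TSo e f h := Subtype.ext (by
    have := rel_gen (Rel.gf (G := G) e f h)
    rw [map_mul, map_zero] at this
    exact this)
  CK v h := Subtype.ext (by
    have := rel_gen (Rel.ck (G := G) v h)
    simp only [map_mul, map_sum] at this
    rw [show ((lgen G (Gen.vert v) : Leavitt G) : LU G) = _ from this]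
    simp only [AddSubmonoidClass.coe_finsetSum]
    rfl)

end Pool.Agent.GHT
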