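import Pool.Agent.GHT.Inj

/-! # Homotopies of algebra homomorphisms, final form -/

set_option linter.unusedSectionVars false

namespace Pool.Agent.GHT

open scoped unitInterval

/-- Homotopy of algebra homomorphisms from a Leavitt path algebra to a C*-algebra: a pointwise
norm continuous path of algebra homomorphisms. -/
def AlgHomotopic {G : DGraph} {B : Type} [NonUnitalCStarAlgebra B]
    (f g : Leavitt G →ₙₐ[ℂ] B) : Prop :=
  ∃ H : I → (Leavitt G →ₙₐ[ℂ] B), H 0 = f ∧ H 1 = g ∧ ∀ a, Continuous fun t => H t a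

/-- `ι` is the canonical homomorphism from the Leavitt path algebra to the C*-algebra with the
Cuntz-Krieger family `Φ`. -/
def CKFam.IsCan {G : DGraph} {A : Type} [NonUnitalCStarAlgebra A] (Φ : CKFam G A)
    (ι : Leavitt G →ₙₐ[ℂ] A) : Prop :=
  (∀ v, ι (lgen G (Gen.vert v)) = Φ.p v) ∧ (∀ e, ι (lgen G (Gen.edge e)) = Φ.s e) ∧
    ∀ e, ι (lgen G (Gen.ghost e)) = star (Φ.s e)

section

variable {G : DGraph} {B : Type} [NonUnitalCStarAlgebra B]

theorem AlgHomotopic.refl (f : Leavitt G →ₙₐ[ℂ] B) : AlgHomotopic f f :=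
  ⟨fun _ => f, rfl, rfl, fun _ => continuous_const⟩

theorem AlgHomotopic.trans {f g h : Leavitt G →ₙₐ[ℂ] B} (h1 : AlgHomotopic f g)
    (h2 : AlgHomotopic g h) : AlgHomotopic f h := by
  obtain ⟨H, H0, H1, Hc⟩ := h1
  obtain ⟨K, K0, K1, Kc⟩ := h2
  classical
  refine ⟨fun t => if (t : ℝ) ≤ 1 / 2 then H (hA t) else K (hB t), ?_, ?_, ?_⟩
  · have e : hA 0 = 0 := by
      apply Subtype.ext
      show max 0 (min 1 (2 * ((0 : I) : ℝ))) = ((0 : I) : ℝ)
      norm_num
    show (if ((0 : I) : ℝ) ≤ 1 / 2 then H (hA 0) else K (hB 0)) = f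
    rw [if_pos (by norm_num), e, H0]
  · have e : hB 1 = 1 := by
      apply Subtype.ext
      show max 0 (min 1 (2 * ((1 : I) : ℝ) - 1)) = ((1 : I) : ℝ)
      norm_num
    show (if ((1 : I) : ℝ) ≤ 1 / 2 then H (hA 1) else K (hB 1)) = h
    rw [if_neg (by norm_num), e, K1]
  · intro a
    have e : (fun t : I => (if (t : ℝ) ≤ 1 / 2 then H (hA t) else K (hB t)) a) =
        fun t : I => if (t : ℝ) ≤ 1 / 2 then H (hA t) a else K (hB t) a := by
      funext t
      split_ifs <;> rfl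
    rw [e]
    apply Continuous.if_le ((Hc a).comp hA_cont) ((Kc a).comp hB_cont)
      continuous_subtype_val continuous_const
    intro t ht
    have e1 : hA t = 1 := by
      apply Subtype.ext
      show max 0 (min 1 (2 * (t : ℝ))) = ((1 : I) : ℝ)
      rw [ht]; norm_num
    have e2 : hB t = 0 := by
      apply Subtype.ext
      show max 0 (min 1 (2 * (t : ℝ) - 1)) = ((0 : I) : ℝ)
      rw [ht]; norm_num
    show H (hA t) a = K (hB t) a
    rw [e1, e2, H1, K0]

theorem algHomotopic_of_pathL {Θ Θ' : LFam G B} (h : PathL Θ Θ') :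
    AlgHomotopic Θ.lift Θ'.lift := by
  obtain ⟨Ω, h0, h1⟩ := h
  refine ⟨fun t => (Ω.map (ev t)).lift, congrArg LFam.lift h0, congrArg LFam.lift h1,
    fun a => ?_⟩
  have h2 : (fun t : I => (Ω.map (ev t)).lift a) = fun t => Ω.lift a t := by
    funext t
    exact lift_map Ω (ev t) a
  rw [h2]
  exact (Ω.lift a).continuous

theorem algHomotopic_of_paths {Θ Θ' : LFam G B} (h : Relation.ReflTransGen PathL Θ Θ') :
    AlgHomotopic Θ.lift Θ'.lift := by
  induction h with
  | refl => exact AlgHomotopic.refl _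
  | tail _ h ih => exact ih.trans (algHomotopic_of_pathL h)

end

/-- A small idempotent in a C*-algebra vanishes. -/
theorem idem_norm {D : Type} [NonUnitalCStarAlgebra D] {e : D} (h : e * e = e) (h0 : e ≠ 0) :
    1 ≤ ‖e‖ := by
  have h1 : ‖e‖ ≤ ‖e‖ * ‖e‖ := by
    conv_lhs => rw [← h]
    exact norm_mul_le e e
  have h2 : 0 < ‖e‖ := norm_pos_iff.2 h0
  nlinarith

/-- Homotopic homomorphisms annihilate the same idempotents. -/
theorem AlgHomotopic.idem {G : DGraph} {B : Type} [NonUnitalCStarAlgebra B]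
    {f g : Leavitt G →ₙₐ[ℂ] B} (h : AlgHomotopic f g) {D : Type} [NonUnitalCStarAlgebra D]
    (π : B →⋆ₙₐ[ℂ] D) {x : Leavitt G} (hx : x * x = x) : π (f x) = 0 ↔ π (g x) = 0 := by
  obtain ⟨H, h0, h1, hc⟩ := h
  have hπ : Continuous π := by
    exact AddMonoidHomClass.continuous_of_bound π 1
      (fun x => by simpa only [one_mul] using NonUnitalStarAlgHom.norm_apply_le π x)
  have hcont : Continuous fun t : I => π (H t x) := hπ.comp (hc x)
  have hid : ∀ t, π (H t x) * π (H t x) = π (H t x) := by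
    intro t; rw [← map_mul, ← map_mul, hx]
  have hopen : IsOpen {t : I | π (H t x) = 0} := by
    have : {t : I | π (H t x) = 0} = {t : I | ‖π (H t x)‖ < 1} := by
      ext t
      constructor
      · intro h
        show ‖π (H t x)‖ < 1
        rw [show π (H t x) = 0 from h, norm_zero]; norm_num
      · intro h
        by_contra hcon
        have h1 : ‖π (H t x)‖ < 1 := h
        exact absurd (idem_norm (hid t) hcon) (not_le.2 h1)
    rw [this]
    exact isOpen_lt hcont.norm continuous_const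
  have hclosed : IsClosed {t : I | π (H t x) = 0} := isClosed_eq hcont continuous_const
  have hclopen : IsClopen {t : I | π (H t x) = 0} := ⟨hclosed, hopen⟩
  rcases isClopen_iff.1 hclopen with h | h
  · constructor
    · intro h'
      have : (0 : I) ∈ {t : I | π (H t x) = 0} := by show π (H 0 x) = 0; rw [h0]; exact h'
      rw [h] at this; exact absurd this (Set.notMem_empty _)
    · intro h'
      have : (1 : I) ∈ {t : I | π (H t x) = 0} := by show π (H 1 x) = 0; rw [h1]; exact h'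
      rw [h] at this; exact absurd this (Set.notMem_empty _)
  · have e0 : π (f x) = 0 := by
      have : (0 : I) ∈ {t : I | π (H t x) = 0} := by rw [h]; trivial
      have h2 : π (H 0 x) = 0 := this
      rwa [h0] at h2
    have e1 : π (g x) = 0 := by
      have : (1 : I) ∈ {t : I | π (H t x) = 0} := by rw [h]; trivial
      have h2 : π (H 1 x) = 0 := this
      rwa [h1] at h2
    exact ⟨fun _ => e1, fun _ => e0⟩

theorem CKFam.isCan_toL {G : DGraph} {A : Type} [NonUnitalCStarAlgebra A] (Φ : CKFam G A) :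
    Φ.IsCan Φ.toL.lift :=
  ⟨fun v => Φ.toL.lift_vert v, fun e => Φ.toL.lift_edge e, fun e => Φ.toL.lift_ghost e⟩

theorem pull_lift {E F : DGraph} {B : Type} [NonUnitalCStarAlgebra B] (f : Leavitt E →ₙₐ[ℂ] Leavitt F)
    (Θ : LFam F B) : (pull f Θ).lift = Θ.lift.comp f := by
  apply leavitt_hom_ext
  intro x
  cases x with
  | vert v => rw [LFam.lift_vert]; rfl
  | edge e => rw [LFam.lift_edge]; rfl
  | ghost e => rw [LFam.lift_ghost]; rfl

section final

variable {E F : DGraph} [Encodable E.V] [Encodable E.E] [Encodable F.V] [Encodable F.E]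
  {A B : Type} [NonUnitalCStarAlgebra A] [NonUnitalCStarAlgebra B]
  {Φ : CKFam E A} (hΦ : Φ.IsUniversal) {Ψ : CKFam F B}

/-- The homomorphism `f` is homotopic to the `*`-homomorphism `starOf f`. -/
theorem starOf_homotopic (f : Leavitt E →ₙₐ[ℂ] Leavitt F) :
    AlgHomotopic (Ψ.toL.lift.comp f)
      ((starOf hΦ (Ψ := Ψ) f : A →ₙₐ[ℂ] B).comp Φ.toL.lift) := by
  have h := algHomotopic_of_paths (pull f Ψ.toL).path_str
  rw [pull_lift] at h
  have h2 : (pull f Ψ.toL).str.toL.lift =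
      (starOf hΦ (Ψ := Ψ) f : A →ₙₐ[ℂ] B).comp Φ.toL.lift := by
    rw [← starOf_map hΦ f]
    apply leavitt_hom_ext
    intro x
    cases x with
    | vert v =>
      rw [LFam.lift_vert, NonUnitalAlgHom.comp_apply, LFam.lift_vert]; rfl
    | edge e =>
      rw [LFam.lift_edge, NonUnitalAlgHom.comp_apply, LFam.lift_edge]; rfl
    | ghost e =>
      rw [LFam.lift_ghost, NonUnitalAlgHom.comp_apply, LFam.lift_ghost]
      exact (map_star (starOf hΦ (Ψ := Ψ) f) (Φ.s e)).symm
  rwa [h2] at h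

end final

/-- The main theorem. -/
theorem main_theorem {E F : DGraph} [Countable E.V] [Countable E.E] [Countable F.V]
    [Countable F.E] (φ : Leavitt E ≃+* Leavitt F) {A B : Type} [NonUnitalCStarAlgebra A]
    [NonUnitalCStarAlgebra B] (Φ : CKFam E A) (hΦ : Φ.IsUniversal) (Ψ : CKFam F B)
    (hΨ : Ψ.IsUniversal) :
    ∃ (α : A →⋆ₙₐ[ℂ] B) (β : B →⋆ₙₐ[ℂ] A),
      Homotopic (β.comp α) (NonUnitalStarAlgHom.id ℂ A) ∧
      Homotopic (α.comp β) (NonUnitalStarAlgHom.id ℂ B) ∧
      ∃ (ιE : Leavitt E →ₙₐ[ℂ] A) (ιF : Leavitt F →ₙₐ[ℂ] B) (f : Leavitt E →ₙₐ[ℂ] Leavitt F),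
        Φ.IsCan ιE ∧ Ψ.IsCan ιF ∧ (∀ x, f (lgen E x) = φ (lgen E x)) ∧
        AlgHomotopic (ιF.comp f) ((α : A →ₙₐ[ℂ] B).comp ιE) ∧
        ∀ (D : Type) [NonUnitalCStarAlgebra D] (π : B →⋆ₙₐ[ℂ] D) (x : Leavitt E), x * x = x →
          (π (α (ιE x)) = 0 ↔ π (ιF (f x)) = 0) := by
  let _ := Encodable.ofCountable E.V
  let _ := Encodable.ofCountable E.E
  let _ := Encodable.ofCountable F.V
  let _ := Encodable.ofCountable F.E
  obtain ⟨g, h1, h2⟩ := algIso φ.symm
  have hA := starOf_homotopic hΦ (Ψ := Ψ) (gHom φ.symm)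
  refine ⟨starOf hΦ (Ψ := Ψ) (gHom φ.symm), starOf hΨ (Ψ := Φ) g,
    (homotopic_comp hΦ hΨ _ g h2).symm, (homotopic_comp hΨ hΦ g _ h1).symm,
    Φ.toL.lift, Ψ.toL.lift, gHom φ.symm, Φ.isCan_toL, Ψ.isCan_toL, fun x => gHom_gen φ.symm x,
    hA, ?_⟩
  intro D _ π x hx
  exact (hA.idem π hx).symm

end Pool.Agent.GHT
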