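import Pool.Agent.GHT.SL

/-! # Reduction of homogeneous elements -/

set_option linter.unusedSectionVars false

namespace Pool.Agent.GHT

variable {G : DGraph}

/-- Local units. -/
theorem local_unit {x : LU G} (hx : x ∈ Leavitt G) :
    ∃ W : Finset G.V, ∀ B, W ⊆ B → (∑ w ∈ B, gP G w) * x = x ∧ x * (∑ w ∈ B, gP G w) = x := by
  classical
  unfold Leavitt at hx
  have hL : ∀ (v : G.V) (y : LU G), gP G v * y = y → ∀ B : Finset G.V, v ∈ B →
      (∑ w ∈ B, gP G w) * y = y := by
    intro v y hy B hB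
    rw [← hy, ← mul_assoc, Finset.sum_mul, Finset.sum_eq_single v, gPP]
    · intro u _ huv; exact gPPo G huv
    · intro h; exact absurd hB h
  have hR : ∀ (v : G.V) (y : LU G), y * gP G v = y → ∀ B : Finset G.V, v ∈ B →
      y * (∑ w ∈ B, gP G w) = y := by
    intro v y hy B hB
    rw [← hy, mul_assoc, Finset.mul_sum, Finset.sum_eq_single v, gPP]
    · intro u _ huv; exact gPPo G (Ne.symm huv)
    · intro h; exact absurd hB h
  induction hx using NonUnitalAlgebra.adjoin_induction with
  | mem x hx =>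
    obtain ⟨y, rfl⟩ := hx
    cases y with
    | vert v =>
      refine ⟨{v}, fun B hB => ?_⟩
      have hv : v ∈ B := hB (Finset.mem_singleton_self v)
      exact ⟨hL v _ (gPP G v) B hv, hR v _ (gPP G v) B hv⟩
    | edge e =>
      refine ⟨{G.s e, G.r e}, fun B hB => ?_⟩
      exact ⟨hL (G.s e) _ (gPS G e) B (hB (by simp)), hR (G.r e) _ (gSP G e) B (hB (by simp))⟩
    | ghost e =>
      refine ⟨{G.s e, G.r e}, fun B hB => ?_⟩
      exact ⟨hL (G.r e) _ (gPT G e) B (hB (by simp)), hR (G.s e) _ (gTP G e) B (hB (by simp))⟩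
  | add x y _ _ hx hy =>
    obtain ⟨A, hA⟩ := hx
    obtain ⟨A', hA'⟩ := hy
    refine ⟨A ∪ A', fun B hB => ?_⟩
    have h1 := hA B (Finset.union_subset_left hB)
    have h2 := hA' B (Finset.union_subset_right hB)
    exact ⟨by rw [mul_add, h1.1, h2.1], by rw [add_mul, h1.2, h2.2]⟩
  | zero => exact ⟨∅, fun B _ => by simp⟩
  | mul x y _ _ hx hy =>
    obtain ⟨A, hA⟩ := hx
    obtain ⟨A', hA'⟩ := hy
    refine ⟨A ∪ A', fun B hB => ?_⟩
    have h1 := hA B (Finset.union_subset_left hB)
    have h2 := hA' B (Finset.union_subset_right hB)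
    exact ⟨by rw [← mul_assoc, h1.1], by rw [mul_assoc, h2.2]⟩
  | smul r x _ hx =>
    obtain ⟨A, hA⟩ := hx
    refine ⟨A, fun B hB => ?_⟩
    have h1 := hA B hB
    exact ⟨by rw [mul_smul_comm, h1.1], by rw [smul_mul_assoc, h1.2]⟩

theorem exists_right_ne {x : LU G} (hx : x ∈ Leavitt G) (h0 : x ≠ 0) : ∃ w, x * gP G w ≠ 0 := by
  obtain ⟨W, hW⟩ := local_unit hx
  by_contra hcon
  push Not at hcon
  apply h0
  rw [← (hW W (Finset.Subset.refl _)).2, Finset.mul_sum]
  exact Finset.sum_eq_zero fun w _ => hcon w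

/-- The conclusion of the reduction. -/
def Red (x : LU G) : Prop :=
  ∃ μ ∈ Leavitt G, ∃ ν ∈ Leavitt G, ∃ (w : G.V) (κ : ℂ), κ ≠ 0 ∧ μ * x * ν = κ • gP G w

theorem gP_TTpow (m : ℕ) {b : LU G} (hb : b ∈ TT G ^ m) (w : G.V) :
    gP G w * b ∈ Leavitt G := by
  cases m with
  | zero =>
    rw [pow_zero] at hb
    obtain ⟨c, rfl⟩ := Submodule.mem_one.1 hb
    rw [Algebra.algebraMap_eq_smul_one, mul_smul_comm, mul_one]
    exact SMulMemClass.smul_mem c (gP_mem w)
  | succ m => exact mul_mem (gP_mem w) (TTpow_le_L m b hb)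

theorem red_real (d : ℤ) {x : LU G} (hx : x ∈ Leavitt G) (h0 : x ≠ 0) (hd : x ∈ Eg G d)
    (hR : x ∈ ⨆ n, RR G n) : Red x := by
  classical
  obtain ⟨w, hw⟩ := exists_right_ne hx h0
  have hdir : Directed (· ≤ ·) (RR G) := fun m n =>
    ⟨max m n, RR_mono (le_max_left _ _), RR_mono (le_max_right _ _)⟩
  obtain ⟨n, hn⟩ := (Submodule.mem_iSup_of_directed _ hdir).1 hR
  set y := x * gP G w with hy
  have hyP : y * gP G w = y := by rw [hy, mul_assoc, gPP]
  have hyE : y ∈ Eg G d := by
    have := Eg_mul hd (VV_le_Eg (mem_VV w))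
    rwa [add_zero] at this
  have hyR : ∃ n, y ∈ RR G n := by
    refine ⟨n, ?_⟩
    have h : RR G n ≤ (RR G n).comap (LinearMap.mulRight ℂ (gP G w)) := by
      refine RR_le fun a ha z hz => ?_
      show z * gP G w ∈ RR G n
      exact QQ_le_RR ha (QQ_VV _ _ (Submodule.mul_mem_mul hz (mem_VV _)))
    exact h hn
  set m := Nat.find hyR with hm
  have hmR : y ∈ RR G m := Nat.find_spec hyR
  -- `y ∈ QQ m 0`
  have hyQ : y ∈ QQ G m 0 := by
    rcases Nat.eq_zero_or_pos m with h | h
    · rw [h] at hmR ⊢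
      rw [QQ00]; exact RR_zero hmR
    · obtain ⟨m', hm'⟩ : ∃ m', m = m' + 1 := ⟨m - 1, by omega⟩
      rw [hm'] at hmR ⊢
      obtain ⟨f, hf, g, hg, hfg⟩ := Submodule.mem_sup.1 (RR_succ m' hmR)
      have hfE : f ∈ Eg G ((m' : ℤ) + 1) := by
        have := QQ_le_Eg (m' + 1) 0 hf
        simpa using this
      have hf0 : f ≠ 0 := by
        intro h
        rw [h, zero_add] at hfg
        exact Nat.find_min hyR (m := m') (by omega) (by rw [← hfg]; exact hg)
      have hdm : d = (m' : ℤ) + 1 := by
        rcases lt_trichotomy d ((m' : ℤ) + 1) with h | h | h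
        · exfalso
          apply hf0
          have h1 : f ∈ Fil G m' := by
            have : f = y - g := by rw [← hfg]; abel
            rw [this]
            exact sub_mem (Eg_le_Fil (by omega) hyE) (RR_le_Fil m' hg)
          exact Eg_Fil (by omega) hfE h1
        · exact h
        · exfalso
          apply hw
          have h1 : y ∈ Fil G ((m' : ℤ) + 1) := by
            have := RR_le_Fil _ hmR
            exact_mod_cast this
          exact Eg_Fil h hyE h1
      have hg0 : g = 0 := by
        have h1 : g ∈ Eg G ((m' : ℤ) + 1) := by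
          have : g = y - f := by rw [← hfg]; abel
          rw [this]
          rw [hdm] at hyE
          exact sub_mem hyE hfE
        exact Eg_Fil (by omega) h1 (RR_le_Fil m' hg)
      rw [← hfg, hg0, add_zero]; exact hf
  obtain ⟨b, hb, κ, hκ, hbx⟩ := top_dual m hyQ hyP hw
  refine ⟨gP G w * b, ?_, gP G w, gP_mem w, w, κ, hκ, ?_⟩
  · exact gP_TTpow m hb w
  · rw [mul_assoc, ← hy, mul_assoc, hbx, mul_smul_comm, gPP]

variable (G) in
/-- ghost length at most `n` -/
noncomputable def BB (n : ℕ) : Submodule ℂ (LU G) := ⨆ a, ⨆ b, ⨆ _ : b ≤ n, QQ G a b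

theorem QQ_le_BB {a b n : ℕ} (h : b ≤ n) : QQ G a b ≤ BB G n :=
  le_iSup_of_le a (le_iSup₂_of_le b h le_rfl)

theorem BB_le {n : ℕ} {N : Submodule ℂ (LU G)} (h : ∀ a b, b ≤ n → QQ G a b ≤ N) :
    BB G n ≤ N := iSup_le fun a => iSup₂_le fun b hb => h a b hb

theorem BB_mono {m n : ℕ} (h : m ≤ n) : BB G m ≤ BB G n :=
  BB_le fun _ _ hb => QQ_le_BB (hb.trans h)

theorem UU_BB {x : LU G} (hx : x ∈ UU G) : ∃ n, x ∈ BB G n := by
  have h : UU G ≤ ⨆ n, BB G n := by
    refine iSup_le fun a => iSup_le fun b => ?_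
    have h1 : QQ G a b ≤ BB G b := QQ_le_BB le_rfl
    have h2 : BB G b ≤ ⨆ n, BB G n := le_iSup (BB G) b
    exact h1.trans h2
  have hd : Directed (· ≤ ·) (BB G) := fun m n =>
    ⟨max m n, BB_mono (le_max_left _ _), BB_mono (le_max_right _ _)⟩
  exact (Submodule.mem_iSup_of_directed _ hd).1 (h hx)

theorem BB_zero : BB G 0 ≤ ⨆ n, RR G n := by
  refine BB_le fun a b hb => ?_
  have : b = 0 := by omega
  subst this
  have h1 : QQ G a 0 ≤ RR G a := QQ_le_RR le_rfl
  have h2 : RR G a ≤ ⨆ n, RR G n := le_iSup (RR G) a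
  exact h1.trans h2

theorem BB_SS (n : ℕ) {x : LU G} (hx : x ∈ BB G (n + 1)) (f : G.E) :
    x * gS G f ∈ BB G n := by
  have h : BB G (n + 1) ≤ (BB G n).comap (LinearMap.mulRight ℂ (gS G f)) := by
    refine BB_le fun a b hb z hz => ?_
    show z * gS G f ∈ BB G n
    cases b with
    | zero =>
      have h1 := QQ_SS_zero a (Submodule.mul_mem_mul hz (mem_SS f))
      exact QQ_le_BB (Nat.zero_le n) h1
    | succ b =>
      have h1 := QQ_SS_succ a b (Submodule.mul_mem_mul hz (mem_SS f))
      exact QQ_le_BB (by omega) h1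
  exact h hx

/-- Reduction theorem for homogeneous elements. -/
theorem reduction [Countable G.E] (n : ℕ) : ∀ (d : ℤ) {x : LU G}, x ∈ Leavitt G → x ≠ 0 →
    x ∈ Eg G d → x ∈ BB G n → Red x := by
  classical
  induction n with
  | zero => intro d x hx h0 hd hB; exact red_real d hx h0 hd (BB_zero hB)
  | succ n ih =>
    intro d x hx h0 hd hB
    by_cases hf : ∃ f, x * gS G f ≠ 0
    · obtain ⟨f, hf⟩ := hf
      obtain ⟨μ, hμ, ν, hν, w, κ, hκ, h⟩ := ih (d + 1) (mul_mem hx (gS_mem f)) hf
        (Eg_mul hd (SS_le_Eg (mem_SS f))) (BB_SS n hB f)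
      refine ⟨μ, hμ, gS G f * ν, mul_mem (gS_mem f) hν, w, κ, hκ, ?_⟩
      rw [← h]; noncomm_ring
    · push Not at hf
      obtain ⟨w, hw⟩ := exists_right_ne hx h0
      obtain ⟨x0, hx0, x1, hx1, hxx⟩ := Submodule.mem_sup.1 (UU_split (leavitt_le_UU hx))
      obtain ⟨A, hA⟩ := TT_expand hx1
      have hreg : ¬ G.Regular w := by
        intro hreg
        apply hw
        rw [gCK G w hreg, Finset.mul_sum]
        apply Finset.sum_eq_zero
        intro e _
        rw [← mul_assoc, hf e, zero_mul]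
      have hx1S : ∀ e, x1 * gS G e = -(x0 * gS G e) := by
        intro e
        have := hf e
        rw [← hxx, add_mul] at this
        exact eq_neg_of_add_eq_zero_right this
      have hx1w : x1 * gP G w = ∑ e ∈ A.filter (fun e => G.s e = w), -(x0 * gS G e) * gT G e := by
        conv_lhs => rw [hA A (Finset.Subset.refl _)]
        rw [Finset.sum_mul, Finset.sum_filter]
        apply Finset.sum_congr rfl
        intro e _
        split_ifs with he
        · rw [mul_assoc, ← he, gTP, hx1S]
        · rw [mul_assoc, gTP' G he, mul_zero]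
      by_cases hne : (G.out w).Nonempty
      · have hinf : (G.out w).Infinite := fun hf => hreg ⟨hne, hf⟩
        obtain ⟨f, hfo, hfA⟩ := hinf.exists_notMem_finset A
        have hfs : G.s f = w := hfo
        have h1 : x1 * gS G f = 0 := by
          rw [hA A (Finset.Subset.refl _), Finset.sum_mul]
          apply Finset.sum_eq_zero
          intro e he
          rw [mul_assoc, gTSo G (by rintro rfl; exact hfA he), mul_zero]
        have h2 : x0 * gP G w * gS G f = 0 := by
          have := hf f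
          rw [← hxx, add_mul, h1, add_zero] at this
          rw [mul_assoc, ← hfs, gPS, this]
        have hdir : Directed (· ≤ ·) (RR G) := fun m n =>
          ⟨max m n, RR_mono (le_max_left _ _), RR_mono (le_max_right _ _)⟩
        obtain ⟨m, hm⟩ := (Submodule.mem_iSup_of_directed _ hdir).1 hx0
        have hmR : x0 * gP G w ∈ RR G m := by
          have h : RR G m ≤ (RR G m).comap (LinearMap.mulRight ℂ (gP G w)) := by
            refine RR_le fun a ha z hz => ?_
            show z * gP G w ∈ RR G m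
            exact QQ_le_RR ha (QQ_VV _ _ (Submodule.mul_mem_mul hz (mem_VV _)))
          exact h hm
        have h3 : x0 * gP G w = 0 :=
          real_inj f m _ hmR (by rw [hfs, mul_assoc, gPP]) h2
        exfalso
        apply hw
        rw [← hxx, add_mul, h3, zero_add, hx1w]
        apply Finset.sum_eq_zero
        intro e he
        have hse := (Finset.mem_filter.1 he).2
        have : x0 * gS G e = 0 := by rw [← gPS, hse, ← mul_assoc, h3, zero_mul]
        rw [this, neg_zero, zero_mul]
      · have hne' : ∀ e, G.s e ≠ w := fun e he => hne ⟨e, he⟩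
        have h1 : x * gP G w = x0 * gP G w := by
          rw [← hxx, add_mul, hx1w]
          have : A.filter (fun e => G.s e = w) = ∅ := by
            apply Finset.filter_eq_empty_iff.2
            intro e _; exact hne' e
          rw [this, Finset.sum_empty, add_zero]
        have hR : x * gP G w ∈ ⨆ n, RR G n := by
          rw [h1]
          have h : (⨆ n, RR G n) ≤ (⨆ n, RR G n).comap (LinearMap.mulRight ℂ (gP G w)) := by
            refine iSup_le fun m => RR_le fun a ha z hz => ?_
            show z * gP G w ∈ ⨆ n, RR G n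
            have h2 : RR G m ≤ ⨆ n, RR G n := le_iSup (RR G) m
            exact h2 (QQ_le_RR ha (QQ_VV _ _ (Submodule.mul_mem_mul hz (mem_VV _))))
          exact h hx0
        have hE : x * gP G w ∈ Eg G d := by
          have := Eg_mul hd (VV_le_Eg (mem_VV w))
          rwa [add_zero] at this
        obtain ⟨μ, hμ, ν, hν, w', κ, hκ, h⟩ := red_real d (mul_mem hx (gP_mem w)) hw hE hR
        refine ⟨μ, hμ, gP G w * ν, mul_mem (gP_mem w) hν, w', κ, hκ, ?_⟩
        rw [← h]; noncomm_ring

end Pool.Agent.GHT
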