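import Pool.Agent.GHT.Defs

/-! # Range projections of idempotents in C*-algebras -/

namespace Pool.Agent.GHT

open scoped unitInterval

/-- `ρ` is the range projection of the idempotent `e`. -/
structure IsRP {B : Type} [NonUnitalCStarAlgebra B] (e ρ : B) : Prop where
  sa : star ρ = ρ
  re : ρ * e = e
  er : e * ρ = ρ

namespace IsRP
variable {B : Type} [NonUnitalCStarAlgebra B] {e ρ ρ' : B}

theorem mul_self (h : IsRP e ρ) : ρ * ρ = ρ := by
  calc ρ * ρ = ρ * (e * ρ) := by rw [h.er]
    _ = (ρ * e) * ρ := by rw [mul_assoc]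
    _ = ρ := by rw [h.re, h.er]

theorem unique (h : IsRP e ρ) (h' : IsRP e ρ') : ρ = ρ' := by
  have h1 : ρ * ρ' = ρ' := by
    calc ρ * ρ' = ρ * (e * ρ') := by rw [h'.er]
      _ = (ρ * e) * ρ' := by rw [mul_assoc]
      _ = ρ' := by rw [h.re, h'.er]
  have h2 : ρ' * ρ = ρ := by
    calc ρ' * ρ = ρ' * (e * ρ) := by rw [h.er]
      _ = (ρ' * e) * ρ := by rw [mul_assoc]
      _ = ρ := by rw [h'.re, h.er]
  have h3 : star (ρ' * ρ) = star ρ := by rw [h2]
  rw [star_mul, h.sa, h'.sa] at h3
  rw [← h3, h1]

end IsRP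

/-- Existence in a unital C*-algebra. -/
theorem exists_isRP_unital {U : Type} [CStarAlgebra U] (e : U) (he : e * e = e) :
    ∃ x : U, star (e * x) = e * x ∧ (e * x) * e = e ∧ e * (e * x) = e * x := by
  letI := CStarAlgebra.spectralOrder U
  letI := CStarAlgebra.spectralOrderedRing U
  have hse : star e * star e = star e := by rw [← star_mul, he]
  set x : U := e + star e - 1 with hx
  have hx2 : x * x = 1 + star (e - star e) * (e - star e) := by
    simp only [hx, star_sub, star_star]
    have : (e + star e - 1) * (e + star e - 1) =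
      e * e + star e * star e + e * star e + star e * e - e - star e - e - star e + 1 := by
      noncomm_ring
    rw [this, he, hse]
    have h2 : (star e - e) * (e - star e) =
      star e * e - star e * star e - e * e + e * star e := by noncomm_ring
    rw [h2, he, hse]
    abel
  have hpos : IsStrictlyPositive (x * x) := by
    rw [hx2]
    exact IsStrictlyPositive.add_nonneg (by cfc_tac) (star_mul_self_nonneg _)
  have hu2 : IsUnit (x * x) := hpos.isUnit
  have hu : IsUnit x := by
    rw [← pow_two] at hu2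
    exact (isUnit_pow_iff two_ne_zero).1 hu2
  obtain ⟨u, hu⟩ := hu
  have h1 : x * e = star e * x := by
    simp only [hx]
    have a1 : (e + star e - 1) * e = e * e + star e * e - e := by noncomm_ring
    have a2 : star e * (e + star e - 1) = star e * e + star e * star e - star e := by noncomm_ring
    rw [a1, a2, he, hse]; abel
  have hui : (↑u⁻¹ : U) * x = 1 := by rw [← hu]; simp
  have hiu : x * (↑u⁻¹ : U) = 1 := by rw [← hu]; simp
  have h2 : e * (↑u⁻¹ : U) = ↑u⁻¹ * star e := by
    calc e * (↑u⁻¹ : U) = (↑u⁻¹ * x) * e * ↑u⁻¹ := by rw [hui, one_mul]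
      _ = ↑u⁻¹ * (x * e) * ↑u⁻¹ := by noncomm_ring
      _ = ↑u⁻¹ * star e * (x * ↑u⁻¹) := by rw [h1]; noncomm_ring
      _ = ↑u⁻¹ * star e := by rw [hiu, mul_one]
  have hxs : star x = x := by simp only [hx, star_sub, star_add, star_star, star_one]; abel
  have hus : star (↑u⁻¹ : U) = ↑u⁻¹ := by
    have h3 : star (↑u⁻¹ : U) * x = 1 := by
      have := congrArg star hiu
      rwa [star_mul, hxs, star_one] at this
    calc star (↑u⁻¹ : U) = star (↑u⁻¹ : U) * (x * ↑u⁻¹) := by rw [hiu, mul_one]
      _ = ↑u⁻¹ := by rw [← mul_assoc, h3, one_mul]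
  have h4 : x * e = star e * e := by
    simp only [hx]
    have a1 : (e + star e - 1) * e = e * e + star e * e - e := by noncomm_ring
    rw [a1, he]; abel
  refine ⟨↑u⁻¹, ?_, ?_, ?_⟩
  · rw [star_mul, hus, h2]
  · rw [h2, mul_assoc, ← h4, ← mul_assoc, hui, one_mul]
  · rw [← mul_assoc, he]

/-- Every idempotent of a C*-algebra has a range projection. -/
theorem exists_isRP {B : Type} [NonUnitalCStarAlgebra B] (e : B) (he : e * e = e) :
    ∃ ρ : B, IsRP e ρ := by
  have hE : (e : Unitization ℂ B) * e = e := by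
    rw [← Unitization.inr_mul, he]
  obtain ⟨x, h1, h2, h3⟩ := exists_isRP_unital (e : Unitization ℂ B) hE
  have hf : ((e : Unitization ℂ B) * x).fst = 0 := by simp
  have hr : (((e : Unitization ℂ B) * x).snd : Unitization ℂ B) = (e : Unitization ℂ B) * x := by
    ext
    · simp
    · simp
  refine ⟨((e : Unitization ℂ B) * x).snd, ?_, ?_, ?_⟩
  · apply Unitization.inr_injective (R := ℂ)
    rw [Unitization.inr_star, hr, h1]
  · apply Unitization.inr_injective (R := ℂ)
    rw [Unitization.inr_mul, hr, h2]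
  · apply Unitization.inr_injective (R := ℂ)
    rw [Unitization.inr_mul, hr, h3]

open Classical in
/-- The range projection of an idempotent (zero for other elements). -/
noncomputable def rp {B : Type} [NonUnitalCStarAlgebra B] (e : B) : B :=
  if h : e * e = e then (exists_isRP e h).choose else 0

theorem rp_spec {B : Type} [NonUnitalCStarAlgebra B] {e : B} (he : e * e = e) :
    IsRP e (rp e) := by
  unfold rp
  rw [dif_pos he]
  exact (exists_isRP e he).choose_spec

theorem rp_eq {B : Type} [NonUnitalCStarAlgebra B] {e ρ : B} (he : e * e = e) (h : IsRP e ρ) :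
    rp e = ρ := (rp_spec he).unique h

theorem rp_self {B : Type} [NonUnitalCStarAlgebra B] {e : B} (he : e * e = e) (hs : star e = e) :
    rp e = e := rp_eq he ⟨hs, he, he⟩

theorem rp_zero {B : Type} [NonUnitalCStarAlgebra B] : rp (0 : B) = 0 :=
  rp_self (by simp) (by simp)

theorem map_rp {B D : Type} [NonUnitalCStarAlgebra B] [NonUnitalCStarAlgebra D]
    (π : B →⋆ₙₐ[ℂ] D) {e : B} (he : e * e = e) : π (rp e) = rp (π e) := by
  have h := rp_spec he
  symm
  apply rp_eq
  · rw [← map_mul, he]
  · refine ⟨?_, ?_, ?_⟩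
    · rw [← map_star, h.sa]
    · rw [← map_mul, h.re]
    · rw [← map_mul, h.er]

end Pool.Agent.GHT
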