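import Pool.Agent.GHT.Lift

/-! # A representation in which the vertices do not vanish -/

set_option linter.unusedSectionVars false

namespace Pool.Agent.GHT

/-- The homomorphism from the unital algebra given by a Leavitt family in a unital algebra. -/
theorem LFam.rel_ring {G : DGraph} {B : Type} [Ring B] [Algebra ℂ B] (Φ : LFam G B)
    (g : Gen G → B) (hv : ∀ v, g (Gen.vert v) = Φ.P v) (he : ∀ e, g (Gen.edge e) = Φ.S e)
    (hg : ∀ e, g (Gen.ghost e) = Φ.T e) {x y : FA G} (h : Rel G x y) :
    FreeAlgebra.lift ℂ g x = FreeAlgebra.lift ℂ g y := by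
  induction h with
  | vv v => simp only [map_mul, FreeAlgebra.lift_ι_apply, hv, Φ.PP]
  | vw v w h => simp only [map_mul, FreeAlgebra.lift_ι_apply, hv, Φ.PPo v w h, map_zero]
  | se e => simp only [map_mul, FreeAlgebra.lift_ι_apply, hv, he, Φ.PS]
  | er e => simp only [map_mul, FreeAlgebra.lift_ι_apply, hv, he, Φ.SP]
  | rg e => simp only [map_mul, FreeAlgebra.lift_ι_apply, hv, hg, Φ.PT]
  | gs e => simp only [map_mul, FreeAlgebra.lift_ι_apply, hv, hg, Φ.TP]
  | ge e => simp only [map_mul, FreeAlgebra.lift_ι_apply, hv, hg, he, Φ.TS]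
  | gf e f h => simp only [map_mul, FreeAlgebra.lift_ι_apply, hg, he, Φ.TSo e f h, map_zero]
  | ck v h =>
    simp only [map_mul, map_sum, FreeAlgebra.lift_ι_apply, hv, he, hg]
    rw [Φ.CK v h]

/-- The values of the generators. -/
def LFam.genR {G : DGraph} {B : Type} [Ring B] (Φ : LFam G B) : Gen G → B
  | Gen.vert v => Φ.P v
  | Gen.edge e => Φ.S e
  | Gen.ghost e => Φ.T e

/-- The homomorphism from the unital algebra given by a Leavitt family in a unital algebra. -/
noncomputable def LFam.liftR {G : DGraph} {B : Type} [Ring B] [Algebra ℂ B] (Φ : LFam G B) :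
    LU G →ₐ[ℂ] B :=
  RingQuot.liftAlgHom ℂ ⟨FreeAlgebra.lift ℂ Φ.genR,
    fun _ _ h => Φ.rel_ring Φ.genR (fun _ => rfl) (fun _ => rfl) (fun _ => rfl) h⟩

theorem LFam.liftR_gen {G : DGraph} {B : Type} [Ring B] [Algebra ℂ B] (Φ : LFam G B)
    (x : Gen G) : Φ.liftR (gen G x) = Φ.genR x := by
  unfold liftR gen
  rw [RingQuot.liftAlgHom_mkAlgHom_apply, FreeAlgebra.lift_ι_apply]

section rep

variable (G : DGraph) [Countable G.E]

/-- Choice of a bijection `out v × ℕ ≃ ℕ`. -/
theorem exists_beta (v : G.V) (h : (G.out v).Nonempty) : Nonempty ((G.out v) × ℕ ≃ ℕ) := by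
  haveI : Nonempty (G.out v) := h.to_subtype
  exact nonempty_equiv_of_countable

open Classical in
/-- A coding of the pairs (edge, number) by numbers, bijective at each emitting vertex. -/
noncomputable def code (e : G.E) (n : ℕ) : ℕ :=
  (exists_beta G (G.s e) ⟨e, rfl⟩).some (⟨e, rfl⟩, n)

open Classical in
theorem code_inj {e f : G.E} {m n : ℕ} (hs : G.s e = G.s f) (h : code G e m = code G f n) :
    e = f ∧ m = n := by
  unfold code at h
  obtain ⟨v, hv⟩ : ∃ v, v = G.s e := ⟨_, rfl⟩
  have key : ∀ (w : G.V) (hw : G.s f = w) (hw' : G.s e = w)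
      (h : (exists_beta G (G.s e) ⟨e, rfl⟩).some (⟨e, rfl⟩, m) =
        (exists_beta G (G.s f) ⟨f, rfl⟩).some (⟨f, rfl⟩, n)), e = f ∧ m = n := by
    intro w hw hw' h
    have e1 : (exists_beta G (G.s e) ⟨e, rfl⟩).some (⟨e, rfl⟩, m) =
        (exists_beta G w ⟨e, hw'⟩).some (⟨e, hw'⟩, m) := by subst hw'; rfl
    have e2 : (exists_beta G (G.s f) ⟨f, rfl⟩).some (⟨f, rfl⟩, n) =
        (exists_beta G w ⟨e, hw'⟩).some (⟨f, hw⟩, n) := by subst hw; rfl
    rw [e1, e2] at h
    have h' := (exists_beta G w ⟨e, hw'⟩).some.injective h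
    simp only [Prod.mk.injEq] at h'
    exact ⟨congrArg Subtype.val h'.1, h'.2⟩
  exact key (G.s e) hs.symm rfl h

theorem code_surj (v : G.V) (h : (G.out v).Nonempty) (m : ℕ) :
    ∃ e : G.E, ∃ n, G.s e = v ∧ code G e n = m := by
  obtain ⟨⟨⟨e, he⟩, n⟩, hn⟩ := (exists_beta G v h).some.surjective m
  refine ⟨e, n, he, ?_⟩
  have he' : G.s e = v := he
  subst he'
  exact hn

/-- The space of the representation. -/
abbrev RS : Type := (G.V × ℕ) →₀ ℂ

open Classical in
/-- The operators of the representation. -/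
noncomputable def rP (v : G.V) : Module.End ℂ (RS G) :=
  Finsupp.lsum ℂ fun x : G.V × ℕ => if x.1 = v then Finsupp.lsingle x else 0

open Classical in
noncomputable def rS (e : G.E) : Module.End ℂ (RS G) :=
  Finsupp.lsum ℂ fun x : G.V × ℕ =>
    if x.1 = G.r e then Finsupp.lsingle (G.s e, code G e x.2) else 0

open Classical in
noncomputable def rT (e : G.E) : Module.End ℂ (RS G) :=
  Finsupp.lsum ℂ fun x : G.V × ℕ =>
    if h : x.1 = G.s e ∧ ∃ n, code G e n = x.2 then Finsupp.lsingle (G.r e, h.2.choose) else 0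

/-- basis vectors -/
noncomputable def bv (x : G.V × ℕ) : RS G := Finsupp.single x 1

theorem rP_self (v : G.V) (n : ℕ) : rP G v (bv G (v, n)) = bv G (v, n) := by
  simp [rP, bv]

theorem rP_ne {v w : G.V} (h : w ≠ v) (n : ℕ) : rP G v (bv G (w, n)) = 0 := by
  simp [rP, bv, h]

theorem rS_self (e : G.E) (n : ℕ) : rS G e (bv G (G.r e, n)) = bv G (G.s e, code G e n) := by
  simp [rS, bv]

theorem rS_ne {e : G.E} {w : G.V} (h : w ≠ G.r e) (n : ℕ) : rS G e (bv G (w, n)) = 0 := by
  simp [rS, bv, h]

theorem rT_self (e : G.E) (n : ℕ) : rT G e (bv G (G.s e, code G e n)) = bv G (G.r e, n) := by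
  have h : (G.s e, code G e n).1 = G.s e ∧ ∃ k, code G e k = (G.s e, code G e n).2 :=
    ⟨rfl, n, rfl⟩
  have h2 : h.2.choose = n := (code_inj G rfl h.2.choose_spec).2
  simp only [rT, bv, Finsupp.lsum_single]
  rw [dif_pos h, h2]
  simp

theorem rT_ne {e : G.E} {w : G.V} (h : w ≠ G.s e) (n : ℕ) : rT G e (bv G (w, n)) = 0 := by
  simp only [rT, bv, Finsupp.lsum_single]
  rw [dif_neg (fun h' => h h'.1)]
  rfl

theorem rT_other {e f : G.E} (h : e ≠ f) (hs : G.s f = G.s e) (n : ℕ) :
    rT G e (bv G (G.s f, code G f n)) = 0 := by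
  simp only [rT, bv, Finsupp.lsum_single]
  rw [dif_neg]
  · rfl
  · rintro ⟨_, k, hk⟩
    exact h (code_inj G hs.symm hk).1

theorem end_ext {a b : Module.End ℂ (RS G)} (h : ∀ w n, a (bv G (w, n)) = b (bv G (w, n))) :
    a = b := by
  apply Finsupp.lhom_ext'
  intro x
  apply LinearMap.ext_ring
  exact h x.1 x.2

/-- The Leavitt family of the representation. -/
noncomputable def repFam : LFam G (Module.End ℂ (RS G)) where
  P := rP G
  S := rS G
  T := rT G
  PP v := by
    apply end_ext; intro w n
    rw [Module.End.mul_apply]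
    by_cases h : w = v
    · subst h; rw [rP_self, rP_self]
    · rw [rP_ne G h, map_zero]
  PPo v v' hv := by
    apply end_ext; intro w n
    rw [Module.End.mul_apply]
    by_cases h : w = v'
    · subst h; rw [rP_self, rP_ne G (Ne.symm hv)]; rfl
    · rw [rP_ne G h, map_zero]; rfl
  PS e := by
    apply end_ext; intro w n
    rw [Module.End.mul_apply]
    by_cases h : w = G.r e
    · subst h; rw [rS_self, rP_self]
    · rw [rS_ne G h, map_zero]
  SP e := by
    apply end_ext; intro w n
    rw [Module.End.mul_apply]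
    by_cases h : w = G.r e
    · subst h; rw [rP_self]
    · rw [rP_ne G h, rS_ne G h, map_zero]
  PT e := by
    apply end_ext; intro w n
    rw [Module.End.mul_apply]
    by_cases h : w = G.s e
    · subst h
      obtain ⟨f, k, hf, hk⟩ := code_surj G (G.s e) ⟨e, rfl⟩ n
      subst hk
      by_cases hef : e = f
      · subst hef; rw [rT_self, rP_self]
      · rw [← hf, rT_other G hef hf, map_zero]
    · rw [rT_ne G h, map_zero]
  TP e := by
    apply end_ext; intro w n
    rw [Module.End.mul_apply]
    by_cases h : w = G.s e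
    · subst h; rw [rP_self]
    · rw [rP_ne G h, rT_ne G h, map_zero]
  TS e := by
    apply end_ext; intro w n
    rw [Module.End.mul_apply]
    by_cases h : w = G.r e
    · subst h; rw [rS_self, rT_self, rP_self]
    · rw [rS_ne G h, rP_ne G h, map_zero]
  TSo e f hef := by
    apply end_ext; intro w n
    rw [Module.End.mul_apply]
    by_cases h : w = G.r f
    · subst h
      rw [rS_self]
      by_cases hs : G.s f = G.s e
      · rw [rT_other G hef hs]; rfl
      · rw [rT_ne G hs]; rfl
    · rw [rS_ne G h, map_zero]; rfl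
  CK v h := by
    apply end_ext; intro w n
    rw [LinearMap.sum_apply]
    by_cases hw : w = v
    · subst hw
      obtain ⟨f, k, hf, hk⟩ := code_surj G w h.1 n
      rw [rP_self, Finset.sum_eq_single f]
      · subst hk
        rw [Module.End.mul_apply]
        conv_rhs => rw [← hf, rT_self, rS_self, hf]
      · intro e he hef
        have hse : G.s e = w := by simpa [DGraph.out] using he
        subst hk
        rw [Module.End.mul_apply, ← hf, rT_other G hef (hf.trans hse.symm), map_zero]
      · intro hf'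
        exact absurd (by simpa [DGraph.out] using hf) hf'
    · rw [rP_ne G hw, Finset.sum_eq_zero]
      intro e he
      have hse : G.s e = v := by simpa [DGraph.out] using he
      rw [Module.End.mul_apply, rT_ne G (by rw [hse]; exact hw), map_zero]

theorem vert_ne_zero (v : G.V) : gen G (Gen.vert v) ≠ 0 := by
  intro h
  have h1 := (repFam G).liftR_gen (Gen.vert v)
  rw [h, map_zero] at h1
  have h2 : rP G v (bv G (v, 0)) = 0 := by
    have : (repFam G).genR (Gen.vert v) = rP G v := rfl
    rw [← this, ← h1]; rfl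
  rw [rP_self] at h2
  have h3 : (bv G (v, 0)) (v, 0) = (1 : ℂ) := by simp [bv]
  rw [h2] at h3
  simp at h3

end rep

end Pool.Agent.GHT
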