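import Pool.Agent.GHT.CC

/-! # Central families with roots are locally constant -/

set_option linter.unusedSectionVars false

namespace Pool.Agent.GHT

variable {G : DGraph}

/-- The central family has roots of all orders. -/
def Div (ζ : Cen G) : Prop := ∀ n : ℕ, ∃ ζ' : Cen G, ∀ v, (ζ'.z v) ^ (n + 1) = ζ.z v

theorem laurent_nonpos [Countable G.E] (ζ : Cen G) (hζ : Div ζ) (v : G.V) :
    ∀ n, ζ.z v ∈ LL G n → ζ.z v ∈ LL G 0 := by
  intro n
  induction n with
  | zero => exact id
  | succ n ih =>
    intro h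
    obtain ⟨f, g, hf, hg, hfg, hPf, hfP⟩ := LL_split v n h (ζ.Pz v) (ζ.zP v)
    obtain ⟨ζ', hζ'⟩ := hζ (n + 1)
    have h0 := top_zero ζ v n ⟨ζ', hζ' v⟩ hf hg hfg hPf hfP
    apply ih
    rw [hfg, h0, zero_add]
    exact hg

/-! ## The involution -/

variable (G) in
/-- The opposite family. -/
noncomputable def opfam : LFam G (LU G)ᵐᵒᵖ where
  P v := MulOpposite.op (gP G v)
  S e := MulOpposite.op (gT G e)
  T e := MulOpposite.op (gS G e)
  PP v := by rw [← MulOpposite.op_mul, gPP]
  PPo v w h := by rw [← MulOpposite.op_mul, gPPo G (Ne.symm h), MulOpposite.op_zero]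
  PS e := by rw [← MulOpposite.op_mul, gTP]
  SP e := by rw [← MulOpposite.op_mul, gPT]
  PT e := by rw [← MulOpposite.op_mul, gSP]
  TP e := by rw [← MulOpposite.op_mul, gPS]
  TS e := by rw [← MulOpposite.op_mul, gTS]
  TSo e f h := by rw [← MulOpposite.op_mul, gTSo G (Ne.symm h), MulOpposite.op_zero]
  CK v h := by
    rw [gCK G v h, Finset.op_sum]
    rfl

/-- The linear involution exchanging edges and ghost edges. -/
noncomputable def sig (x : LU G) : LU G := MulOpposite.unop ((opfam G).liftR x)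

theorem sig_P (v : G.V) : sig (gP G v) = gP G v := by
  unfold sig
  rw [show gP G v = gen G (Gen.vert v) from rfl, (opfam G).liftR_gen]; rfl

theorem sig_S (e : G.E) : sig (gS G e) = gT G e := by
  unfold sig
  rw [show gS G e = gen G (Gen.edge e) from rfl, (opfam G).liftR_gen]; rfl

theorem sig_T (e : G.E) : sig (gT G e) = gS G e := by
  unfold sig
  rw [show gT G e = gen G (Gen.ghost e) from rfl, (opfam G).liftR_gen]; rfl

theorem sig_mul (x y : LU G) : sig (x * y) = sig y * sig x := by
  unfold sig; rw [map_mul, MulOpposite.unop_mul]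

theorem sig_add (x y : LU G) : sig (x + y) = sig x + sig y := by
  unfold sig; rw [map_add, MulOpposite.unop_add]

theorem sig_zero : sig (0 : LU G) = 0 := by
  unfold sig; rw [map_zero, MulOpposite.unop_zero]

theorem sig_one : sig (1 : LU G) = 1 := by
  unfold sig; rw [map_one, MulOpposite.unop_one]

theorem sig_smul (c : ℂ) (x : LU G) : sig (c • x) = c • sig x := by
  unfold sig; rw [map_smul, MulOpposite.unop_smul]

theorem sig_pow (x : LU G) (n : ℕ) : sig (x ^ n) = sig x ^ n := by
  induction n with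
  | zero => rw [pow_zero, pow_zero, sig_one]
  | succ n ih => rw [pow_succ, sig_mul, ih, ← pow_succ']

variable (G) in
/-- `sig` as a linear map. -/
noncomputable def sigL : LU G →ₗ[ℂ] LU G where
  toFun := sig
  map_add' := sig_add
  map_smul' := sig_smul

theorem sig_mem_L {x : LU G} (hx : x ∈ Leavitt G) : sig x ∈ Leavitt G := by
  unfold Leavitt at hx
  induction hx using NonUnitalAlgebra.adjoin_induction with
  | mem x hx =>
    obtain ⟨y, rfl⟩ := hx
    cases y with
    | vert v => rw [show gen G (Gen.vert v) = gP G v from rfl, sig_P]; exact gP_mem v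
    | edge e => rw [show gen G (Gen.edge e) = gS G e from rfl, sig_S]; exact gT_mem e
    | ghost e => rw [show gen G (Gen.ghost e) = gT G e from rfl, sig_T]; exact gS_mem e
  | add x y _ _ hx hy => rw [sig_add]; exact add_mem hx hy
  | zero => rw [sig_zero]; exact zero_mem _
  | mul x y _ _ hx hy => rw [sig_mul]; exact mul_mem hy hx
  | smul r x _ hx => rw [sig_smul]; exact SMulMemClass.smul_mem r hx

theorem sig_sig {x : LU G} (hx : x ∈ Leavitt G) : sig (sig x) = x := by
  unfold Leavitt at hx
  induction hx using NonUnitalAlgebra.adjoin_induction with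
  | mem x hx =>
    obtain ⟨y, rfl⟩ := hx
    cases y with
    | vert v => rw [show gen G (Gen.vert v) = gP G v from rfl, sig_P, sig_P]
    | edge e => rw [show gen G (Gen.edge e) = gS G e from rfl, sig_S, sig_T]
    | ghost e => rw [show gen G (Gen.ghost e) = gT G e from rfl, sig_T, sig_S]
  | add x y _ _ hx hy => rw [sig_add, sig_add, hx, hy]
  | zero => rw [sig_zero, sig_zero]
  | mul x y _ _ hx hy => rw [sig_mul, sig_mul, hx, hy]
  | smul r x _ hx => rw [sig_smul, sig_smul, hx]

/-- The image of a central family under the involution. -/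
noncomputable def Cen.sig (ζ : Cen G) : Cen G where
  z v := GHT.sig (ζ.z v)
  mem v := sig_mem_L (ζ.mem v)
  Pz v := by
    have := congrArg GHT.sig (ζ.zP v)
    rwa [sig_mul, sig_P] at this
  zP v := by
    have := congrArg GHT.sig (ζ.Pz v)
    rwa [sig_mul, sig_P] at this
  comm x hx v w := by
    have := congrArg GHT.sig (ζ.comm (GHT.sig x) (sig_mem_L hx) w v)
    rw [sig_mul, sig_mul, sig_mul, sig_mul, sig_P, sig_P, sig_sig hx, ← mul_assoc,
      ← mul_assoc] at this
    exact this.symm

theorem Div.sig {ζ : Cen G} (h : Div ζ) : Div ζ.sig := by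
  intro n
  obtain ⟨ζ', hζ'⟩ := h n
  refine ⟨ζ'.sig, fun v => ?_⟩
  show GHT.sig (ζ'.z v) ^ (n + 1) = GHT.sig (ζ.z v)
  rw [← sig_pow, hζ' v]

theorem map_sig_mul (M N : Submodule ℂ (LU G)) :
    (M * N).map (sigL G) ≤ N.map (sigL G) * M.map (sigL G) := by
  rw [Submodule.map_le_iff_le_comap, Submodule.mul_le]
  intro m hm n hn
  show sig (m * n) ∈ N.map (sigL G) * M.map (sigL G)
  rw [sig_mul]
  exact Submodule.mul_mem_mul ⟨n, hn, rfl⟩ ⟨m, hm, rfl⟩

theorem map_sig_SS : (SS G).map (sigL G) ≤ TT G := by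
  rw [Submodule.map_le_iff_le_comap]
  unfold SS
  rw [Submodule.span_le]
  rintro _ ⟨e, rfl⟩
  show sig (gS G e) ∈ TT G
  rw [sig_S]; exact mem_TT e

theorem map_sig_TT : (TT G).map (sigL G) ≤ SS G := by
  rw [Submodule.map_le_iff_le_comap]
  unfold TT
  rw [Submodule.span_le]
  rintro _ ⟨e, rfl⟩
  show sig (gT G e) ∈ SS G
  rw [sig_T]; exact mem_SS e

theorem map_sig_VV : (VV G).map (sigL G) ≤ VV G := by
  rw [Submodule.map_le_iff_le_comap]
  conv_lhs => unfold VV
  rw [Submodule.span_le]
  rintro _ ⟨e, rfl⟩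
  show sig (gP G e) ∈ VV G
  rw [sig_P]; exact mem_VV e

theorem map_sig_pow {M N : Submodule ℂ (LU G)} (h : M.map (sigL G) ≤ N) (n : ℕ) :
    (M ^ n).map (sigL G) ≤ N ^ n := by
  induction n with
  | zero =>
    rw [pow_zero, pow_zero, Submodule.map_le_iff_le_comap, Submodule.one_le]
    show sig (1 : LU G) ∈ (1 : Submodule ℂ (LU G))
    rw [sig_one]
    exact Submodule.one_le.1 le_rfl
  | succ n ih =>
    rw [pow_succ, pow_succ']
    exact (map_sig_mul _ _).trans (mul_le_mul' h ih)

theorem map_sig_QQ (a b : ℕ) : (QQ G a b).map (sigL G) ≤ QQ G b a := by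
  unfold QQ
  refine (map_sig_mul _ _).trans ?_
  rw [mul_assoc]
  exact mul_le_mul' (map_sig_pow map_sig_TT b) ((map_sig_mul _ _).trans
    (mul_le_mul' map_sig_VV (map_sig_pow map_sig_SS a)))

theorem sig_QQ {a b : ℕ} {x : LU G} (hx : x ∈ QQ G a b) : sig x ∈ QQ G b a :=
  map_sig_QQ a b ⟨x, hx, rfl⟩

theorem sig_MM {n : ℕ} {x : LU G} (hx : x ∈ MM G n) : sig x ∈ MM G n := by
  have h : MM G n ≤ (MM G n).comap (sigL G) := by
    refine iSup_le fun a => iSup₂_le fun b hab => ?_
    intro y hy
    show sig y ∈ MM G n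
    exact QQ_le_MM (by rwa [min_comm]) (sig_QQ hy)
  exact h hx

variable (G) in
/-- combinations of real paths of length at most `n` -/
noncomputable def RR (n : ℕ) : Submodule ℂ (LU G) := ⨆ a, ⨆ _ : a ≤ n, QQ G a 0

theorem QQ_le_RR {a n : ℕ} (h : a ≤ n) : QQ G a 0 ≤ RR G n := le_iSup₂_of_le a h le_rfl

theorem RR_le {n : ℕ} {N : Submodule ℂ (LU G)} (h : ∀ a, a ≤ n → QQ G a 0 ≤ N) : RR G n ≤ N :=
  iSup₂_le h

theorem RR_mono {m n : ℕ} (h : m ≤ n) : RR G m ≤ RR G n :=
  RR_le fun _ ha => QQ_le_RR (ha.trans h)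

theorem RR_le_Fil (n : ℕ) : RR G n ≤ Fil G n :=
  RR_le fun a ha => (QQ_le_Eg a 0).trans (Eg_le_Fil (by push_cast; omega))

theorem QQ00 : QQ G 0 0 = VV G := by
  unfold QQ; rw [pow_zero, pow_zero, one_mul, mul_one]

theorem RR_zero : RR G 0 ≤ VV G := by
  refine RR_le fun a ha => ?_
  have : a = 0 := by omega
  subst this
  rw [QQ00]

theorem RR_succ (n : ℕ) : RR G (n + 1) ≤ QQ G (n + 1) 0 ⊔ RR G n := by
  refine RR_le fun a ha => ?_
  rcases Nat.lt_or_ge n a with h | h
  · have : a = n + 1 := by omega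
    subst this
    exact le_sup_left
  · have h1 : QQ G a 0 ≤ RR G n := QQ_le_RR h
    exact h1.trans le_sup_right

/-- real paths of degree at most zero are vertices -/
theorem RR_Fil (n : ℕ) : ∀ x ∈ RR G n, x ∈ Fil G 0 → x ∈ VV G := by
  induction n with
  | zero => intro x hx _; exact RR_zero hx
  | succ n ih =>
    intro x hx h0
    obtain ⟨f, hf, g, hg, hfg⟩ := Submodule.mem_sup.1 (RR_succ n hx)
    have hfE : f ∈ Eg G ((n : ℤ) + 1) := by
      have := QQ_le_Eg (n + 1) 0 hf
      simpa using this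
    have h1 : f ∈ Fil G n := by
      have : f = x - g := by rw [← hfg]; abel
      rw [this]
      exact sub_mem (Fil_mono (by omega) h0) (RR_le_Fil n hg)
    have h2 := Eg_Fil (by omega) hfE h1
    have h3 : x = g := by rw [← hfg, h2, zero_add]
    rw [h3] at h0 ⊢
    exact ih g hg h0

/-- A central family with roots is constant at a vertex of Laurent type. -/
theorem laurent_const [Countable G.E] (ζ : Cen G) (hζ : Div ζ) (v : G.V)
    (h : ζ.z v ∈ MM G 0) : ∃ κ : ℂ, ζ.z v = κ • gP G v := by
  have key : ∀ (ζ : Cen G), Div ζ → ζ.z v ∈ MM G 0 → ζ.z v ∈ LL G 0 := by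
    intro ζ hζ h
    obtain ⟨n, hn⟩ := MM_zero_LL h
    exact laurent_nonpos ζ hζ v n hn
  have hA := key ζ hζ h
  have hB : sig (ζ.z v) ∈ LL G 0 := key ζ.sig hζ.sig (sig_MM h)
  have hC : sig (ζ.z v) ∈ ⨆ n, RR G n := by
    have h1 : LL G 0 ≤ (⨆ n, RR G n).comap (sigL G) := by
      refine LL_le (fun a ha y hy => ?_) (fun b y hy => ?_)
      · have : a = 0 := by omega
        subst this
        show sig y ∈ ⨆ n, RR G n
        have h2 : RR G 0 ≤ ⨆ n, RR G n := le_iSup (RR G) 0
        exact h2 (QQ_le_RR le_rfl (sig_QQ hy))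
      · show sig y ∈ ⨆ n, RR G n
        have h2 : RR G b ≤ ⨆ n, RR G n := le_iSup (RR G) b
        exact h2 (QQ_le_RR le_rfl (sig_QQ hy))
    exact h1 hA
  have hd : Directed (· ≤ ·) (RR G) := fun m n =>
    ⟨max m n, RR_mono (le_max_left _ _), RR_mono (le_max_right _ _)⟩
  obtain ⟨n, hn⟩ := (Submodule.mem_iSup_of_directed _ hd).1 hC
  have hF : sig (ζ.z v) ∈ Fil G 0 := by
    have := LL_le_Fil 0 hB
    exact_mod_cast this
  have hV := RR_Fil n _ hn hF
  have hV' : ζ.z v ∈ VV G := by
    have h1 : sig (sig (ζ.z v)) ∈ VV G := map_sig_VV ⟨_, hV, rfl⟩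
    rwa [sig_sig (ζ.mem v)] at h1
  obtain ⟨κ, hκ⟩ := VV_gP hV' v
  exact ⟨κ, by rw [← hκ, ζ.zP]⟩

theorem gS_ne_zero [Countable G.E] (e : G.E) : gS G e ≠ 0 := by
  intro h
  have h1 := gTS G e
  rw [h, mul_zero] at h1
  exact vert_ne_zero G (G.r e) h1.symm

/-- right multiplication by an edge is injective on real paths -/
theorem real_inj [Countable G.E] (f : G.E) (n : ℕ) : ∀ x ∈ RR G n,
    x * gP G (G.s f) = x → x * gS G f = 0 → x = 0 := by
  induction n with
  | zero =>
    intro x hx h1 h2
    obtain ⟨κ, hκ⟩ := VV_gP (RR_zero hx) (G.s f)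
    rw [h1] at hκ
    rw [hκ, smul_mul_assoc, gPS] at h2
    rcases smul_eq_zero.1 h2 with h | h
    · rw [hκ, h, zero_smul]
    · exact absurd h (gS_ne_zero f)
  | succ n ih =>
    intro x hx h1 h2
    obtain ⟨p, hp, q, hq, hpq⟩ := Submodule.mem_sup.1 (RR_succ n hx)
    set p' := p * gP G (G.s f) with hp'
    set q' := q * gP G (G.s f) with hq'
    have hp'Q : p' ∈ QQ G (n + 1) 0 :=
      QQ_VV _ _ (Submodule.mul_mem_mul hp (mem_VV _))
    have hq'R : q' ∈ RR G n := by
      have h : RR G n ≤ (RR G n).comap (LinearMap.mulRight ℂ (gP G (G.s f))) := by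
        refine RR_le fun a ha y hy => ?_
        show y * gP G (G.s f) ∈ RR G n
        exact QQ_le_RR ha (QQ_VV _ _ (Submodule.mul_mem_mul hy (mem_VV _)))
      exact h hq
    have hx' : x = p' + q' := by rw [← h1, ← hpq, add_mul]
    have hpE : p' ∈ Eg G ((n : ℤ) + 1) := by
      have := QQ_le_Eg (n + 1) 0 hp'Q
      simpa using this
    have hpS : p' * gS G f ∈ Eg G ((n : ℤ) + 1 + 1) := Eg_mul hpE (SS_le_Eg (mem_SS f))
    have hqS : p' * gS G f ∈ Fil G ((n : ℤ) + 1) := by
      have : p' * gS G f = -(q' * gS G f) := by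
        rw [hx', add_mul] at h2
        exact eq_neg_of_add_eq_zero_left h2
      rw [this]
      exact neg_mem (Fil_mul (RR_le_Fil n hq'R) (Eg_le_Fil le_rfl (SS_le_Eg (mem_SS f))))
    have h3 := Eg_Fil (by omega) hpS hqS
    have h4 : p' = 0 := by
      by_contra h0
      obtain ⟨b, _, κ, hκ, hb⟩ := top_dual (n + 1) hp'Q (v := G.s f)
        (by rw [hp', mul_assoc, gPP]) h0
      have h5 : b * (p' * gS G f) = κ • gS G f := by
        rw [← mul_assoc, hb, smul_mul_assoc, gPS]
      rw [h3, mul_zero] at h5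
      rcases smul_eq_zero.1 h5.symm with h | h
      · exact hκ h
      · exact gS_ne_zero f h
    have h6 : x = q' := by rw [hx', h4, zero_add]
    rw [h6] at h1 h2 ⊢
    exact ih q' hq'R h1 h2

/-! ## Locally constant elements -/

variable (G) in
/-- The integral subring generated by the generators. -/
noncomputable def LZ : NonUnitalSubring (LU G) := NonUnitalSubring.closure (Set.range (gen G))

/-- `y` is a combination of orthogonal integral idempotents of degree zero with sum `v`. -/
def Dec (v : G.V) (y : LU G) : Prop :=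
  ∃ (ι : Type) (_ : Fintype ι) (k : ι → ℂ) (ε : ι → LU G), (∀ i, ε i ∈ LZ G) ∧
    (∀ i, gau G (ε i) = ε i) ∧ (∀ i j, i ≠ j → ε i * ε j = 0) ∧ (∀ i, ε i * ε i = ε i) ∧
    ∑ i, ε i = gP G v ∧ ∑ i, k i • ε i = y

theorem gP_LZ (v : G.V) : gP G v ∈ LZ G := NonUnitalSubring.subset_closure ⟨Gen.vert v, rfl⟩
theorem gS_LZ (e : G.E) : gS G e ∈ LZ G := NonUnitalSubring.subset_closure ⟨Gen.edge e, rfl⟩
theorem gT_LZ (e : G.E) : gT G e ∈ LZ G := NonUnitalSubring.subset_closure ⟨Gen.ghost e, rfl⟩

theorem gau_corner (e : G.E) {x : LU G} (h : gau G x = x) :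
    gau G (gS G e * x * gT G e) = gS G e * x * gT G e := by
  rw [map_mul, map_mul, gau_S, gau_T, h, smul_mul_assoc, smul_mul_smul_comm]
  norm_num

theorem Dec.step (v : G.V) (A : Finset G.E) (hA : ∀ e ∈ A, G.s e = v) (y : G.E → LU G)
    (hy : ∀ e ∈ A, Dec (G.r e) (y e)) (κ : ℂ) :
    Dec v (κ • (gP G v - ∑ e ∈ A, gS G e * gT G e) + ∑ e ∈ A, gS G e * y e * gT G e) := by
  classical
  have hy' : ∀ e : {e // e ∈ A}, Dec (G.r e) (y e) := fun e => hy e e.2
  choose ι hι k ε hZ hg ho hi hs hk using hy'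
  have hPε : ∀ (e : {e // e ∈ A}) (i : ι e), gP G (G.r e) * ε e i = ε e i := by
    intro e i
    rw [← hs e, Finset.sum_mul, Finset.sum_eq_single i]
    · exact hi e i
    · intro j _ hj; exact ho e j i hj
    · intro h; exact absurd (Finset.mem_univ i) h
  set p := gP G v - ∑ e ∈ A, gS G e * gT G e with hp
  have hsumT : ∀ f ∈ A, (∑ e ∈ A, gS G e * gT G e) * gS G f = gS G f := by
    intro f hf
    rw [Finset.sum_mul, Finset.sum_eq_single f]
    · rw [mul_assoc, gTS, gSP]
    · intro e _ hef; rw [mul_assoc, gTSo G hef, mul_zero]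
    · intro h; exact absurd hf h
  have hTsum : ∀ f ∈ A, gT G f * (∑ e ∈ A, gS G e * gT G e) = gT G f := by
    intro f hf
    rw [Finset.mul_sum, Finset.sum_eq_single f]
    · rw [← mul_assoc, gTS, gPT]
    · intro e _ hef; rw [← mul_assoc, gTSo G (Ne.symm hef), zero_mul]
    · intro h; exact absurd hf h
  have hpS : ∀ f ∈ A, p * gS G f = 0 := by
    intro f hf
    rw [hp, sub_mul, hsumT f hf, ← hA f hf, gPS, sub_self]
  have hTp : ∀ f ∈ A, gT G f * p = 0 := by
    intro f hf
    rw [hp, mul_sub, hTsum f hf, ← hA f hf, gTP, sub_self]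
  have hpp : p * p = p := by
    have h1 : p * ∑ e ∈ A, gS G e * gT G e = 0 := by
      rw [Finset.mul_sum]
      apply Finset.sum_eq_zero
      intro e he
      rw [← mul_assoc, hpS e he, zero_mul]
    have h2 : p * gP G v = p := by
      rw [hp, sub_mul, gPP, Finset.sum_mul]
      congr 1
      apply Finset.sum_congr rfl
      intro e he
      rw [mul_assoc, ← hA e he, gTP]
    conv_lhs => rw [hp]
    rw [← hp]
    conv_lhs => rw [show p * p = p * (gP G v - ∑ e ∈ A, gS G e * gT G e) from by rw [← hp]]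
    rw [mul_sub, h2, h1, sub_zero]
  refine ⟨Option (Σ e : {e // e ∈ A}, ι e), inferInstance,
    fun o => o.elim κ (fun x => k x.1 x.2),
    fun o => o.elim p (fun x => gS G x.1 * ε x.1 x.2 * gT G x.1), ?_, ?_, ?_, ?_, ?_, ?_⟩
  · rintro (_ | ⟨e, i⟩)
    · show p ∈ LZ G
      exact sub_mem (gP_LZ v) (sum_mem fun e _ => mul_mem (gS_LZ e) (gT_LZ e))
    · exact mul_mem (mul_mem (gS_LZ _) (hZ e i)) (gT_LZ _)
  · rintro (_ | ⟨e, i⟩)
    · show gau G p = p
      rw [hp, map_sub, gau_P, map_sum]
      congr 1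
      apply Finset.sum_congr rfl
      intro e _
      rw [map_mul, gau_S, gau_T, smul_mul_smul_comm]; norm_num
    · exact gau_corner _ (hg e i)
  · rintro (_ | ⟨e, i⟩) (_ | ⟨f, j⟩) hne
    · exact absurd rfl hne
    · show p * (gS G f * ε f j * gT G f) = 0
      rw [← mul_assoc, ← mul_assoc, hpS f f.2, zero_mul, zero_mul]
    · show gS G e * ε e i * gT G e * p = 0
      rw [mul_assoc, hTp e e.2, mul_zero]
    · show gS G e * ε e i * gT G e * (gS G f * ε f j * gT G f) = 0
      by_cases hef : e = f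
      · subst hef
        have hij : i ≠ j := by
          rintro rfl; exact hne rfl
        calc gS G e * ε e i * gT G e * (gS G e * ε e j * gT G e)
            = gS G e * ε e i * ((gT G e * gS G e) * ε e j) * gT G e := by noncomm_ring
          _ = gS G e * (ε e i * ε e j) * gT G e := by rw [gTS, hPε, mul_assoc (gS G e)]
          _ = 0 := by rw [ho e i j hij, mul_zero, zero_mul]
      · have hef' : (e : G.E) ≠ f := fun h => hef (Subtype.ext h)
        calc gS G e * ε e i * gT G e * (gS G f * ε f j * gT G f)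
            = gS G e * ε e i * (gT G e * gS G f) * ε f j * gT G f := by noncomm_ring
          _ = 0 := by rw [gTSo G hef']; simp
  · rintro (_ | ⟨e, i⟩)
    · exact hpp
    · show gS G e * ε e i * gT G e * (gS G e * ε e i * gT G e) = gS G e * ε e i * gT G e
      calc gS G e * ε e i * gT G e * (gS G e * ε e i * gT G e)
          = gS G e * ε e i * ((gT G e * gS G e) * ε e i) * gT G e := by noncomm_ring
        _ = gS G e * (ε e i * ε e i) * gT G e := by rw [gTS, hPε, mul_assoc (gS G e)]
        _ = _ := by rw [hi]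
  · rw [Fintype.sum_option, Fintype.sum_sigma]
    show p + ∑ e : {e // e ∈ A}, ∑ i, gS G e * ε e i * gT G e = gP G v
    have h1 : ∀ e : {e // e ∈ A}, ∑ i, gS G e * ε e i * gT G e = gS G e * gT G e := by
      intro e
      rw [← Finset.sum_mul, ← Finset.mul_sum, hs e, gSP]
    rw [Finset.sum_congr rfl (fun e _ => h1 e),
      Finset.sum_coe_sort A (fun e => gS G e * gT G e), hp, sub_add_cancel]
  · rw [Fintype.sum_option, Fintype.sum_sigma]
    show κ • p + ∑ e : {e // e ∈ A}, ∑ i, k e i • (gS G e * ε e i * gT G e) = _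
    have h1 : ∀ e : {e // e ∈ A}, ∑ i, k e i • (gS G e * ε e i * gT G e) =
        gS G e * y e * gT G e := by
      intro e
      rw [← hk e, Finset.mul_sum, Finset.sum_mul]
      apply Finset.sum_congr rfl
      intro i _
      rw [mul_smul_comm, smul_mul_assoc]
    rw [Finset.sum_congr rfl (fun e _ => h1 e),
      Finset.sum_coe_sort A (fun e => gS G e * y e * gT G e)]

theorem UU_split : UU G ≤ (⨆ n, RR G n) ⊔ UU G * TT G := by
  refine iSup_le fun a => iSup_le fun b => ?_
  cases b with
  | zero =>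
    have h1 : QQ G a 0 ≤ RR G a := QQ_le_RR le_rfl
    have h2 : RR G a ≤ ⨆ n, RR G n := le_iSup (RR G) a
    exact (h1.trans h2).trans le_sup_left
  | succ b =>
    have h1 : QQ G a (b + 1) ≤ UU G * TT G := by
      rw [← QQ_TT]; exact mml (QQ_le_UU a b)
    exact h1.trans le_sup_right

theorem RR_split (n : ℕ) : RR G n ≤ VV G ⊔ (SS G * UU G ⊓ RR G n) := by
  refine RR_le fun a ha => ?_
  cases a with
  | zero => rw [QQ00]; exact le_sup_left
  | succ a =>
    have h1 : QQ G (a + 1) 0 ≤ SS G * UU G ⊓ RR G n := by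
      refine le_inf ?_ (QQ_le_RR ha)
      rw [← SS_QQ]; exact mmr (QQ_le_UU a 0)
    exact h1.trans le_sup_right

theorem corner_RR (v : G.V) (n : ℕ) {x : LU G} (hx : x ∈ RR G n) :
    gP G v * x * gP G v ∈ RR G n := by
  let N : Submodule ℂ (LU G) := (RR G n).comap
    ((LinearMap.mulRight ℂ (gP G v)).comp (LinearMap.mulLeft ℂ (gP G v)))
  have h : RR G n ≤ N := by
    refine RR_le fun a ha y hy => ?_
    show gP G v * y * gP G v ∈ RR G n
    exact QQ_le_RR ha (corner_QQ v a 0 hy)
  exact h hx

/-- The structure theorem: central families with roots are locally constant. -/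
theorem SL [Countable G.E] (ζ : Cen G) (hζ : Div ζ) (n : ℕ) :
    ∀ v, ζ.z v ∈ MM G n → Dec v (ζ.z v) := by
  classical
  induction n with
  | zero =>
    intro v h
    obtain ⟨κ, hκ⟩ := laurent_const ζ hζ v h
    have := Dec.step v ∅ (by simp) (fun _ => 0) (by simp) κ
    simpa [hκ] using this
  | succ n ih =>
    intro v h
    have hnext : ∀ e, G.s e = v → ζ.z (G.r e) ∈ MM G n := by
      intro e he
      rw [← ζ.TzS e, he]
      have := TT_MM_SS (n + 1)
        (Submodule.mul_mem_mul (Submodule.mul_mem_mul (mem_TT e) h) (mem_SS e))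
      simpa using this
    -- the final step
    have hfin : ∀ (A : Finset G.E) (κ : ℂ), (∀ e ∈ A, G.s e = v) →
        ζ.z v = κ • (gP G v - ∑ e ∈ A, gS G e * gT G e) + ∑ e ∈ A, gS G e * ζ.z (G.r e) * gT G e →
        Dec v (ζ.z v) := by
      intro A κ hA he
      rw [he]
      exact Dec.step v A hA (fun e => ζ.z (G.r e)) (fun e he' => ih _ (hnext e (hA e he'))) κ
    have hzST : ∀ e, G.s e = v → gS G e * ζ.z (G.r e) * gT G e = ζ.z v * (gS G e * gT G e) := by
      intro e he
      rw [← ζ.zS, he, mul_assoc]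
    by_cases hreg : G.Regular v
    · apply hfin hreg.2.toFinset 0 (fun e he => by simpa [DGraph.out] using he)
      rw [zero_smul, zero_add]
      conv_lhs => rw [← ζ.zP v, gCK G v hreg, Finset.mul_sum]
      apply Finset.sum_congr rfl
      intro e he
      have hse : G.s e = v := by simpa [DGraph.out] using he
      exact (hzST e hse).symm
    · -- singular vertex
      obtain ⟨y0, hy0, y1, hy1, hy⟩ := Submodule.mem_sup.1 (UU_split (leavitt_le_UU (ζ.mem v)))
      have hd : Directed (· ≤ ·) (RR G) := fun m n =>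
        ⟨max m n, RR_mono (le_max_left _ _), RR_mono (le_max_right _ _)⟩
      obtain ⟨m, hm⟩ := (Submodule.mem_iSup_of_directed _ hd).1 hy0
      have hm' := corner_RR v m hm
      obtain ⟨w, hw, u, hu, hwu⟩ := Submodule.mem_sup.1 (RR_split m hm')
      -- the pieces in the corner
      set w' := gP G v * w * gP G v with hw'
      set u' := gP G v * u * gP G v with hu'
      set x1 := gP G v * y1 * gP G v with hx1
      have hz : ζ.z v = w' + u' + x1 := by
        have h1 : ζ.z v = gP G v * ζ.z v * gP G v := by rw [ζ.Pz, ζ.zP]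
        rw [h1, ← hy, mul_add, add_mul]
        congr 1
        have h2 : gP G v * y0 * gP G v = gP G v * (gP G v * y0 * gP G v) * gP G v := by
          rw [← mul_assoc, ← mul_assoc, gPP, mul_assoc (gP G v * y0), gPP]
        rw [h2, ← hwu, mul_add, add_mul]
      have hw'V : w' ∈ VV G := VV_VV (Submodule.mul_mem_mul
        (VV_VV (Submodule.mul_mem_mul (mem_VV v) hw)) (mem_VV v))
      obtain ⟨κ, hκ⟩ : ∃ κ : ℂ, w' = κ • gP G v := by
        obtain ⟨κ, hκ⟩ := VV_gP hw'V v
        have h3 : w' * gP G v = w' := by rw [hw', mul_assoc (gP G v * w), gPP]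
        exact ⟨κ, by rw [← hκ, h3]⟩
      have hu'R : u' ∈ RR G m := corner_RR v m hu.2
      have hu'S : u' ∈ SS G * UU G := by
        have h1 : gP G v * u ∈ SS G * UU G := by
          have := Submodule.mul_mem_mul (mem_VV v) hu.1
          rw [← mul_assoc] at this
          exact mml VV_SS this
        have h2 := Submodule.mul_mem_mul h1 (mem_VV v)
        rw [mul_assoc] at h2
        exact mmr ((mmr VV_le_UU).trans UU_UU) h2
      have hx1T : x1 ∈ UU G * TT G := by
        have h1 : gP G v * y1 ∈ UU G * TT G := by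
          have := Submodule.mul_mem_mul (mem_VV v) hy1
          rw [← mul_assoc] at this
          exact mml VV_UU this
        have h2 := Submodule.mul_mem_mul h1 (mem_VV v)
        rw [mul_assoc] at h2
        exact mmr TT_VV h2
      obtain ⟨A1, hA1⟩ := TT_expand hx1T
      obtain ⟨A2, hA2⟩ := SS_expand hu'S
      have hx1P : x1 * gP G v = x1 := by rw [hx1, mul_assoc, gPP]
      have hu'P : u' * gP G v = u' := by rw [hu', mul_assoc, gPP]
      have hPu' : gP G v * u' = u' := by rw [hu', ← mul_assoc, ← mul_assoc, gPP]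
      -- `u' = 0`
      have hu0 : u' = 0 := by
        by_cases hne : (G.out v).Nonempty
        · have hinf : (G.out v).Infinite := fun hf => hreg ⟨hne, hf⟩
          obtain ⟨f, hf, hfA⟩ := hinf.exists_notMem_finset (A1 ∪ A2)
          have hfs : G.s f = v := hf
          rw [Finset.mem_union, not_or] at hfA
          have hx1f : x1 * gS G f = 0 := by
            rw [hA1 A1 (Finset.Subset.refl _), Finset.sum_mul]
            apply Finset.sum_eq_zero
            intro e he
            rw [mul_assoc, gTSo G (by rintro rfl; exact hfA.1 he), mul_zero]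
          have hTu : gT G f * u' = 0 := by
            rw [hA2 A2 (Finset.Subset.refl _), Finset.mul_sum]
            apply Finset.sum_eq_zero
            intro e he
            rw [← mul_assoc, gTSo G (by rintro rfl; exact hfA.2 he), zero_mul]
          have hzr : ζ.z (G.r f) = κ • gP G (G.r f) := by
            rw [← ζ.TzS f, hfs, hz, mul_add, mul_add, hTu, add_zero, add_mul, mul_assoc _ x1,
              hx1f, mul_zero, add_zero, hκ, mul_smul_comm, ← hfs, gTP, smul_mul_assoc, gTS]
          have h1 := ζ.zS f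
          rw [hzr, hfs, hz, add_mul, add_mul, hx1f, add_zero, hκ, smul_mul_assoc,
            mul_smul_comm, gSP] at h1
          rw [← hfs, gPS] at h1
          have h2 : u' * gS G f = 0 := by
            have := h1
            rwa [add_eq_left] at this
          exact real_inj f m u' hu'R (by rw [hfs]; exact hu'P) h2
        · -- sink
          rw [hA2 A2 (Finset.Subset.refl _)]
          have hne' : ∀ e, G.s e ≠ v := fun e he => hne ⟨e, he⟩
          apply Finset.sum_eq_zero
          intro e _
          have : gT G e * u' = 0 := by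
            rw [← hPu', ← mul_assoc, gTP' G (hne' e), zero_mul]
          rw [this, mul_zero]
      -- conclusion
      apply hfin (A1.filter fun e => G.s e = v) κ (fun e he => (Finset.mem_filter.1 he).2)
      have h1 : x1 = ∑ e ∈ A1.filter (fun e => G.s e = v), x1 * (gS G e * gT G e) := by
        conv_lhs => rw [hA1 A1 (Finset.Subset.refl _)]
        rw [Finset.sum_filter]
        apply Finset.sum_congr rfl
        intro e _
        split_ifs with he
        · rw [mul_assoc]
        · rw [← hx1P, mul_assoc x1, gPS' G he, mul_zero, zero_mul]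
      have h2 : ζ.z v = κ • gP G v + x1 := by rw [hz, hu0, add_zero, hκ]
      have h3 : ∀ e ∈ A1.filter (fun e => G.s e = v), x1 * (gS G e * gT G e) =
          gS G e * ζ.z (G.r e) * gT G e - κ • (gS G e * gT G e) := by
        intro e he
        have hse := (Finset.mem_filter.1 he).2
        rw [hzST e hse, h2, add_mul, smul_mul_assoc]
        have : gP G v * (gS G e * gT G e) = gS G e * gT G e := by
          rw [← mul_assoc, ← hse, gPS]
        rw [this]
        abel
      rw [Finset.sum_congr rfl h3, Finset.sum_sub_distrib, ← Finset.smul_sum] at h1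
      rw [h2, h1, smul_sub]
      abel

end Pool.Agent.GHT
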