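import Pool.Agent.GHT.Fam

/-! # Straightening, steps 1 and 2 (Gram-Schmidt for vertices and edges) -/

set_option linter.unusedSectionVars false

namespace Pool.Agent.GHT

namespace LFam

variable {G : DGraph} [Encodable G.V] [Encodable G.E]
  {B : Type} [NonUnitalCStarAlgebra B] (Φ : LFam G B)

/-- The frame of the vertices. -/
noncomputable def vF : Frame B where
  U := extN Φ.P
  W := extN Φ.P
  Q := extN Φ.P
  WU i := by
    rcases extN_cases (α := G.V) (B := B) i with ⟨a, rfl⟩ | h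
    · rw [extN_encode, Φ.PP]
    · rw [h, mul_zero]
  WUo i j hij := by
    rcases extN_cases (α := G.V) (B := B) i with ⟨a, rfl⟩ | h
    · rcases extN_cases (α := G.V) (B := B) j with ⟨b, rfl⟩ | h'
      · rw [extN_encode, extN_encode, Φ.PPo]
        rintro rfl
        exact hij rfl
      · rw [h', mul_zero]
    · rw [h, zero_mul]
  UQ i := by
    rcases extN_cases (α := G.V) (B := B) i with ⟨a, rfl⟩ | h
    · rw [extN_encode, Φ.PP]
    · rw [h, mul_zero]
  QW i := by
    rcases extN_cases (α := G.V) (B := B) i with ⟨a, rfl⟩ | h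
    · rw [extN_encode, Φ.PP]
    · rw [h, mul_zero]

/-- Step 1: the vertices are moved. -/
noncomputable def st1 (τ : ℕ → ℂ) (hτ : ∀ n k, n < k → (1 - τ n) * τ k = 0) : LFam G B :=
  Φ.move (fun v => Φ.vF.GU τ (Encodable.encode v)) (fun v => Φ.vF.GW τ (Encodable.encode v))
    (fun v => by
      rw [Φ.vF.GW_GU_self]
      exact extN_encode Φ.P v)
    (fun v v' h => Φ.vF.GW_GU_ne τ hτ _ _ (fun h' => h (Encodable.encode_injective h')))
    (fun v => by
      have := Φ.vF.GU_Q τ (Encodable.encode v)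
      have h2 : Φ.vF.Q (Encodable.encode v) = Φ.P v := extN_encode Φ.P v
      rwa [h2] at this)
    (fun v => by
      have := Φ.vF.Q_GW τ (Encodable.encode v)
      have h2 : Φ.vF.Q (Encodable.encode v) = Φ.P v := extN_encode Φ.P v
      rwa [h2] at this)

theorem one_par : ∀ n k : ℕ, n < k → (1 - (fun _ : ℕ => (1 : ℂ)) n) * (fun _ : ℕ => (1 : ℂ)) k = 0 := by
  intro n k _; simp

theorem zero_par : ∀ n k : ℕ, n < k → (1 - (fun _ : ℕ => (0 : ℂ)) n) * (fun _ : ℕ => (0 : ℂ)) k = 0 := by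
  intro n k _; simp

/-- The result of step 1. -/
noncomputable def F1 : LFam G B := Φ.st1 (fun _ => 1) one_par

theorem F1_sa (v : G.V) : star (Φ.F1.P v) = Φ.F1.P v := by
  have h : Φ.F1.P v = Φ.vF.p (Encodable.encode v) := Φ.vF.GU_GW_one _
  rw [h, Φ.vF.p_star]

theorem st1_zero : Φ.st1 (fun _ => 0) zero_par = Φ := by
  have hU : ∀ v : G.V, Φ.vF.GU (fun _ => 0) (Encodable.encode v) = Φ.P v := by
    intro v
    rw [Φ.vF.GU_zero]
    exact extN_encode Φ.P v
  have hW : ∀ v : G.V, Φ.vF.GW (fun _ => 0) (Encodable.encode v) = Φ.P v := by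
    intro v
    rw [Φ.vF.GW_zero]
    exact extN_encode Φ.P v
  ext x
  · show Φ.vF.GU (fun _ => 0) (Encodable.encode x) * Φ.vF.GW (fun _ => 0) (Encodable.encode x) = _
    rw [hU, hW, Φ.PP]
  · show Φ.vF.GU (fun _ => 0) (Encodable.encode (G.s x)) * Φ.S x *
      Φ.vF.GW (fun _ => 0) (Encodable.encode (G.r x)) = _
    rw [hU, hW, Φ.PS, Φ.SP]
  · show Φ.vF.GU (fun _ => 0) (Encodable.encode (G.r x)) * Φ.T x *
      Φ.vF.GW (fun _ => 0) (Encodable.encode (G.s x)) = _
    rw [hU, hW, Φ.PT, Φ.TP]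

theorem F1_fix (hP : ∀ v, star (Φ.P v) = Φ.P v) : Φ.F1 = Φ := by
  have hs : ∀ i, star (Φ.vF.U i * Φ.vF.W i) = Φ.vF.U i * Φ.vF.W i := by
    intro i
    show star (extN Φ.P i * extN Φ.P i) = extN Φ.P i * extN Φ.P i
    rcases extN_cases (α := G.V) (B := B) i with ⟨a, rfl⟩ | h
    · rw [extN_encode, Φ.PP, hP]
    · rw [h, mul_zero, star_zero]
  have hU : ∀ v : G.V, Φ.vF.GU (fun _ => 1) (Encodable.encode v) = Φ.P v := by
    intro v
    rw [Φ.vF.GU_fix hs]
    exact extN_encode Φ.P v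
  have hW : ∀ v : G.V, Φ.vF.GW (fun _ => 1) (Encodable.encode v) = Φ.P v := by
    intro v
    rw [Φ.vF.GW_fix hs]
    exact extN_encode Φ.P v
  ext x
  · show Φ.vF.GU (fun _ => 1) (Encodable.encode x) * Φ.vF.GW (fun _ => 1) (Encodable.encode x) = _
    rw [hU, hW, Φ.PP]
  · show Φ.vF.GU (fun _ => 1) (Encodable.encode (G.s x)) * Φ.S x *
      Φ.vF.GW (fun _ => 1) (Encodable.encode (G.r x)) = _
    rw [hU, hW, Φ.PS, Φ.SP]
  · show Φ.vF.GU (fun _ => 1) (Encodable.encode (G.r x)) * Φ.T x *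
      Φ.vF.GW (fun _ => 1) (Encodable.encode (G.s x)) = _
    rw [hU, hW, Φ.PT, Φ.TP]

/-! ### Step 2 -/

open Classical in
/-- The frame of the edges emitted by `v`. -/
noncomputable def eF (v : G.V) : Frame B where
  U := extN fun e => if G.s e = v then Φ.S e else 0
  W := extN fun e => if G.s e = v then Φ.T e else 0
  Q := extN fun e => if G.s e = v then Φ.P (G.r e) else 0
  WU i := by
    rcases extN_cases (α := G.E) (B := B) i with ⟨a, rfl⟩ | h
    · rw [extN_encode, extN_encode, extN_encode]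
      split_ifs with hv
      · exact Φ.TS a
      · rw [mul_zero]
    · rw [h, h, h, mul_zero]
  WUo i j hij := by
    rcases extN_cases (α := G.E) (B := B) i with ⟨a, rfl⟩ | h
    · rcases extN_cases (α := G.E) (B := B) j with ⟨b, rfl⟩ | h'
      · rw [extN_encode, extN_encode]
        split_ifs with hv hw
        · apply Φ.TSo
          rintro rfl
          exact hij rfl
        · rw [mul_zero]
        · rw [zero_mul]
        · rw [mul_zero]
      · rw [h', mul_zero]
    · rw [h, zero_mul]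
  UQ i := by
    rcases extN_cases (α := G.E) (B := B) i with ⟨a, rfl⟩ | h
    · rw [extN_encode, extN_encode]
      split_ifs with hv
      · exact Φ.SP a
      · rw [mul_zero]
    · rw [h, h, mul_zero]
  QW i := by
    rcases extN_cases (α := G.E) (B := B) i with ⟨a, rfl⟩ | h
    · rw [extN_encode, extN_encode]
      split_ifs with hv
      · exact Φ.PT a
      · rw [mul_zero]
    · rw [h, h, mul_zero]

theorem eF_U (e : G.E) : (Φ.eF (G.s e)).U (Encodable.encode e) = Φ.S e := by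
  show extN _ _ = _
  rw [extN_encode, if_pos rfl]

theorem eF_W (e : G.E) : (Φ.eF (G.s e)).W (Encodable.encode e) = Φ.T e := by
  show extN _ _ = _
  rw [extN_encode, if_pos rfl]

theorem eF_Q (e : G.E) : (Φ.eF (G.s e)).Q (Encodable.encode e) = Φ.P (G.r e) := by
  show extN _ _ = _
  rw [extN_encode, if_pos rfl]

theorem eF_unit_U (v : G.V) (i : ℕ) : Φ.P v * (Φ.eF v).U i = (Φ.eF v).U i := by
  show Φ.P v * extN _ _ = extN _ _
  rcases extN_cases (α := G.E) (B := B) i with ⟨a, rfl⟩ | h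
  · rw [extN_encode]
    split_ifs with hv
    · rw [← hv]; exact Φ.PS a
    · rw [mul_zero]
  · rw [h, mul_zero]

theorem eF_W_unit (v : G.V) (i : ℕ) : (Φ.eF v).W i * Φ.P v = (Φ.eF v).W i := by
  show extN _ _ * Φ.P v = extN _ _
  rcases extN_cases (α := G.E) (B := B) i with ⟨a, rfl⟩ | h
  · rw [extN_encode]
    split_ifs with hv
    · rw [← hv]; exact Φ.TP a
    · rw [zero_mul]
  · rw [h, zero_mul]

theorem eF_sum (v : G.V) (h : G.Regular v) (N : ℕ)
    (hN : ∀ e ∈ h.2.toFinset, Encodable.encode e < N) : (Φ.eF v).E N = Φ.P v := by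
  classical
  have h1 : ∀ i, (Φ.eF v).U i * (Φ.eF v).W i =
      extN (fun e => if G.s e = v then Φ.S e * Φ.T e else 0) i := by
    intro i
    show extN _ _ * extN _ _ = extN _ _
    rcases extN_cases (α := G.E) (B := B) i with ⟨a, rfl⟩ | h
    · rw [extN_encode, extN_encode, extN_encode]
      split_ifs with hv
      · rfl
      · rw [mul_zero]
    · rw [h, h, h, mul_zero]
  unfold Frame.E
  rw [Finset.sum_congr rfl (fun i _ => h1 i), sum_extN _ h.2.toFinset _ N hN, Φ.CK v h]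
  · apply Finset.sum_congr rfl
    intro e he
    have hse : G.s e = v := by simpa [DGraph.out] using he
    rw [if_pos hse]
  · intro e he
    have hse : G.s e ≠ v := by
      intro h'
      apply he
      simpa [DGraph.out] using h'
    rw [if_neg hse]

theorem eF_GU_off (τ : ℕ → ℂ) (v : G.V) (i : ℕ) (h : (Φ.eF v).U i = 0) :
    (Φ.eF v).GU τ i = 0 := by
  unfold Frame.GU
  rw [h]
  simp

theorem eF_sum_GU (τ : ℕ → ℂ) (hτ : ∀ n k, n < k → (1 - τ n) * τ k = 0)
    (hP : ∀ v, star (Φ.P v) = Φ.P v) (v : G.V) (h : G.Regular v) :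
    Φ.P v = ∑ e ∈ h.2.toFinset, (Φ.eF (G.s e)).GU τ (Encodable.encode e) *
      (Φ.eF (G.s e)).GW τ (Encodable.encode e) := by
  classical
  obtain ⟨N, hN⟩ : ∃ N : ℕ, ∀ e ∈ h.2.toFinset, Encodable.encode e < N := by
    refine ⟨(h.2.toFinset.sup fun e => Encodable.encode e) + 1, fun e he => ?_⟩
    exact Nat.lt_succ_of_le (Finset.le_sup (f := fun e => Encodable.encode e) he)
  have h0 := Φ.eF_sum v h N hN
  have h1 := (Φ.eF v).sum_GU_GW τ hτ N (by rw [h0, hP])
  rw [h0] at h1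
  rw [← h1]
  have h2 : ∀ i, (Φ.eF v).GU τ i * (Φ.eF v).GW τ i =
      extN (fun e : G.E => (Φ.eF v).GU τ (Encodable.encode e) *
        (Φ.eF v).GW τ (Encodable.encode e)) i := by
    intro i
    rcases extN_cases (α := G.E) (B := B) i with ⟨a, rfl⟩ | h
    · rw [extN_encode]
    · rw [h, Φ.eF_GU_off τ v i (h _), zero_mul]
  rw [Finset.sum_congr rfl (fun i _ => h2 i), sum_extN _ h.2.toFinset _ N hN]
  · apply Finset.sum_congr rfl
    intro e he
    have hse : G.s e = v := by simpa [DGraph.out] using he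
    rw [hse]
  · intro e he
    have hse : G.s e ≠ v := by
      intro h'
      apply he
      simpa [DGraph.out] using h'
    rw [Φ.eF_GU_off τ v _, zero_mul]
    show extN _ _ = _
    rw [extN_encode, if_neg hse]

/-- Step 2: the edges are moved. -/
noncomputable def st2 (τ : ℕ → ℂ) (hτ : ∀ n k, n < k → (1 - τ n) * τ k = 0)
    (hP : ∀ v, star (Φ.P v) = Φ.P v) : LFam G B where
  P := Φ.P
  S e := (Φ.eF (G.s e)).GU τ (Encodable.encode e)
  T e := (Φ.eF (G.s e)).GW τ (Encodable.encode e)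
  PP := Φ.PP
  PPo := Φ.PPo
  PS e := (Φ.eF (G.s e)).unit_GU τ (Φ.eF_unit_U (G.s e)) _
  SP e := by
    have := (Φ.eF (G.s e)).GU_Q τ (Encodable.encode e)
    rwa [Φ.eF_Q] at this
  PT e := by
    have := (Φ.eF (G.s e)).Q_GW τ (Encodable.encode e)
    rwa [Φ.eF_Q] at this
  TP e := (Φ.eF (G.s e)).GW_unit τ (hP _) (Φ.eF_unit_U (G.s e)) (Φ.eF_W_unit (G.s e)) _
  TS e := by
    have := (Φ.eF (G.s e)).GW_GU_self τ (Encodable.encode e)
    rwa [Φ.eF_Q] at this
  TSo e f h := by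
    by_cases hs : G.s e = G.s f
    · rw [← hs]
      apply (Φ.eF (G.s e)).GW_GU_ne τ hτ
      intro h'
      exact h (Encodable.encode_injective h')
    · rw [← (Φ.eF (G.s e)).GW_unit τ (hP _) (Φ.eF_unit_U (G.s e)) (Φ.eF_W_unit (G.s e)),
        ← (Φ.eF (G.s f)).unit_GU τ (Φ.eF_unit_U (G.s f)), mul_assoc, ← mul_assoc (Φ.P (G.s e)),
        Φ.PPo _ _ hs, zero_mul, mul_zero]
  CK v h := Φ.eF_sum_GU τ hτ hP v h

theorem st2_zero (hP : ∀ v, star (Φ.P v) = Φ.P v) : Φ.st2 (fun _ => 0) zero_par hP = Φ := by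
  ext x
  · rfl
  · show (Φ.eF (G.s x)).GU (fun _ => 0) (Encodable.encode x) = _
    rw [Frame.GU_zero, Φ.eF_U]
  · show (Φ.eF (G.s x)).GW (fun _ => 0) (Encodable.encode x) = _
    rw [Frame.GW_zero, Φ.eF_W]

theorem st2_fix (hP : ∀ v, star (Φ.P v) = Φ.P v)
    (hT : ∀ e, star (Φ.S e * Φ.T e) = Φ.S e * Φ.T e) : Φ.st2 (fun _ => 1) one_par hP = Φ := by
  have hs : ∀ v i, star ((Φ.eF v).U i * (Φ.eF v).W i) = (Φ.eF v).U i * (Φ.eF v).W i := by
    intro v i
    show star (extN _ _ * extN _ _) = extN _ _ * extN _ _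
    rcases extN_cases (α := G.E) (B := B) i with ⟨a, rfl⟩ | h
    · rw [extN_encode, extN_encode]
      split_ifs with hv
      · exact hT a
      · rw [mul_zero, star_zero]
    · rw [h, zero_mul, star_zero]
  ext x
  · rfl
  · show (Φ.eF (G.s x)).GU (fun _ => 1) (Encodable.encode x) = _
    rw [Frame.GU_fix _ (hs _), Φ.eF_U]
  · show (Φ.eF (G.s x)).GW (fun _ => 1) (Encodable.encode x) = _
    rw [Frame.GW_fix _ (hs _), Φ.eF_W]

/-- The result of step 2. -/
noncomputable def F2 (hP : ∀ v, star (Φ.P v) = Φ.P v) : LFam G B :=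
  Φ.st2 (fun _ => 1) one_par hP

theorem F2_sa (hP : ∀ v, star (Φ.P v) = Φ.P v) (e : G.E) :
    star ((Φ.F2 hP).S e * (Φ.F2 hP).T e) = (Φ.F2 hP).S e * (Φ.F2 hP).T e := by
  have h : (Φ.F2 hP).S e * (Φ.F2 hP).T e = (Φ.eF (G.s e)).p (Encodable.encode e) :=
    (Φ.eF (G.s e)).GU_GW_one _
  rw [h, Frame.p_star]

/-! ### Naturality -/

theorem map_vF {D : Type} [NonUnitalCStarAlgebra D] (π : B →⋆ₙₐ[ℂ] D) :
    (Φ.map π).vF = Φ.vF.map π := by
  have h : ∀ i, extN (fun v => π (Φ.P v)) i = π (extN Φ.P i) := by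
    intro i
    rcases extN_cases (α := G.V) (B := B) i with ⟨a, rfl⟩ | h
    · rw [extN_encode, extN_encode]
    · rcases extN_cases (α := G.V) (B := D) i with ⟨a, rfl⟩ | h'
      · rw [extN_encode, extN_encode]
      · rw [h, h', map_zero]
  unfold vF Frame.map
  congr 1 <;> · funext i; exact h i

theorem map_F1 {D : Type} [NonUnitalCStarAlgebra D] (π : B →⋆ₙₐ[ℂ] D) :
    (Φ.map π).F1 = Φ.F1.map π := by
  have hU : ∀ i, (Φ.map π).vF.GU (fun _ => 1) i = π (Φ.vF.GU (fun _ => 1) i) := by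
    intro i; rw [map_vF, Frame.map_GU]
  have hW : ∀ i, (Φ.map π).vF.GW (fun _ => 1) i = π (Φ.vF.GW (fun _ => 1) i) := by
    intro i; rw [map_vF, Frame.map_GW]
  ext x
  · show (Φ.map π).vF.GU (fun _ => 1) (Encodable.encode x) *
      (Φ.map π).vF.GW (fun _ => 1) (Encodable.encode x) =
      π (Φ.vF.GU (fun _ => 1) (Encodable.encode x) * Φ.vF.GW (fun _ => 1) (Encodable.encode x))
    rw [hU, hW, map_mul]
  · show (Φ.map π).vF.GU (fun _ => 1) (Encodable.encode (G.s x)) * π (Φ.S x) *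
      (Φ.map π).vF.GW (fun _ => 1) (Encodable.encode (G.r x)) =
      π (Φ.vF.GU (fun _ => 1) (Encodable.encode (G.s x)) * Φ.S x *
        Φ.vF.GW (fun _ => 1) (Encodable.encode (G.r x)))
    rw [hU, hW, map_mul, map_mul]
  · show (Φ.map π).vF.GU (fun _ => 1) (Encodable.encode (G.r x)) * π (Φ.T x) *
      (Φ.map π).vF.GW (fun _ => 1) (Encodable.encode (G.s x)) =
      π (Φ.vF.GU (fun _ => 1) (Encodable.encode (G.r x)) * Φ.T x *
        Φ.vF.GW (fun _ => 1) (Encodable.encode (G.s x)))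
    rw [hU, hW, map_mul, map_mul]

theorem map_eF {D : Type} [NonUnitalCStarAlgebra D] (π : B →⋆ₙₐ[ℂ] D) (v : G.V) :
    (Φ.map π).eF v = (Φ.eF v).map π := by
  classical
  have h : ∀ (f : G.E → B) (i : ℕ), extN (fun e => if G.s e = v then π (f e) else 0) i =
      π (extN (fun e => if G.s e = v then f e else 0) i) := by
    intro f i
    rcases extN_cases (α := G.E) (B := B) i with ⟨a, rfl⟩ | h
    · rw [extN_encode, extN_encode]
      split_ifs
      · rfl
      · rw [map_zero]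
    · rcases extN_cases (α := G.E) (B := D) i with ⟨a, rfl⟩ | h'
      · rw [extN_encode, extN_encode]
        split_ifs
        · rfl
        · rw [map_zero]
      · rw [h, h', map_zero]
  unfold eF Frame.map
  congr 1
  · funext i; exact h _ i
  · funext i; exact h _ i
  · funext i; exact h _ i

theorem map_F2 {D : Type} [NonUnitalCStarAlgebra D] (π : B →⋆ₙₐ[ℂ] D)
    (hP : ∀ v, star (Φ.P v) = Φ.P v) (hP' : ∀ v, star ((Φ.map π).P v) = (Φ.map π).P v) :
    (Φ.map π).F2 hP' = (Φ.F2 hP).map π := by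
  ext x
  · rfl
  · show ((Φ.map π).eF (G.s x)).GU (fun _ => 1) (Encodable.encode x) =
      π ((Φ.eF (G.s x)).GU (fun _ => 1) (Encodable.encode x))
    rw [map_eF, Frame.map_GU]
  · show ((Φ.map π).eF (G.s x)).GW (fun _ => 1) (Encodable.encode x) =
      π ((Φ.eF (G.s x)).GW (fun _ => 1) (Encodable.encode x))
    rw [map_eF, Frame.map_GW]

end LFam

end Pool.Agent.GHT
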