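import Pool.Agent.GHT.St12

/-! # Straightening, step 3 (polar decomposition) -/

set_option linter.unusedSectionVars false
set_option linter.style.haveILetI false

namespace Pool.Agent.GHT

open scoped unitInterval

section ksq

variable {B : Type} [NonUnitalCStarAlgebra B]

/-- `ksq T = (T T*)^(1/2)`. -/
noncomputable def ksq (T : B) : B :=
  letI := CStarAlgebra.spectralOrder B
  letI := CStarAlgebra.spectralOrderedRing B
  CFC.sqrt (T * star T)

theorem ksq_form (T : B) : ∃ c : B, ksq T = star c * c := by
  letI := CStarAlgebra.spectralOrder B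
  letI := CStarAlgebra.spectralOrderedRing B
  exact CStarAlgebra.nonneg_iff_eq_star_mul_self.1 (CFC.sqrt_nonneg (T * star T))

theorem ksq_star (T : B) : star (ksq T) = ksq T := by
  obtain ⟨c, hc⟩ := ksq_form T
  rw [hc, star_mul, star_star]

theorem ksq_sq (T : B) : ksq T * ksq T = T * star T := by
  letI := CStarAlgebra.spectralOrder B
  letI := CStarAlgebra.spectralOrderedRing B
  exact CFC.sqrt_mul_sqrt_self (T * star T) (mul_star_self_nonneg T)

theorem ksq_unique (T c : B) (h : (star c * c) * (star c * c) = T * star T) :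
    ksq T = star c * c := by
  letI := CStarAlgebra.spectralOrder B
  letI := CStarAlgebra.spectralOrderedRing B
  exact CFC.sqrt_unique h (star_mul_self_nonneg c)

theorem map_ksq {D : Type} [NonUnitalCStarAlgebra D] (π : B →⋆ₙₐ[ℂ] D) (T : B) :
    ksq (π T) = π (ksq T) := by
  obtain ⟨c, hc⟩ := ksq_form T
  have h : π (ksq T) = star (π c) * π c := by rw [hc, map_mul, map_star]
  rw [h]
  apply ksq_unique
  rw [← h, ← map_mul, ksq_sq, map_mul, map_star]

theorem ksq_proj (T q : B) (h : T * star T = q) (hs : star q = q) (hq : q * q = q) :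
    ksq T = q := by
  have : star q * q = q := by rw [hs, hq]
  rw [ksq_unique T q (by rw [this, hq, h]), this]

end ksq

/-- The data of step 3 in one corner. -/
structure Corner {B : Type} [NonUnitalCStarAlgebra B] (q S T : B) : Prop where
  qs : star q = q
  qq : q * q = q
  Sq : S * q = S
  qT : q * T = T
  TS : T * S = q
  st : star (S * T) = S * T

namespace Corner

variable {B : Type} [NonUnitalCStarAlgebra B] {q S T : B}

theorem qk (h : Corner q S T) : q * ksq T = ksq T := by
  set k := ksq T with hk
  have hks : star k = k := ksq_star T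
  have hk2 : k * k = T * star T := ksq_sq T
  have h1 : (q * k - k) * star (q * k - k) = 0 := by
    rw [star_sub, star_mul, hks, h.qs]
    have : (q * k - k) * (k * q - k) = q * (k * k) * q - q * (k * k) - (k * k) * q + k * k := by
      noncomm_ring
    rw [this, hk2]
    have e1 : q * (T * star T) = T * star T := by rw [← mul_assoc, h.qT]
    have e2 : (T * star T) * q = T * star T := by
      have := congrArg star e1
      simpa [star_mul, h.qs] using this
    rw [e1, e2]
    abel
  rw [CStarRing.mul_star_self_eq_zero_iff] at h1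
  exact sub_eq_zero.1 h1

theorem kq (h : Corner q S T) : ksq T * q = ksq T := by
  have := congrArg star h.qk
  rwa [star_mul, ksq_star, h.qs] at this

theorem xTT (h : Corner q S T) : star S * S * (T * star T) = q := by
  calc star S * S * (T * star T) = star S * (S * T) * star T := by noncomm_ring
    _ = star (T * (S * T) * S) := by
        rw [star_mul, star_mul, h.st]; noncomm_ring
    _ = star ((T * S) * (T * S)) := by congr 1; noncomm_ring
    _ = q := by rw [h.TS, h.qq, h.qs]

theorem TTx (h : Corner q S T) : (T * star T) * (star S * S) = q := by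
  have := congrArg star h.xTT
  simpa [star_mul, h.qs] using this

theorem qx (h : Corner q S T) : q * (star S * S) = star S * S := by
  have : q * star S = star S := by
    have := congrArg star h.Sq
    rwa [star_mul, h.qs] at this
  rw [← mul_assoc, this]

theorem xq (h : Corner q S T) : (star S * S) * q = star S * S := by
  rw [mul_assoc, h.Sq]

/-- The corner inverse of `ksq T`. -/
theorem xk_eq (h : Corner q S T) : (star S * S) * ksq T = ksq T * (star S * S) := by
  set k := ksq T with hk
  set x := star S * S with hx
  have hk2 : k * k = T * star T := ksq_sq T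
  have h1 : x * (k * k) = q := by rw [hk2]; exact h.xTT
  have h2 : (k * k) * x = q := by rw [hk2]; exact h.TTx
  calc x * k = x * k * q := by rw [mul_assoc x k q, h.kq]
    _ = x * k * ((k * k) * x) := by rw [h2]
    _ = (x * (k * k)) * (k * x) := by noncomm_ring
    _ = k * x := by rw [h1, ← mul_assoc, h.qk]

theorem kn (h : Corner q S T) : ksq T * ((star S * S) * ksq T) = q := by
  rw [h.xk_eq, ← mul_assoc, ksq_sq, h.TTx]

theorem nk (h : Corner q S T) : ((star S * S) * ksq T) * ksq T = q := by
  rw [mul_assoc, ksq_sq, h.xTT]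

theorem qn (h : Corner q S T) : q * ((star S * S) * ksq T) = (star S * S) * ksq T := by
  rw [← mul_assoc, h.qx]

theorem nq (h : Corner q S T) : ((star S * S) * ksq T) * q = (star S * S) * ksq T := by
  rw [mul_assoc, h.kq]

theorem star_Sk (h : Corner q S T) : star (S * ksq T) = ((star S * S) * ksq T) * T := by
  rw [h.xk_eq, star_mul, ksq_star]
  calc ksq T * star S = ksq T * star (S * q) := by rw [h.Sq]
    _ = ksq T * star ((S * T) * S) := by rw [← h.TS]; congr 2; noncomm_ring
    _ = ksq T * (star S * (S * T)) := by rw [star_mul, h.st]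
    _ = _ := by noncomm_ring

end Corner

/-- The unit in the path of step 3. -/
theorem isUnit_path {U : Type} [CStarAlgebra U] (k q n c : U) (hc : k = star c * c)
    (qs : star q = q) (qq : q * q = q) (kq : k * q = k) (qk : q * k = k) (kn : k * n = q)
    (nk : n * k = q) (qn : q * n = n) (nq : n * q = n) (t : ℝ) (h0 : 0 ≤ t) (h1 : t ≤ 1) :
    IsUnit (1 + (t : ℂ) • (k - q)) := by
  letI := CStarAlgebra.spectralOrder U
  letI := CStarAlgebra.spectralOrderedRing U
  rcases eq_or_lt_of_le h1 with h | h
  · subst h
    rw [Complex.ofReal_one, one_smul]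
    refine ⟨⟨1 + (k - q), 1 - q + n, ?_, ?_⟩, rfl⟩
    · have : (1 + (k - q)) * (1 - q + n) =
        1 - q + n + k - k * q + k * n - q + q * q - q * n := by noncomm_ring
      rw [this, kq, kn, qq, qn]
      abel
    · have : (1 - q + n) * (1 + (k - q)) =
        1 - q + n + k - q * k + n * k - q + q * q - n * q := by noncomm_ring
      rw [this, qk, nk, qq, nq]
      abel
  · have e1 : (1 : U) + (t : ℂ) • (k - q) = (1 - t) • (1 : U) + t • ((1 - q) + k) := by
      rw [Complex.coe_smul]
      module
    rw [e1]
    have p1 : IsStrictlyPositive ((1 - t) • (1 : U)) :=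
      IsStrictlyPositive.smul (by linarith) isStrictlyPositive_one
    have p2 : (0 : U) ≤ 1 - q := by
      have : 1 - q = star (1 - q) * (1 - q) := by
        rw [star_sub, star_one, qs]
        have : (1 - q) * (1 - q) = 1 - q - q + q * q := by noncomm_ring
        rw [this, qq]; abel
      rw [this]
      exact star_mul_self_nonneg _
    have p3 : (0 : U) ≤ k := by rw [hc]; exact star_mul_self_nonneg _
    have p4 : (0 : U) ≤ t • ((1 - q) + k) := smul_nonneg h0 (add_nonneg p2 p3)
    exact (p1.add_nonneg p4).isUnit

namespace Corner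

variable {B : Type} [NonUnitalCStarAlgebra B] {q S T : B}

/-- The path of step 3: mutually inverse elements `m t`, `n t` of the corner. -/
theorem exists_path (h : Corner q S T) : ∃ m n : I → B, Continuous m ∧ Continuous n ∧
    (∀ t, n t * m t = q) ∧ (∀ t, m t * n t = q) ∧ (∀ t, m t * q = m t) ∧ (∀ t, q * n t = n t) ∧
    m 0 = q ∧ n 0 = q ∧ m 1 = ksq T ∧ n 1 = (star S * S) * ksq T := by
  obtain ⟨c, hc⟩ := ksq_form T
  set k := ksq T with hk
  set ν := (star S * S) * k with hν
  let M : I → Unitization ℂ B := fun t => 1 + ((t : ℝ) : ℂ) • ((k : Unitization ℂ B) - q)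
  have hM : ∀ t, IsUnit (M t) := fun t =>
    isUnit_path (k : Unitization ℂ B) q ν c (by rw [hc]; simp)
      (by rw [← Unitization.inr_star, h.qs]) (by rw [← Unitization.inr_mul, h.qq])
      (by rw [← Unitization.inr_mul, h.kq]) (by rw [← Unitization.inr_mul, h.qk])
      (by rw [← Unitization.inr_mul, h.kn]) (by rw [← Unitization.inr_mul, h.nk])
      (by rw [← Unitization.inr_mul, h.qn]) (by rw [← Unitization.inr_mul, h.nq])
      (t : ℝ) t.2.1 t.2.2
  have hMc : Continuous M := by
    have hc : Continuous fun t : I => ((t : ℝ) : ℂ) :=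
      Complex.continuous_ofReal.comp continuous_subtype_val
    exact continuous_const.add (hc.smul continuous_const)
  have hIc : Continuous fun t => Ring.inverse (M t) := by
    rw [continuous_iff_continuousAt]
    intro t
    obtain ⟨u, hu⟩ := hM t
    have h1 := NormedRing.inverse_continuousAt u
    rw [hu] at h1
    exact ContinuousAt.comp (g := Ring.inverse) h1 hMc.continuousAt
  let m : I → B := fun t => (1 - ((t : ℝ) : ℂ)) • q + ((t : ℝ) : ℂ) • k
  let n : I → B := fun t => ((q : Unitization ℂ B) * Ring.inverse (M t)).snd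
  have hmM : ∀ t, ((m t : B) : Unitization ℂ B) = q * M t := by
    intro t
    show (((1 - ((t : ℝ) : ℂ)) • q + ((t : ℝ) : ℂ) • k : B) : Unitization ℂ B) =
      q * (1 + ((t : ℝ) : ℂ) • ((k : Unitization ℂ B) - q))
    rw [mul_add, mul_one, mul_smul_comm, mul_sub, ← Unitization.inr_mul, ← Unitization.inr_mul,
      h.qk, h.qq, Unitization.inr_add, Unitization.inr_smul, Unitization.inr_smul]
    module
  have hmM' : ∀ t, ((m t : B) : Unitization ℂ B) = M t * q := by
    intro t
    show (((1 - ((t : ℝ) : ℂ)) • q + ((t : ℝ) : ℂ) • k : B) : Unitization ℂ B) =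
      (1 + ((t : ℝ) : ℂ) • ((k : Unitization ℂ B) - q)) * q
    rw [add_mul, one_mul, smul_mul_assoc, sub_mul, ← Unitization.inr_mul, ← Unitization.inr_mul,
      h.kq, h.qq, Unitization.inr_add, Unitization.inr_smul, Unitization.inr_smul]
    module
  have hMi : ∀ t, M t * Ring.inverse (M t) = 1 := fun t => Ring.mul_inverse_cancel _ (hM t)
  have hiM : ∀ t, Ring.inverse (M t) * M t = 1 := fun t => Ring.inverse_mul_cancel _ (hM t)
  have hn : ∀ t, ((n t : B) : Unitization ℂ B) = q * Ring.inverse (M t) := by
    intro t
    show ((((q : Unitization ℂ B) * Ring.inverse (M t)).snd : B) : Unitization ℂ B) = _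
    ext
    · simp
    · simp
  have hn' : ∀ t, ((n t : B) : Unitization ℂ B) = Ring.inverse (M t) * q := by
    intro t
    rw [hn]
    have e1 : (q : Unitization ℂ B) * M t = M t * q := by rw [← hmM, ← hmM']
    calc (q : Unitization ℂ B) * Ring.inverse (M t)
        = (Ring.inverse (M t) * M t) * q * Ring.inverse (M t) := by rw [hiM, one_mul]
      _ = Ring.inverse (M t) * (M t * q) * Ring.inverse (M t) := by noncomm_ring
      _ = Ring.inverse (M t) * q * (M t * Ring.inverse (M t)) := by rw [← e1]; noncomm_ring
      _ = _ := by rw [hMi, mul_one]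
  have hqq : (q : Unitization ℂ B) * q = q := by rw [← Unitization.inr_mul, h.qq]
  have inj := Unitization.inr_injective (R := ℂ) (A := B)
  have hnm : ∀ t, n t * m t = q := by
    intro t
    apply inj
    rw [Unitization.inr_mul, hn, hmM']
    calc (q : Unitization ℂ B) * Ring.inverse (M t) * (M t * q)
        = q * (Ring.inverse (M t) * M t) * q := by noncomm_ring
      _ = q := by rw [hiM, mul_one, hqq]
  have hmn : ∀ t, m t * n t = q := by
    intro t
    apply inj
    rw [Unitization.inr_mul, hn', hmM]
    calc (q : Unitization ℂ B) * M t * (Ring.inverse (M t) * q)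
        = q * (M t * Ring.inverse (M t)) * q := by noncomm_ring
      _ = q := by rw [hMi, mul_one, hqq]
  have hmq : ∀ t, m t * q = m t := by
    intro t
    show ((1 - ((t : ℝ) : ℂ)) • q + ((t : ℝ) : ℂ) • k) * q = _
    rw [add_mul, smul_mul_assoc, smul_mul_assoc, h.qq, h.kq]
  have hqn : ∀ t, q * n t = n t := by
    intro t
    apply inj
    rw [Unitization.inr_mul, hn, ← mul_assoc, hqq]
  have hm1 : m 1 = k := by
    show (1 - (((1 : I) : ℝ) : ℂ)) • q + (((1 : I) : ℝ) : ℂ) • k = k
    simp
  have hm0 : m 0 = q := by
    show (1 - (((0 : I) : ℝ) : ℂ)) • q + (((0 : I) : ℝ) : ℂ) • k = q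
    simp
  refine ⟨m, n, ?_, ?_, hnm, hmn, hmq, hqn, hm0, ?_, hm1, ?_⟩
  · have hc : Continuous fun t : I => ((t : ℝ) : ℂ) :=
      Complex.continuous_ofReal.comp continuous_subtype_val
    exact ((continuous_const.sub hc).smul continuous_const).add (hc.smul continuous_const)
  · exact Unitization.continuous_snd.comp (continuous_const.mul hIc)
  · have h1 := hnm 0
    rw [hm0] at h1
    have h2 : n 0 * q = n 0 := by
      apply inj
      rw [Unitization.inr_mul, hn', mul_assoc, hqq]
    rw [← h2, h1]
  · have h1 := hnm 1
    rw [hm1] at h1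
    have h2 : n 1 * q = n 1 := by
      apply inj
      rw [Unitization.inr_mul, hn', mul_assoc, hqq]
    calc n 1 = n 1 * (k * ν) := by rw [h.kn, h2]
      _ = (n 1 * k) * ν := by rw [mul_assoc]
      _ = ν := by rw [h1, h.qn]

end Corner

end Pool.Agent.GHT
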