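import Pool.Agent.GHT.St3

/-! # The straightening map and its properties -/

set_option linter.unusedSectionVars false
set_option linter.style.haveILetI false

namespace Pool.Agent.GHT

open scoped unitInterval

/-- Two Cuntz-Krieger families are equal if their members are equal. -/
theorem CKFam.ext' {G : DGraph} {B : Type} [NonUnitalCStarAlgebra B] {Ψ Ψ' : CKFam G B}
    (hp : ∀ v, Ψ.p v = Ψ'.p v) (hs : ∀ e, Ψ.s e = Ψ'.s e) : Ψ = Ψ' := by
  cases Ψ; cases Ψ'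
  simp only [CKFam.mk.injEq]
  exact ⟨funext hp, funext hs⟩

/-- The image of a Cuntz-Krieger family. -/
def CKFam.map {G : DGraph} {B D : Type} [NonUnitalCStarAlgebra B] [NonUnitalCStarAlgebra D]
    (Ψ : CKFam G B) (π : B →⋆ₙₐ[ℂ] D) : CKFam G D where
  p v := π (Ψ.p v)
  s e := π (Ψ.s e)
  p_star v := by rw [← map_star, Ψ.p_star]
  p_mul v := by rw [← map_mul, Ψ.p_mul]
  p_orth v w h := by rw [← map_mul, Ψ.p_orth v w h, map_zero]
  s_star_s e := by rw [← map_star, ← map_mul, Ψ.s_star_s]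
  s_orth e f h := by rw [← map_star, ← map_mul, Ψ.s_orth e f h, map_zero]
  p_s e := by rw [← map_mul, Ψ.p_s]
  ck v h := by
    rw [Ψ.ck v h, map_sum]
    exact Finset.sum_congr rfl (fun e _ => by rw [map_mul, map_star])

theorem CKFam.toL_inj {G : DGraph} {B : Type} [NonUnitalCStarAlgebra B] {Ψ Ψ' : CKFam G B}
    (h : Ψ.toL = Ψ'.toL) : Ψ = Ψ' := by
  apply CKFam.ext'
  · intro v; exact congrFun (congrArg LFam.P h) v
  · intro e; exact congrFun (congrArg LFam.S h) e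

theorem CKFam.toL_map {G : DGraph} {B D : Type} [NonUnitalCStarAlgebra B]
    [NonUnitalCStarAlgebra D] (Ψ : CKFam G B) (π : B →⋆ₙₐ[ℂ] D) :
    (Ψ.map π).toL = Ψ.toL.map π := by
  ext x
  · rfl
  · rfl
  · show star (π (Ψ.s x)) = π (star (Ψ.s x))
    rw [map_star]

namespace LFam

variable {G : DGraph} {B : Type} [NonUnitalCStarAlgebra B] (Φ : LFam G B)

theorem corner (hP : ∀ v, star (Φ.P v) = Φ.P v)
    (hT : ∀ e, star (Φ.S e * Φ.T e) = Φ.S e * Φ.T e) (e : G.E) :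
    Corner (Φ.P (G.r e)) (Φ.S e) (Φ.T e) where
  qs := hP _
  qq := Φ.PP _
  Sq := Φ.SP _
  qT := Φ.PT _
  TS := Φ.TS _
  st := hT _

/-- The result of step 3, as a Leavitt family. -/
noncomputable def F3 (hP : ∀ v, star (Φ.P v) = Φ.P v)
    (hT : ∀ e, star (Φ.S e * Φ.T e) = Φ.S e * Φ.T e) : LFam G B :=
  Φ.scale (fun e => ksq (Φ.T e)) (fun e => (star (Φ.S e) * Φ.S e) * ksq (Φ.T e))
    (fun e => (Φ.corner hP hT e).nk) (fun e => (Φ.corner hP hT e).kn)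
    (fun e => (Φ.corner hP hT e).kq) (fun e => (Φ.corner hP hT e).qn)

theorem F3_star (hP : ∀ v, star (Φ.P v) = Φ.P v)
    (hT : ∀ e, star (Φ.S e * Φ.T e) = Φ.S e * Φ.T e) (e : G.E) :
    star ((Φ.F3 hP hT).S e) = (Φ.F3 hP hT).T e :=
  (Φ.corner hP hT e).star_Sk

variable [Encodable G.V] [Encodable G.E]

theorem F2_P_sa (hP : ∀ v, star (Φ.P v) = Φ.P v) (v : G.V) :
    star ((Φ.F2 hP).P v) = (Φ.F2 hP).P v := hP v

theorem F3_P_sa (hP : ∀ v, star (Φ.P v) = Φ.P v)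
    (hT : ∀ e, star (Φ.S e * Φ.T e) = Φ.S e * Φ.T e) (v : G.V) :
    star ((Φ.F3 hP hT).P v) = (Φ.F3 hP hT).P v := hP v

/-- The straightening of a Leavitt family, as a Leavitt family. -/
noncomputable def strL : LFam G B :=
  (Φ.F1.F2 Φ.F1_sa).F3 (Φ.F1.F2_P_sa Φ.F1_sa) (Φ.F1.F2_sa Φ.F1_sa)

/-- The straightening of a Leavitt family. -/
noncomputable def str : CKFam G B :=
  Φ.strL.toCK ((Φ.F1.F2 Φ.F1_sa).F3_P_sa (Φ.F1.F2_P_sa Φ.F1_sa) (Φ.F1.F2_sa Φ.F1_sa))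
    ((Φ.F1.F2 Φ.F1_sa).F3_star (Φ.F1.F2_P_sa Φ.F1_sa) (Φ.F1.F2_sa Φ.F1_sa))

theorem str_toL : Φ.str.toL = Φ.strL := by
  ext x
  · rfl
  · rfl
  · exact ((Φ.F1.F2 Φ.F1_sa).F3_star (Φ.F1.F2_P_sa Φ.F1_sa) (Φ.F1.F2_sa Φ.F1_sa)) x

theorem F3_congr {Φ' : LFam G B} (h : Φ = Φ') (hP : ∀ v, star (Φ.P v) = Φ.P v)
    (hT : ∀ e, star (Φ.S e * Φ.T e) = Φ.S e * Φ.T e) (hP' : ∀ v, star (Φ'.P v) = Φ'.P v)
    (hT' : ∀ e, star (Φ'.S e * Φ'.T e) = Φ'.S e * Φ'.T e) : Φ.F3 hP hT = Φ'.F3 hP' hT' := by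
  subst h; rfl

theorem F2_congr {Φ' : LFam G B} (h : Φ = Φ') (hP : ∀ v, star (Φ.P v) = Φ.P v)
    (hP' : ∀ v, star (Φ'.P v) = Φ'.P v) : Φ.F2 hP = Φ'.F2 hP' := by
  subst h; rfl

theorem map_F3 {D : Type} [NonUnitalCStarAlgebra D] (π : B →⋆ₙₐ[ℂ] D)
    (hP : ∀ v, star (Φ.P v) = Φ.P v)
    (hT : ∀ e, star (Φ.S e * Φ.T e) = Φ.S e * Φ.T e)
    (hP' : ∀ v, star ((Φ.map π).P v) = (Φ.map π).P v)
    (hT' : ∀ e, star ((Φ.map π).S e * (Φ.map π).T e) = (Φ.map π).S e * (Φ.map π).T e) :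
    (Φ.map π).F3 hP' hT' = (Φ.F3 hP hT).map π := by
  ext x
  · rfl
  · show π (Φ.S x) * ksq (π (Φ.T x)) = π (Φ.S x * ksq (Φ.T x))
    rw [map_ksq, map_mul]
  · show star (π (Φ.S x)) * π (Φ.S x) * ksq (π (Φ.T x)) * π (Φ.T x) =
      π (star (Φ.S x) * Φ.S x * ksq (Φ.T x) * Φ.T x)
    rw [map_ksq, map_mul, map_mul, map_mul, map_star]

/-- Naturality of the straightening. -/
theorem map_strL {D : Type} [NonUnitalCStarAlgebra D] (π : B →⋆ₙₐ[ℂ] D) :
    (Φ.map π).strL = Φ.strL.map π := by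
  have h1 : (Φ.map π).F1 = Φ.F1.map π := Φ.map_F1 π
  have hP1 : ∀ v, star ((Φ.F1.map π).P v) = (Φ.F1.map π).P v := by
    intro v; rw [← h1]; exact (Φ.map π).F1_sa v
  have h2 : (Φ.map π).F1.F2 (Φ.map π).F1_sa = (Φ.F1.F2 Φ.F1_sa).map π := by
    rw [F2_congr _ h1 _ hP1, Φ.F1.map_F2 π Φ.F1_sa hP1]
  have hP2 : ∀ v, star (((Φ.F1.F2 Φ.F1_sa).map π).P v) = ((Φ.F1.F2 Φ.F1_sa).map π).P v := hP1
  have hT2 : ∀ e, star (((Φ.F1.F2 Φ.F1_sa).map π).S e * ((Φ.F1.F2 Φ.F1_sa).map π).T e) =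
      ((Φ.F1.F2 Φ.F1_sa).map π).S e * ((Φ.F1.F2 Φ.F1_sa).map π).T e := by
    rw [← h2]; exact (Φ.map π).F1.F2_sa (Φ.map π).F1_sa
  exact (F3_congr _ h2 _ _ hP2 hT2).trans (map_F3 _ π _ _ _ _)

theorem map_str {D : Type} [NonUnitalCStarAlgebra D] (π : B →⋆ₙₐ[ℂ] D) :
    (Φ.map π).str = Φ.str.map π := by
  apply CKFam.toL_inj
  rw [str_toL, CKFam.toL_map, str_toL, map_strL]

/-- Cuntz-Krieger families are fixed by the straightening. -/
theorem str_fix (Ψ : CKFam G B) : Ψ.toL.str = Ψ := by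
  apply CKFam.toL_inj
  rw [str_toL]
  have hP : ∀ v, star (Ψ.toL.P v) = Ψ.toL.P v := Ψ.p_star
  have hT : ∀ e, star (Ψ.toL.S e * Ψ.toL.T e) = Ψ.toL.S e * Ψ.toL.T e := by
    intro e
    show star (Ψ.s e * star (Ψ.s e)) = Ψ.s e * star (Ψ.s e)
    rw [star_mul, star_star]
  have h1 : Ψ.toL.F1 = Ψ.toL := Ψ.toL.F1_fix hP
  have h2 : Ψ.toL.F1.F2 Ψ.toL.F1_sa = Ψ.toL := by
    rw [F2_congr _ h1 _ hP]
    exact Ψ.toL.st2_fix hP hT
  refine (F3_congr _ h2 _ _ hP hT).trans ?_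
  have hk : ∀ e, ksq (Ψ.toL.T e) = Ψ.toL.P (G.r e) := by
    intro e
    apply ksq_proj _ _ _ (hP _) (Ψ.toL.PP _)
    show star (Ψ.s e) * star (star (Ψ.s e)) = _
    rw [star_star]
    exact Ψ.s_star_s e
  ext x
  · rfl
  · show Ψ.toL.S x * ksq (Ψ.toL.T x) = Ψ.toL.S x
    rw [hk, Ψ.toL.SP]
  · show star (Ψ.toL.S x) * Ψ.toL.S x * ksq (Ψ.toL.T x) * Ψ.toL.T x = Ψ.toL.T x
    rw [hk]
    have : star (Ψ.toL.S x) * Ψ.toL.S x = Ψ.toL.P (G.r x) := Ψ.s_star_s x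
    rw [this, Ψ.toL.PP, Ψ.toL.PT]

end LFam

/-! ## Paths of families -/

/-- Evaluation at a point as a `*`-homomorphism. -/
def ev {B : Type} [NonUnitalCStarAlgebra B] (t : I) : C(I, B) →⋆ₙₐ[ℂ] B where
  toFun f := f t
  map_smul' _ _ := rfl
  map_zero' := rfl
  map_add' _ _ := rfl
  map_mul' _ _ := rfl
  map_star' _ := rfl

/-- A continuous path of Leavitt families as a Leavitt family in `C(I, B)`. -/
noncomputable def LFam.ofPath {G : DGraph} {B : Type} [NonUnitalCStarAlgebra B]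
    (Φ : I → LFam G B) (hP : ∀ v, Continuous fun t => (Φ t).P v)
    (hS : ∀ e, Continuous fun t => (Φ t).S e) (hT : ∀ e, Continuous fun t => (Φ t).T e) :
    LFam G C(I, B) where
  P v := ⟨fun t => (Φ t).P v, hP v⟩
  S e := ⟨fun t => (Φ t).S e, hS e⟩
  T e := ⟨fun t => (Φ t).T e, hT e⟩
  PP v := by ext t; exact (Φ t).PP v
  PPo v w h := by ext t; exact (Φ t).PPo v w h
  PS e := by ext t; exact (Φ t).PS e
  SP e := by ext t; exact (Φ t).SP e
  PT e := by ext t; exact (Φ t).PT e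
  TP e := by ext t; exact (Φ t).TP e
  TS e := by ext t; exact (Φ t).TS e
  TSo e f h := by ext t; exact (Φ t).TSo e f h
  CK v h := by
    ext t
    rw [ContinuousMap.sum_apply]
    exact (Φ t).CK v h

/-- Two Leavitt families are joined by a path. -/
def PathL {G : DGraph} {B : Type} [NonUnitalCStarAlgebra B] (Φ Φ' : LFam G B) : Prop :=
  ∃ Ω : LFam G C(I, B), Ω.map (ev 0) = Φ ∧ Ω.map (ev 1) = Φ'

theorem PathL.of {G : DGraph} {B : Type} [NonUnitalCStarAlgebra B]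
    (Φ : I → LFam G B) (hP : ∀ v, Continuous fun t => (Φ t).P v)
    (hS : ∀ e, Continuous fun t => (Φ t).S e) (hT : ∀ e, Continuous fun t => (Φ t).T e) :
    PathL (Φ 0) (Φ 1) :=
  ⟨LFam.ofPath Φ hP hS hT, rfl, rfl⟩

/-- The parameters of the Gram-Schmidt paths. -/
noncomputable def par (k : ℕ) (t : ℝ) : ℝ := max 0 (min 1 (2 ^ (k + 1) * (t - (1 - (1 / 2) ^ k))))

theorem par_cont (k : ℕ) : Continuous (par k) := by
  unfold par; fun_prop

theorem par_zero (k : ℕ) : par k 0 = 0 := by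
  unfold par
  apply max_eq_left
  apply (min_le_right _ _).trans
  have h1 : ((1 / 2 : ℝ)) ^ k ≤ 1 := pow_le_one₀ (by norm_num) (by norm_num)
  have h2 : (0 : ℝ) < 2 ^ (k + 1) := by positivity
  nlinarith

theorem par_one (k : ℕ) : par k 1 = 1 := by
  unfold par
  have h : (2 : ℝ) ^ (k + 1) * (1 - (1 - (1 / 2) ^ k)) = 2 := by
    rw [sub_sub_cancel, pow_succ, one_div, inv_pow]
    field_simp
  rw [h]
  norm_num

theorem par_mul (n k : ℕ) (h : n < k) (t : ℝ) : (1 - par n t) * par k t = 0 := by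
  by_cases h0 : par k t = 0
  · rw [h0, mul_zero]
  · have h1 : 0 < 2 ^ (k + 1) * (t - (1 - (1 / 2) ^ k)) := by
      by_contra h2
      push Not at h2
      apply h0
      unfold par
      exact max_eq_left ((min_le_right _ _).trans h2)
    have h2 : 0 < t - (1 - (1 / 2 : ℝ) ^ k) := by
      have : (0 : ℝ) < 2 ^ (k + 1) := by positivity
      exact (mul_pos_iff_of_pos_left this).1 h1
    have h3 : (1 / 2 : ℝ) ^ k ≤ (1 / 2) ^ (n + 1) :=
      pow_le_pow_of_le_one (by norm_num) (by norm_num) h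
    have h4 : (1 / 2 : ℝ) ^ (n + 1) ≤ t - (1 - (1 / 2) ^ n) := by
      have : (1 / 2 : ℝ) ^ (n + 1) = (1 / 2) ^ n / 2 := by rw [pow_succ]; ring
      linarith
    have h5 : 1 ≤ 2 ^ (n + 1) * (t - (1 - (1 / 2 : ℝ) ^ n)) := by
      have e : (2 : ℝ) ^ (n + 1) * (1 / 2) ^ (n + 1) = 1 := by
        rw [← mul_pow]; norm_num
      calc (1 : ℝ) = 2 ^ (n + 1) * (1 / 2) ^ (n + 1) := e.symm
        _ ≤ _ := by gcongr
    have h6 : par n t = 1 := by
      unfold par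
      rw [min_eq_left h5]
      norm_num
    rw [h6, sub_self, zero_mul]

/-- The parameters as complex numbers. -/
noncomputable def cpar (t : I) (k : ℕ) : ℂ := ((par k (t : ℝ) : ℝ) : ℂ)

theorem cpar_mul (t : I) (n k : ℕ) (h : n < k) : (1 - cpar t n) * cpar t k = 0 := by
  unfold cpar
  have := par_mul n k h (t : ℝ)
  rw [← Complex.ofReal_one, ← Complex.ofReal_sub, ← Complex.ofReal_mul, this, Complex.ofReal_zero]

theorem cpar_zero : cpar 0 = fun _ => 0 := by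
  funext k; unfold cpar; simp [par_zero]

theorem cpar_one : cpar 1 = fun _ => 1 := by
  funext k; unfold cpar; simp [par_one]

theorem cpar_cont (k : ℕ) : Continuous fun t => cpar t k :=
  Complex.continuous_ofReal.comp ((par_cont k).comp continuous_subtype_val)

namespace LFam

variable {G : DGraph} [Encodable G.V] [Encodable G.E] {B : Type} [NonUnitalCStarAlgebra B]
  (Φ : LFam G B)

theorem st1_congr {τ τ' : ℕ → ℂ} (h : τ = τ') (hτ : ∀ n k, n < k → (1 - τ n) * τ k = 0)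
    (hτ' : ∀ n k, n < k → (1 - τ' n) * τ' k = 0) : Φ.st1 τ hτ = Φ.st1 τ' hτ' := by
  subst h; rfl

theorem st2_congr {τ τ' : ℕ → ℂ} (h : τ = τ') (hτ : ∀ n k, n < k → (1 - τ n) * τ k = 0)
    (hτ' : ∀ n k, n < k → (1 - τ' n) * τ' k = 0) (hP : ∀ v, star (Φ.P v) = Φ.P v) :
    Φ.st2 τ hτ hP = Φ.st2 τ' hτ' hP := by
  subst h; rfl

theorem path1 : PathL Φ Φ.F1 := by
  have h := PathL.of (fun t => Φ.st1 (cpar t) (cpar_mul t)) ?_ ?_ ?_
  · rw [st1_congr Φ cpar_zero (cpar_mul 0) zero_par, Φ.st1_zero,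
      st1_congr Φ cpar_one (cpar_mul 1) one_par] at h
    exact h
  · intro v
    exact (Φ.vF.continuous_GU _ cpar_cont _).mul (Φ.vF.continuous_GW _ cpar_cont _)
  · intro e
    exact ((Φ.vF.continuous_GU _ cpar_cont _).mul continuous_const).mul
      (Φ.vF.continuous_GW _ cpar_cont _)
  · intro e
    exact ((Φ.vF.continuous_GU _ cpar_cont _).mul continuous_const).mul
      (Φ.vF.continuous_GW _ cpar_cont _)

theorem path2 (hP : ∀ v, star (Φ.P v) = Φ.P v) : PathL Φ (Φ.F2 hP) := by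
  have h := PathL.of (fun t => Φ.st2 (cpar t) (cpar_mul t) hP) ?_ ?_ ?_
  · rw [st2_congr Φ cpar_zero (cpar_mul 0) zero_par, Φ.st2_zero,
      st2_congr Φ cpar_one (cpar_mul 1) one_par] at h
    exact h
  · intro v
    exact continuous_const
  · intro e
    exact (Φ.eF _).continuous_GU _ cpar_cont _
  · intro e
    exact (Φ.eF _).continuous_GW _ cpar_cont _

theorem path3 (hP : ∀ v, star (Φ.P v) = Φ.P v)
    (hT : ∀ e, star (Φ.S e * Φ.T e) = Φ.S e * Φ.T e) : PathL Φ (Φ.F3 hP hT) := by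
  choose m n hm hn hnm hmn hmq hqn hm0 hn0 hm1 hn1 using
    fun e => (Φ.corner hP hT e).exists_path
  have h := PathL.of (fun t => Φ.scale (fun e => m e t) (fun e => n e t) (fun e => hnm e t)
    (fun e => hmn e t) (fun e => hmq e t) (fun e => hqn e t)) (fun v => continuous_const)
    (fun e => continuous_const.mul (hm e)) (fun e => (hn e).mul continuous_const)
  have e0 : Φ.scale (fun e => m e 0) (fun e => n e 0) (fun e => hnm e 0)
    (fun e => hmn e 0) (fun e => hmq e 0) (fun e => hqn e 0) = Φ := by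
    ext x
    · rfl
    · show Φ.S x * m x 0 = _
      rw [hm0, Φ.SP]
    · show n x 0 * Φ.T x = _
      rw [hn0, Φ.PT]
  have e1 : Φ.scale (fun e => m e 1) (fun e => n e 1) (fun e => hnm e 1)
    (fun e => hmn e 1) (fun e => hmq e 1) (fun e => hqn e 1) = Φ.F3 hP hT := by
    ext x
    · rfl
    · show Φ.S x * m x 1 = Φ.S x * ksq (Φ.T x)
      rw [hm1]
    · show n x 1 * Φ.T x = (star (Φ.S x) * Φ.S x) * ksq (Φ.T x) * Φ.T x
      rw [hn1]
  rw [e0, e1] at h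
  exact h

/-- Every Leavitt family is joined to its straightening. -/
theorem path_str : Relation.ReflTransGen PathL Φ Φ.str.toL := by
  rw [str_toL]
  refine Relation.ReflTransGen.head Φ.path1 (Relation.ReflTransGen.head
    (Φ.F1.path2 Φ.F1_sa) (Relation.ReflTransGen.single ?_))
  exact (Φ.F1.F2 Φ.F1_sa).path3 (Φ.F1.F2_P_sa Φ.F1_sa) (Φ.F1.F2_sa Φ.F1_sa)

end LFam

end Pool.Agent.GHT
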