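import Pool.Agent.GHT.Rep

/-! # Monomials in the Leavitt path algebra -/

set_option linter.unusedSectionVars false

namespace Pool.Agent.GHT

variable (G : DGraph)

/-- vertices, edges, ghost edges in the unital algebra -/
noncomputable def gP (v : G.V) : LU G := gen G (Gen.vert v)
noncomputable def gS (e : G.E) : LU G := gen G (Gen.edge e)
noncomputable def gT (e : G.E) : LU G := gen G (Gen.ghost e)

/-- The canonical Leavitt family in the unital algebra. -/
noncomputable def canU : LFam G (LU G) where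
  P := gP G
  S := gS G
  T := gT G
  PP v := congrArg Subtype.val ((canL G).PP v)
  PPo v w h := congrArg Subtype.val ((canL G).PPo v w h)
  PS e := congrArg Subtype.val ((canL G).PS e)
  SP e := congrArg Subtype.val ((canL G).SP e)
  PT e := congrArg Subtype.val ((canL G).PT e)
  TP e := congrArg Subtype.val ((canL G).TP e)
  TS e := congrArg Subtype.val ((canL G).TS e)
  TSo e f h := congrArg Subtype.val ((canL G).TSo e f h)
  CK v h := by
    have := congrArg Subtype.val ((canL G).CK v h)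
    rw [AddSubmonoidClass.coe_finsetSum] at this
    exact this

theorem gPP (v : G.V) : gP G v * gP G v = gP G v := (canU G).PP v
theorem gPPo {v w : G.V} (h : v ≠ w) : gP G v * gP G w = 0 := (canU G).PPo v w h
theorem gPS (e : G.E) : gP G (G.s e) * gS G e = gS G e := (canU G).PS e
theorem gSP (e : G.E) : gS G e * gP G (G.r e) = gS G e := (canU G).SP e
theorem gPT (e : G.E) : gP G (G.r e) * gT G e = gT G e := (canU G).PT e
theorem gTP (e : G.E) : gT G e * gP G (G.s e) = gT G e := (canU G).TP e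
theorem gTS (e : G.E) : gT G e * gS G e = gP G (G.r e) := (canU G).TS e
theorem gTSo {e f : G.E} (h : e ≠ f) : gT G e * gS G f = 0 := (canU G).TSo e f h
theorem gCK (v : G.V) (h : G.Regular v) : gP G v = ∑ e ∈ h.2.toFinset, gS G e * gT G e :=
  (canU G).CK v h

theorem gPS' {v : G.V} {e : G.E} (h : G.s e ≠ v) : gP G v * gS G e = 0 := by
  rw [← gPS, ← mul_assoc, gPPo G (Ne.symm h), zero_mul]
theorem gSP' {v : G.V} {e : G.E} (h : G.r e ≠ v) : gS G e * gP G v = 0 := by
  rw [← gSP, mul_assoc, gPPo G h, mul_zero]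
theorem gPT' {v : G.V} {e : G.E} (h : G.r e ≠ v) : gP G v * gT G e = 0 := by
  rw [← gPT, ← mul_assoc, gPPo G (Ne.symm h), zero_mul]
theorem gTP' {v : G.V} {e : G.E} (h : G.s e ≠ v) : gT G e * gP G v = 0 := by
  rw [← gTP, mul_assoc, gPPo G h, mul_zero]

/-- spans of vertices, edges, ghost edges -/
noncomputable def VV : Submodule ℂ (LU G) := Submodule.span ℂ (Set.range (gP G))
noncomputable def SS : Submodule ℂ (LU G) := Submodule.span ℂ (Set.range (gS G))
noncomputable def TT : Submodule ℂ (LU G) := Submodule.span ℂ (Set.range (gT G))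

variable {G}

theorem mml {M N P : Submodule ℂ (LU G)} (h : M ≤ N) : M * P ≤ N * P := mul_le_mul' h le_rfl
theorem mmr {M N P : Submodule ℂ (LU G)} (h : N ≤ P) : M * N ≤ M * P := mul_le_mul' le_rfl h

theorem mem_VV (v : G.V) : gP G v ∈ VV G := Submodule.subset_span ⟨v, rfl⟩
theorem mem_SS (e : G.E) : gS G e ∈ SS G := Submodule.subset_span ⟨e, rfl⟩
theorem mem_TT (e : G.E) : gT G e ∈ TT G := Submodule.subset_span ⟨e, rfl⟩

theorem span_mul_le' {ι κ : Type} (a : ι → LU G) (b : κ → LU G) (N : Submodule ℂ (LU G))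
    (h : ∀ i j, a i * b j ∈ N) :
    Submodule.span ℂ (Set.range a) * Submodule.span ℂ (Set.range b) ≤ N := by
  rw [Submodule.span_mul_span, Submodule.span_le]
  rintro _ ⟨_, ⟨i, rfl⟩, _, ⟨j, rfl⟩, rfl⟩
  exact h i j

theorem TT_SS : TT G * SS G ≤ VV G := by
  apply span_mul_le'
  intro e f
  by_cases h : e = f
  · subst h; rw [gTS]; exact mem_VV _
  · rw [gTSo G h]; exact zero_mem _

theorem VV_VV : VV G * VV G ≤ VV G := by
  apply span_mul_le'
  intro v w
  by_cases h : v = w
  · subst h; rw [gPP]; exact mem_VV _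
  · rw [gPPo G h]; exact zero_mem _

theorem VV_SS : VV G * SS G ≤ SS G := by
  apply span_mul_le'
  intro v e
  by_cases h : G.s e = v
  · subst h; rw [gPS]; exact mem_SS _
  · rw [gPS' G h]; exact zero_mem _

theorem SS_VV : SS G * VV G ≤ SS G := by
  apply span_mul_le'
  intro e v
  by_cases h : G.r e = v
  · subst h; rw [gSP]; exact mem_SS _
  · rw [gSP' G h]; exact zero_mem _

theorem VV_TT : VV G * TT G ≤ TT G := by
  apply span_mul_le'
  intro v e
  by_cases h : G.r e = v
  · subst h; rw [gPT]; exact mem_TT _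
  · rw [gPT' G h]; exact zero_mem _

theorem TT_VV : TT G * VV G ≤ TT G := by
  apply span_mul_le'
  intro e v
  by_cases h : G.s e = v
  · subst h; rw [gTP]; exact mem_TT _
  · rw [gTP' G h]; exact zero_mem _

theorem VV_le : VV G ≤ VV G * VV G := by
  unfold VV
  rw [Submodule.span_le]
  rintro _ ⟨v, rfl⟩
  rw [← gPP]
  exact Submodule.mul_mem_mul (mem_VV v) (mem_VV v)

theorem SS_le : SS G ≤ SS G * VV G := by
  conv_lhs => unfold SS
  rw [Submodule.span_le]
  rintro _ ⟨e, rfl⟩
  rw [← gSP]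
  exact Submodule.mul_mem_mul (mem_SS e) (mem_VV _)

theorem TT_le : TT G ≤ VV G * TT G := by
  conv_lhs => unfold TT
  rw [Submodule.span_le]
  rintro _ ⟨e, rfl⟩
  rw [← gPT]
  exact Submodule.mul_mem_mul (mem_VV _) (mem_TT e)

variable (G) in
/-- span of the monomials with `a` edges and `b` ghost edges -/
noncomputable def QQ (a b : ℕ) : Submodule ℂ (LU G) := SS G ^ a * VV G * TT G ^ b

theorem VV_QQ (a b : ℕ) : VV G * QQ G a b ≤ QQ G a b := by
  unfold QQ
  cases a with
  | zero =>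
    rw [pow_zero, one_mul, ← mul_assoc]
    exact mml VV_VV
  | succ a =>
    rw [pow_succ', ← mul_assoc, ← mul_assoc, ← mul_assoc, mul_assoc (VV G * SS G),
      mul_assoc (VV G * SS G), mul_assoc (SS G), mul_assoc (SS G)]
    exact mml VV_SS

theorem QQ_VV (a b : ℕ) : QQ G a b * VV G ≤ QQ G a b := by
  unfold QQ
  cases b with
  | zero =>
    rw [pow_zero, mul_one, mul_assoc]
    exact mmr VV_VV
  | succ b =>
    rw [pow_succ, ← mul_assoc, mul_assoc _ (TT G) (VV G)]
    exact mmr TT_VV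

theorem SS_QQ (a b : ℕ) : SS G * QQ G a b = QQ G (a + 1) b := by
  unfold QQ
  rw [pow_succ', mul_assoc, mul_assoc, mul_assoc]

theorem QQ_TT (a b : ℕ) : QQ G a b * TT G = QQ G a (b + 1) := by
  unfold QQ
  rw [pow_succ, mul_assoc (SS G ^ a * VV G)]

theorem TT_QQ_zero (b : ℕ) : TT G * QQ G 0 b ≤ QQ G 0 (b + 1) := by
  unfold QQ
  rw [pow_zero, one_mul, pow_succ', ← mul_assoc, ← mul_assoc]
  exact mml (TT_VV.trans TT_le)

theorem TT_QQ_succ (a b : ℕ) : TT G * QQ G (a + 1) b ≤ QQ G a b := by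
  rw [← SS_QQ, ← mul_assoc]
  exact (mml TT_SS).trans (VV_QQ a b)

theorem QQ_SS_zero (a : ℕ) : QQ G a 0 * SS G ≤ QQ G (a + 1) 0 := by
  unfold QQ
  rw [pow_zero, mul_one, mul_one, pow_succ, mul_assoc, mul_assoc]
  exact mmr (VV_SS.trans SS_le)

theorem QQ_SS_succ (a b : ℕ) : QQ G a (b + 1) * SS G ≤ QQ G a b := by
  rw [← QQ_TT, mul_assoc]
  exact (mmr TT_SS).trans (QQ_VV a b)

variable (G) in
/-- span of all monomials -/
noncomputable def UU : Submodule ℂ (LU G) := ⨆ a, ⨆ b, QQ G a b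

theorem QQ_le_UU (a b : ℕ) : QQ G a b ≤ UU G := le_iSup₂_of_le a b le_rfl

theorem mul_UU_le {N : Submodule ℂ (LU G)} (h : ∀ a b, N * QQ G a b ≤ UU G) :
    N * UU G ≤ UU G := by
  unfold UU
  rw [Submodule.mul_iSup]
  apply iSup_le; intro a
  rw [Submodule.mul_iSup]
  apply iSup_le; intro b
  exact h a b

theorem VV_UU : VV G * UU G ≤ UU G :=
  mul_UU_le fun a b => (VV_QQ a b).trans (QQ_le_UU a b)

theorem SS_UU : SS G * UU G ≤ UU G :=
  mul_UU_le fun a b => (SS_QQ a b).le.trans (QQ_le_UU _ _)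

theorem TT_UU : TT G * UU G ≤ UU G :=
  mul_UU_le fun a b => by
    cases a with
    | zero => exact (TT_QQ_zero b).trans (QQ_le_UU _ _)
    | succ a => exact (TT_QQ_succ a b).trans (QQ_le_UU _ _)

theorem pow_mul_UU {N : Submodule ℂ (LU G)} (h : N * UU G ≤ UU G) (n : ℕ) :
    N ^ n * UU G ≤ UU G := by
  induction n with
  | zero => rw [pow_zero, one_mul]
  | succ n ih =>
    rw [pow_succ', mul_assoc]
    exact (mmr ih).trans h

theorem UU_UU : UU G * UU G ≤ UU G := by
  conv_lhs => rw [UU]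
  rw [Submodule.iSup_mul]
  apply iSup_le; intro a
  rw [Submodule.iSup_mul]
  apply iSup_le; intro b
  rw [← UU]
  unfold QQ
  rw [mul_assoc, mul_assoc]
  exact (mmr ((mmr
    (pow_mul_UU TT_UU b)).trans VV_UU)).trans (pow_mul_UU SS_UU a)

theorem VV_le_UU : VV G ≤ UU G := by
  have := QQ_le_UU (G := G) 0 0
  unfold QQ at this
  rwa [pow_zero, pow_zero, one_mul, mul_one] at this

theorem SS_le_UU : SS G ≤ UU G := by
  have := QQ_le_UU (G := G) 1 0
  unfold QQ at this
  rw [pow_zero, pow_one, mul_one] at this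
  exact SS_le.trans this

theorem TT_le_UU : TT G ≤ UU G := by
  have := QQ_le_UU (G := G) 0 1
  unfold QQ at this
  rw [pow_zero, pow_one, one_mul] at this
  exact TT_le.trans this

/-- The Leavitt path algebra is spanned by the monomials. -/
theorem leavitt_le_UU {x : LU G} (hx : x ∈ Leavitt G) : x ∈ UU G := by
  unfold Leavitt at hx
  induction hx using NonUnitalAlgebra.adjoin_induction with
  | mem x hx =>
    obtain ⟨y, rfl⟩ := hx
    cases y with
    | vert v => exact VV_le_UU (mem_VV v)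
    | edge e => exact SS_le_UU (mem_SS e)
    | ghost e => exact TT_le_UU (mem_TT e)
  | add x y _ _ hx hy => exact add_mem hx hy
  | zero => exact zero_mem _
  | mul x y _ _ hx hy => exact UU_UU (Submodule.mul_mem_mul hx hy)
  | smul r x _ hx => exact Submodule.smul_mem _ r hx

/-! ## Gauge automorphism and degrees -/

variable (G) in
/-- The scaled family. -/
noncomputable def gfam : LFam G (LU G) where
  P := gP G
  S e := (2 : ℂ) • gS G e
  T e := (2 : ℂ)⁻¹ • gT G e
  PP v := gPP G v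
  PPo v w h := gPPo G h
  PS e := by rw [mul_smul_comm, gPS]
  SP e := by rw [smul_mul_assoc, gSP]
  PT e := by rw [mul_smul_comm, gPT]
  TP e := by rw [smul_mul_assoc, gTP]
  TS e := by rw [smul_mul_smul_comm, gTS]; norm_num
  TSo e f h := by rw [smul_mul_smul_comm, gTSo G h, smul_zero]
  CK v h := by
    rw [gCK G v h]
    apply Finset.sum_congr rfl
    intro e _
    rw [smul_mul_smul_comm]; norm_num

variable (G) in
/-- The gauge automorphism with parameter `2`. -/
noncomputable def gau : LU G →ₐ[ℂ] LU G := (gfam G).liftR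

theorem gau_P (v : G.V) : gau G (gP G v) = gP G v := (gfam G).liftR_gen (Gen.vert v)
theorem gau_S (e : G.E) : gau G (gS G e) = (2 : ℂ) • gS G e := (gfam G).liftR_gen (Gen.edge e)
theorem gau_T (e : G.E) : gau G (gT G e) = (2 : ℂ)⁻¹ • gT G e :=
  (gfam G).liftR_gen (Gen.ghost e)

variable (G) in
/-- elements of degree `d` -/
noncomputable def Eg (d : ℤ) : Submodule ℂ (LU G) :=
  Module.End.eigenspace (gau G).toLinearMap ((2 : ℂ) ^ d)

theorem mem_Eg {d : ℤ} {x : LU G} : x ∈ Eg G d ↔ gau G x = (2 : ℂ) ^ d • x := by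
  unfold Eg
  rw [Module.End.mem_eigenspace_iff]; rfl

theorem Eg_mul {s t : ℤ} {x y : LU G} (hx : x ∈ Eg G s) (hy : y ∈ Eg G t) :
    x * y ∈ Eg G (s + t) := by
  rw [mem_Eg] at *
  rw [map_mul, hx, hy, smul_mul_smul_comm, zpow_add₀ two_ne_zero]

theorem Eg_pow {s : ℤ} {x : LU G} (hx : x ∈ Eg G s) (n : ℕ) : x ^ n ∈ Eg G (n * s) := by
  induction n with
  | zero => rw [pow_zero, mem_Eg, map_one]; simp
  | succ n ih =>
    rw [pow_succ]
    have := Eg_mul ih hx
    convert this using 2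
    push_cast; ring

theorem Eg_mul_le (s t : ℤ) : Eg G s * Eg G t ≤ Eg G (s + t) := by
  rw [Submodule.mul_le]
  intro x hx y hy
  exact Eg_mul hx hy

theorem VV_le_Eg : VV G ≤ Eg G 0 := by
  unfold VV
  rw [Submodule.span_le]
  rintro _ ⟨v, rfl⟩
  show _ ∈ Eg G 0
  rw [mem_Eg, gau_P]; simp

theorem SS_le_Eg : SS G ≤ Eg G 1 := by
  unfold SS
  rw [Submodule.span_le]
  rintro _ ⟨e, rfl⟩
  show _ ∈ Eg G 1
  rw [mem_Eg, gau_S]; simp

theorem TT_le_Eg : TT G ≤ Eg G (-1) := by
  unfold TT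
  rw [Submodule.span_le]
  rintro _ ⟨e, rfl⟩
  show _ ∈ Eg G (-1)
  rw [mem_Eg, gau_T]; simp

theorem one_le_Eg : (1 : Submodule ℂ (LU G)) ≤ Eg G 0 := by
  rw [Submodule.one_le, mem_Eg, map_one]; simp

theorem SSpow_le_Eg (a : ℕ) : SS G ^ a ≤ Eg G a := by
  induction a with
  | zero => rw [pow_zero]; exact one_le_Eg
  | succ a ih =>
    rw [pow_succ]
    have := (mul_le_mul' ih SS_le_Eg).trans (Eg_mul_le _ _)
    exact_mod_cast this

theorem TTpow_le_Eg (a : ℕ) : TT G ^ a ≤ Eg G (-a) := by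
  induction a with
  | zero => rw [pow_zero]; simpa using one_le_Eg
  | succ a ih =>
    rw [pow_succ]
    have := (mul_le_mul' ih TT_le_Eg).trans (Eg_mul_le _ _)
    convert this using 2
    push_cast; ring

theorem QQ_le_Eg (a b : ℕ) : QQ G a b ≤ Eg G ((a : ℤ) - b) := by
  unfold QQ
  have := (mul_le_mul' ((mul_le_mul' (SSpow_le_Eg a) VV_le_Eg).trans
    (Eg_mul_le _ _)) (TTpow_le_Eg (G := G) b)).trans (Eg_mul_le _ _)
  convert this using 2
  ring

variable (G) in
/-- elements of degree at most `t` -/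
noncomputable def Fil (t : ℤ) : Submodule ℂ (LU G) := ⨆ d : ℤ, ⨆ _ : d ≤ t, Eg G d

theorem Eg_le_Fil {d t : ℤ} (h : d ≤ t) : Eg G d ≤ Fil G t := le_iSup₂_of_le d h le_rfl

theorem Fil_mono {s t : ℤ} (h : s ≤ t) : Fil G s ≤ Fil G t :=
  iSup₂_le fun _ hd => Eg_le_Fil (hd.trans h)

theorem Fil_mul_le (s t : ℤ) : Fil G s * Fil G t ≤ Fil G (s + t) := by
  conv_lhs => unfold Fil
  rw [Submodule.iSup_mul]
  apply iSup_le; intro d
  rw [Submodule.iSup_mul]
  apply iSup_le; intro hd
  rw [Submodule.mul_iSup]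
  apply iSup_le; intro d'
  rw [Submodule.mul_iSup]
  apply iSup_le; intro hd'
  exact (Eg_mul_le d d').trans (Eg_le_Fil (add_le_add hd hd'))

theorem Fil_mul {s t : ℤ} {x y : LU G} (hx : x ∈ Fil G s) (hy : y ∈ Fil G t) :
    x * y ∈ Fil G (s + t) := Fil_mul_le s t (Submodule.mul_mem_mul hx hy)

theorem Eg_indep : iSupIndep (Eg G) := by
  have h := (Module.End.eigenspaces_iSupIndep (gau G).toLinearMap).comp
    (f := fun d : ℤ => (2 : ℂ) ^ d) (by
      intro a b hab
      have h2 : ((2 : ℝ) ^ a) = 2 ^ b := by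
        have := congrArg norm hab
        simpa [norm_zpow] using this
      exact zpow_right_injective₀ (by norm_num) (by norm_num) h2)
  exact h

theorem Eg_Fil {d t : ℤ} (h : t < d) {x : LU G} (h1 : x ∈ Eg G d) (h2 : x ∈ Fil G t) :
    x = 0 := by
  have h3 := (Eg_indep (G := G)).disjoint_biSup (x := d) (y := {s | s ≤ t})
    (by simp only [Set.mem_ofPred_eq]; omega)
  rw [Submodule.disjoint_def] at h3
  exact h3 x h1 h2

end Pool.Agent.GHT
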